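import Pool.Agent.H84.RF.VACe

/-!
# MP_609556_an, full answer: module VAC, second order bounds
-/

open MeasureTheory Set Filter Topology Metric
open Pool.Agent.H29.TF (hk P)
open Pool.Agent.H91.RD Pool.Agent.H91.RF

namespace Pool.Agent.H84.RF.VAC

open VLOW

variable {N : ℕ}

theorem lim_eps {g : ℝ → ℝ} (hg : Continuous g) {a : ℝ} (h : ∀ ε > 0, g ε ≤ a) : g 0 ≤ a := by
  have h1 : Tendsto g (𝓝[>] 0) (𝓝 (g 0)) := (hg.tendsto 0).mono_left nhdsWithin_le_nhds
  exact le_of_tendsto h1 (eventually_nhdsWithin_of_forall h)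

/-- Taylor's formula of second order in one direction -/
theorem taylor {g : E N → ℝ} {h x0 x : E N} {A ρ r : ℝ} (hg : Differentiable ℝ g)
    (hg2 : Differentiable ℝ (fun z => fderiv ℝ g z h)) (hA : 0 ≤ A)
    (hb : ∀ z ∈ closedBall x0 (ρ + ‖h‖), ‖fderiv ℝ (fun z => fderiv ℝ g z h) z‖ ≤ A)
    (hx : x ∈ closedBall x0 ρ) (hr : r ∈ Ioc (0 : ℝ) 1) :
    |g (x + r • h) - g x - r * fderiv ℝ g x h| ≤ A * ‖h‖ * r ^ 2 := by
  have hmem : ∀ τ ∈ Icc (0 : ℝ) r, x + τ • h ∈ closedBall x0 (ρ + ‖h‖) := by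
    intro τ hτ
    rw [mem_closedBall, dist_eq_norm] at hx ⊢
    calc ‖x + τ • h - x0‖ = ‖(x - x0) + τ • h‖ := by congr 1; abel
      _ ≤ ‖x - x0‖ + ‖τ • h‖ := norm_add_le _ _
      _ ≤ ρ + ‖h‖ := by
        rw [norm_smul, Real.norm_of_nonneg hτ.1]
        have := norm_nonneg h
        have := hτ.2.trans hr.2
        nlinarith
  have hline : ∀ τ : ℝ, HasDerivAt (fun τ : ℝ => x + τ • h) h τ := by
    intro τ
    simpa using ((hasDerivAt_id τ).smul_const h).const_add x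
  have hφ : ∀ τ : ℝ, HasDerivAt (fun τ : ℝ => g (x + τ • h) - τ * fderiv ℝ g x h)
      (fderiv ℝ g (x + τ • h) h - fderiv ℝ g x h) τ := by
    intro τ
    have h1 := (hg (x + τ • h)).hasFDerivAt.comp_hasDerivAt τ (hline τ)
    have h2 : HasDerivAt (fun τ : ℝ => τ * fderiv ℝ g x h) (fderiv ℝ g x h) τ := by
      simpa using (hasDerivAt_id τ).mul_const (fderiv ℝ g x h)
    exact h1.sub h2
  have hd : ∀ τ ∈ Icc (0 : ℝ) r, ‖fderiv ℝ g (x + τ • h) h - fderiv ℝ g x h‖ ≤ A * ‖h‖ * r := by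
    intro τ hτ
    have h1 := Convex.norm_image_sub_le_of_norm_fderiv_le (𝕜 := ℝ)
      (f := fun z => fderiv ℝ g z h) (s := closedBall x0 (ρ + ‖h‖)) (C := A) (x := x)
      (y := x + τ • h) (fun z _ => hg2 z) hb (convex_closedBall _ _)
      (closedBall_subset_closedBall (by linarith [norm_nonneg h]) hx) (hmem τ hτ)
    refine h1.trans ?_
    rw [add_sub_cancel_left, norm_smul, Real.norm_of_nonneg hτ.1]
    have := mul_nonneg hA (norm_nonneg h)
    calc A * (τ * ‖h‖) = A * ‖h‖ * τ := by ring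
      _ ≤ A * ‖h‖ * r := mul_le_mul_of_nonneg_left hτ.2 this
  have h3 := (convex_Icc (0 : ℝ) r).norm_image_sub_le_of_norm_hasDerivWithin_le
    (f := fun τ : ℝ => g (x + τ • h) - τ * fderiv ℝ g x h)
    (f' := fun τ => fderiv ℝ g (x + τ • h) h - fderiv ℝ g x h) (C := A * ‖h‖ * r)
    (fun τ _ => (hφ τ).hasDerivWithinAt) hd (left_mem_Icc.2 hr.1.le) (right_mem_Icc.2 hr.1.le)
  simp only [zero_smul, add_zero, zero_mul, sub_zero, Real.norm_eq_abs] at h3
  rw [abs_of_pos hr.1] at h3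
  calc |g (x + r • h) - g x - r * fderiv ℝ g x h| =
      |g (x + r • h) - r * fderiv ℝ g x h - g x| := by congr 1; ring
    _ ≤ A * ‖h‖ * r * r := h3
    _ = _ := by ring

theorem quad (hIEL : T_IEL) {f : ℝ → ℝ} {K : ℝ} {U : Set (E N)} {u : ℝ → E N → ℝ}
    (hsol : SolM f U u) (hPt : Pt K (pot f u)) (h : E N)
    (hlin : ∀ a b, 0 < a → a < b → LinD (pot f u) a b (dx u h)) {C c ρ : ℝ} (hC : 0 ≤ C)
    (hc : 0 ≤ c) (hρ : 0 < ρ) {tn : ℕ → ℝ} {xn : ℕ → E N} {un : ℕ → ℝ}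
    (htn : Tendsto tn atTop atTop)
    (hev : ∀ᶠ n in atTop, 0 < un n ∧ 1 < (1 - ρ) * tn n ∧
      (∀ s ∈ Icc ((1 - ρ) * tn n + 2) (tn n + 1), ∀ y,
        gr u s (xn n + y) ≤ C * Real.exp (c * ‖y‖) * un n)) (R : ℝ) :
    ∃ L ≥ 0, ∀ᶠ n in atTop, ∀ t ∈ Icc (-R) 0, ∀ x ∈ closedBall (0 : E N) R,
      ∀ r ∈ Ioc (0 : ℝ) 1, |u (tn n + t) (xn n + (x + r • h)) / un n -
        u (tn n + t) (xn n + x) / un n - r * (dx u h (tn n + t) (xn n + x) / un n)| ≤
        L * r ^ 2 := by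
  obtain ⟨CI, hCI, hI⟩ := hIEL N K hPt.K0
  set D2 := (2 : ℝ) ^ ((N : ℝ) / 2) * Real.exp (2 * 2 * (c + 1) ^ 2) with hD2
  have hD20 : 0 < D2 := by rw [hD2]; positivity
  set L0 := CI * (C * ‖h‖ * D2 * Real.exp (c * (R + ‖h‖))) with hL0
  have hL00 : 0 ≤ L0 := by rw [hL0]; positivity
  refine ⟨L0 * ‖h‖, by positivity, ?_⟩
  filter_upwards [hev, htn.eventually_ge_atTop ((3 + R) / ρ), htn.eventually_gt_atTop 0]
    with n hn hn2 hn3 t ht x hx r hr
  obtain ⟨hun, h1, hgr⟩ := hn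
  rw [div_le_iff₀ hρ] at hn2
  have hs0 : (1 - ρ) * tn n + 2 ≤ tn n + t - 1 := by
    have := ht.1
    nlinarith
  have hs1 : 1 ≤ tn n + t - 1 := by linarith
  have hst0 : 0 < tn n + t := by linarith
  -- bound of the second derivatives
  have hlin1 := hlin 1 (tn n + 1) one_pos (by linarith)
  have hb : ∀ z ∈ closedBall (xn n) (R + ‖h‖),
      ‖fderiv ℝ (fun z => fderiv ℝ (u (tn n + t)) z h) z‖ ≤ L0 * un n := by
    intro z hz
    have h2 := ((hI (pot f u) (dx u h) 1 (tn n + 1) hPt hlin1).1 (tn n + t - 1) (tn n + t)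
      hs1 (by linarith) (by linarith [ht.2]) (by linarith)).2 z
    rw [show tn n + t - (tn n + t - 1) = 1 by ring, Real.sqrt_one, div_one, mul_one] at h2
    have h3 := int_exp_le (N := N) (show (0 : ℝ) < 2 by norm_num)
      (g := fun y => |dx u h (tn n + t - 1) y|) (fun y => abs_nonneg _) (xn n) (c := c)
      (A := C * ‖h‖ * un n) (by
        intro y
        have h4 := hgr (tn n + t - 1) ⟨hs0, by linarith [ht.2]⟩ (y - xn n)
        rw [add_sub_cancel] at h4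
        have h5 := (fderiv ℝ (u (tn n + t - 1)) y).le_opNorm h
        rw [Real.norm_eq_abs] at h5
        calc |dx u h (tn n + t - 1) y| ≤ gr u (tn n + t - 1) y * ‖h‖ := h5
          _ ≤ C * Real.exp (c * ‖y - xn n‖) * un n * ‖h‖ := by gcongr
          _ = _ := by ring) hc (by positivity) z
    have h6 : Real.exp (c * ‖z - xn n‖) ≤ Real.exp (c * (R + ‖h‖)) := by
      rw [mem_closedBall, dist_eq_norm] at hz
      gcongr
    calc ‖fderiv ℝ (fun z => fderiv ℝ (u (tn n + t)) z h) z‖ ≤ _ := h2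
      _ ≤ CI * (C * ‖h‖ * un n * D2 * Real.exp (c * (R + ‖h‖))) := by
          gcongr
          exact h3.trans (by rw [hD2]; gcongr)
      _ = _ := by rw [hL0]; ring
  have hc2 := hsol.sol.c2 _ hst0
  have hx' : xn n + x ∈ closedBall (xn n) R := by
    rw [mem_closedBall, dist_eq_norm, add_sub_cancel_left]
    exact mem_closedBall_zero_iff.1 hx
  have hd1 : Differentiable ℝ (u (tn n + t)) := hc2.differentiable (by norm_num)
  have hd2 : Differentiable ℝ (fun z => fderiv ℝ (u (tn n + t)) z h) := by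
    have := (hc2.fderiv_right (m := 1) (by norm_num)).differentiable (by norm_num)
    exact fun z => (this z).clm_apply (differentiableAt_const h)
  have h7 := taylor hd1 hd2 (by positivity) hb hx' hr
  have e : u (tn n + t) (xn n + (x + r • h)) / un n - u (tn n + t) (xn n + x) / un n -
      r * (dx u h (tn n + t) (xn n + x) / un n) = (u (tn n + t) (xn n + x + r • h) -
        u (tn n + t) (xn n + x) - r * fderiv ℝ (u (tn n + t)) (xn n + x) h) / un n := by
    rw [add_assoc]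
    unfold dx
    ring
  rw [e, abs_div, abs_of_pos hun, div_le_iff₀ hun]
  calc _ ≤ _ := h7
    _ = _ := by ring

end Pool.Agent.H84.RF.VAC
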