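import Pool.Agent.H84.RF.VACf

/-!
# MP_609556_an, full answer: module VAC
-/

open MeasureTheory Set Filter Topology Metric
open Pool.Agent.H29.TF (hk P)
open Pool.Agent.H91.RD Pool.Agent.H91.RF

namespace Pool.Agent.H84.RF.VAC

open VLOW

variable {N : ℕ}

theorem tuo_sub {α : Type*} {F : ℕ → α → ℝ} {g : α → ℝ} {s : Set α} {σ : ℕ → ℕ}
    (h : TendstoUniformlyOn F g atTop s) (hσ : StrictMono σ) :
    TendstoUniformlyOn (fun n => F (σ n)) g atTop s :=
  fun V hV => hσ.tendsto_atTop.eventually (h V hV)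

theorem vac (hUPB : T_UPB) (hSEQ : T_SEQ) (hIEU : T_IEU) (hFPC : T_FPC) (hKREP : T_KREP)
    (hKER : T_KER) (hLCPT : T_LCPT) (hIEL : T_IEL) (hLINU : T_LINU) : T_VAC := by
  intro N f K C0 C9 η0 cc hi U u hst hmac hfp hfr hkin hvsl
  obtain ⟨C, hC, c, hc, ρ, hρ, hρ1, hexp⟩ := expb2 hUPB hIEU hFPC hKREP hKER hst hmac hfr hkin hvsl
  refine ⟨C, hC, ?_⟩
  intro tn xn e hat hu
  have htn := hat.1
  have hcc := hmac.cpos
  have hC0 : 0 ≤ C := by linarith
  obtain ⟨hPt, hpc, hlin, -⟩ := hLINU N f K U u hst.reac hst.lip hst.sol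
  have hfpc := hFPC f K hst.reac hst.lip
  set κ := cc ^ 2 / 4 with hκdef
  have hκ : fp f 0 = κ := by rw [hκdef]; linarith
  have hκ0 : 0 < κ := by positivity
  have hκK : |κ| ≤ K := hκ ▸ hfpc.1 0
  have hev := hexp tn xn e hat hu
  -- time windows
  have hwin : ∀ t : ℝ, ∀ᶠ n in atTop, (1 - ρ) * tn n + 2 ≤ tn n + t ∧ 0 < tn n := by
    intro t
    filter_upwards [htn.eventually_ge_atTop ((2 - t) / ρ), htn.eventually_gt_atTop 0] with n hn hn0
    rw [div_le_iff₀ hρ] at hn
    exact ⟨by nlinarith, hn0⟩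
  have hB : ∀ t < 1, ∀ᶠ n in atTop, 0 < u (tn n) (xn n) ∧ 0 < tn n + t ∧
      (∀ y, |u (tn n + t) (xn n + y)| ≤ C * Real.exp (c * ‖y‖) * u (tn n) (xn n)) ∧
      ∀ y, |dt u (tn n + t) (xn n + y)| ≤ C * Real.exp (c * ‖y‖) * u (tn n) (xn n) := by
    intro t ht
    filter_upwards [hev, hwin t] with n hn hn2
    obtain ⟨h1, h2, h3, h4⟩ := hn
    have hs0 : 0 < tn n + t := by linarith [hn2.1]
    refine ⟨h1, hs0, fun y => ?_, fun y => ?_⟩
    · rw [abs_of_nonneg (u01 hst.sol hs0 _).1]
      exact h3 _ ⟨by linarith [hn2.1], by linarith⟩ y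
    · have := h4 (tn n + t) ⟨hn2.1, by linarith⟩ y
      have h5 : 0 ≤ gr u (tn n + t) (xn n + y) := norm_nonneg _
      linarith
  have hz : ∀ t < 1, ∀ x, Tendsto (fun n => u (tn n + t) (xn n + x)) atTop (𝓝 0) := by
    intro t ht x
    have h1 : Tendsto (fun n => C * Real.exp (c * ‖x‖) * u (tn n) (xn n)) atTop
        (𝓝 (C * Real.exp (c * ‖x‖) * 0)) := hu.const_mul _
    rw [mul_zero] at h1
    refine squeeze_zero_norm' ?_ h1
    filter_upwards [hB t ht] with n hn using hn.2.2.1 x
  have hz01 : ∀ t < 1, ∀ x, ∀ᶠ n in atTop, u (tn n + t) (xn n + x) ∈ Icc (0 : ℝ) 1 := by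
    intro t ht x
    filter_upwards [hB t ht] with n hn using u01 hst.sol hn.2.1 _
  have hV0 : ∀ t < 1, ∀ x, Tendsto (fun n => Vq f u (tn n + t) (xn n + x)) atTop (𝓝 κ) := by
    intro t ht x
    have h1 := qf_tendsto hFPC hst.reac hst.lip (hz t ht x) (hz01 t ht x)
    rw [hκ] at h1
    refine h1.congr' ?_
    filter_upwards [hB t ht] with n hn
    unfold Vq
    rw [if_pos hn.2.1]
  have hV1 : ∀ t < 1, ∀ x, Tendsto (fun n => pot f u (tn n + t) (xn n + x)) atTop (𝓝 κ) := by
    intro t ht x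
    have h1 := (hfpc.2.1 0 ⟨le_rfl, zero_le_one⟩).tendsto.comp
      (tendsto_nhdsWithin_iff.2 ⟨hz t ht x, hz01 t ht x⟩)
    rw [hκ] at h1
    refine h1.congr' ?_
    filter_upwards [hB t ht] with n hn
    unfold pot
    rw [if_pos hn.2.1]
    rfl
  -- limit of `u`
  obtain ⟨σ0, v, hσ0, hvu, hvp, hvc, hvr, hvb⟩ := lim1 hLCPT hC0 hc
    (pt_Vq hst.sol hst.lip (hfpc.1 0)) hκK (fun b _ => linD_u hst.sol hst.reac.zero one_pos b)
    htn hV0 (fun t ht => (hB t ht).mono fun n hn => ⟨hn.1, hn.2.2.1⟩)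
  -- limit of `u_t`
  obtain ⟨σ1, vt, hσ1, htu, htp, htc, htr, htb⟩ := lim1 (tn := tn ∘ σ0) (xn := xn ∘ σ0)
    (un := fun n => u (tn (σ0 n)) (xn (σ0 n))) hLCPT hC0 hc hPt hκK
    (fun b hb => (hlin 1 b one_pos hb).2) (htn.comp hσ0.tendsto_atTop)
    (fun t ht x => (hV1 t ht x).comp hσ0.tendsto_atTop)
    (fun t ht => (hσ0.tendsto_atTop.eventually (hB t ht)).mono fun n hn => ⟨hn.1, hn.2.2.2⟩)
  set σ := σ0 ∘ σ1 with hσdef
  have hσ : StrictMono σ := hσ0.comp hσ1
  have hσt := hσ.tendsto_atTop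
  have Cu : ∀ R > 0, TendstoUniformlyOn (fun n (p : ℝ × E N) =>
      u (tn (σ n) + p.1) (xn (σ n) + p.2) / u (tn (σ n)) (xn (σ n)))
      (fun p => v p.1 p.2) atTop (Icc (-R) 0 ×ˢ closedBall 0 R) := fun R hR =>
    tuo_sub (hvu R hR) hσ1
  have Ct : ∀ R > 0, TendstoUniformlyOn (fun n (p : ℝ × E N) =>
      dt u (tn (σ n) + p.1) (xn (σ n) + p.2) / u (tn (σ n)) (xn (σ n)))
      (fun p => vt p.1 p.2) atTop (Icc (-R) 0 ×ˢ closedBall 0 R) := fun R hR => htu R hR
  have cu : ∀ t < 1, ∀ x, Tendsto (fun n => u (tn (σ n) + t) (xn (σ n) + x) /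
      u (tn (σ n)) (xn (σ n))) atTop (𝓝 (v t x)) := fun t ht x =>
    (hvp t ht x).comp hσ1.tendsto_atTop
  have ct : ∀ t < 1, ∀ x, Tendsto (fun n => dt u (tn (σ n) + t) (xn (σ n) + x) /
      u (tn (σ n)) (xn (σ n))) atTop (𝓝 (vt t x)) := fun t ht x => htp t ht x
  have hBσ : ∀ t < 1, ∀ᶠ n in atTop, 0 < u (tn (σ n)) (xn (σ n)) ∧ 0 < tn (σ n) + t ∧
      (∀ y, |u (tn (σ n) + t) (xn (σ n) + y)| ≤
        C * Real.exp (c * ‖y‖) * u (tn (σ n)) (xn (σ n))) ∧
      ∀ y, |dt u (tn (σ n) + t) (xn (σ n) + y)| ≤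
        C * Real.exp (c * ‖y‖) * u (tn (σ n)) (xn (σ n)) := fun t ht =>
    hσt.eventually (hB t ht)
  -- the box
  have hbox : ∀ ε > 0, ∀ t ≤ 0, ∀ x, ∀ᶠ n in atTop,
      gr u (tn (σ n) + t) (xn (σ n) + x) ≤ (cc / 2 + ε) * u (tn (σ n) + t) (xn (σ n) + x) ∧
      0 < -dx u e (tn (σ n) + t) (xn (σ n) + x) ∧
      (cc - ε) * -dx u e (tn (σ n) + t) (xn (σ n) + x) ≤ dt u (tn (σ n) + t) (xn (σ n) + x) ∧
      cc * gr u (tn (σ n) + t) (xn (σ n) + x) ^ 2 ≤ (dt u (tn (σ n) + t) (xn (σ n) + x) +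
        ε * -dx u e (tn (σ n) + t) (xn (σ n) + x)) *
        -dx u e (tn (σ n) + t) (xn (σ n) + x) := by
    intro ε hε t ht x
    refine hσt.eventually (p := fun n =>
      gr u (tn n + t) (xn n + x) ≤ (cc / 2 + ε) * u (tn n + t) (xn n + x) ∧
      0 < -dx u e (tn n + t) (xn n + x) ∧
      (cc - ε) * -dx u e (tn n + t) (xn n + x) ≤ dt u (tn n + t) (xn n + x) ∧
      cc * gr u (tn n + t) (xn n + x) ^ 2 ≤ (dt u (tn n + t) (xn n + x) +
        ε * -dx u e (tn n + t) (xn n + x)) * -dx u e (tn n + t) (xn n + x)) ?_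
    obtain ⟨lam, hlam, ρ', hρ', hρ1', T, hT, hb⟩ := box hUPB hst hmac hfr hkin hvsl ε hε
    filter_upwards [hat.2 ρ' hρ', htn.eventually_ge_atTop T,
      htn.eventually_ge_atTop ((-t) / ρ'), htn.eventually_ge_atTop (‖x‖ / ρ'),
      (hz t (by linarith) x).eventually (gt_mem_nhds hlam)] with n h1 h2 h3 h4 h5
    rw [div_le_iff₀ hρ'] at h3 h4
    have h6 := hb (tn n) h2 (xn n) e h1.1 h1.2 (tn n + t) ⟨by nlinarith, by linarith⟩ (xn n + x)
      (by rw [dist_eq_norm, add_sub_cancel_left]; linarith)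
    exact ⟨h6.1 h5.le, h6.2.1, h6.2.2.1, h6.2.2.2⟩
  -- elementary properties
  have hvnn : ∀ t < 1, ∀ x, 0 ≤ v t x := by
    intro t ht x
    refine ge_of_tendsto (cu t ht x) ?_
    filter_upwards [hBσ t ht] with n hn
    exact div_nonneg (u01 hst.sol hn.2.1 _).1 hn.1.le
  have hv00 : v 0 0 = 1 := by
    refine tendsto_nhds_unique (cu 0 one_pos 0) ?_
    refine tendsto_const_nhds.congr' ?_
    filter_upwards [hBσ 0 one_pos] with n hn
    rw [add_zero, add_zero, div_self hn.1.ne']
  have hvcs : ∀ t < 1, Continuous (v t) := by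
    intro t ht
    have := hvc.comp_continuous (f := fun x : E N => (t, x)) (by fun_prop)
      (fun x => ⟨ht, mem_univ _⟩)
    exact this
  have hvtcs : ∀ t < 1, Continuous (vt t) := by
    intro t ht
    have := htc.comp_continuous (f := fun x : E N => (t, x)) (by fun_prop)
      (fun x => ⟨ht, mem_univ _⟩)
    exact this
  have hvpos : ∀ t ≤ 0, ∀ x, 0 < v t x := by
    intro t ht x
    obtain ⟨i1, r1⟩ := hvr (t - 1) t (by linarith) (by linarith) x
    obtain ⟨i0, r0⟩ := hvr (t - 1) 0 (by linarith) one_pos 0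
    have hge := hvnn t (by linarith) x
    rcases hge.lt_or_eq with h | h
    · exact h
    exfalso
    rw [r1] at h
    have h1 : ∫ y, hk (t - (t - 1)) (x - y) * v (t - 1) y = 0 := by
      rcases mul_eq_zero.1 h.symm with h2 | h2
      · exact absurd h2 (Real.exp_pos _).ne'
      · exact h2
    have h2 := (integral_eq_zero_iff_of_nonneg (fun y => mul_nonneg
      (Pool.Agent.H29.TF.hk_nonneg (by linarith) _) (hvnn _ (by linarith) y)) i1).1 h1
    have h3 : (fun y => hk (0 - (t - 1)) (0 - y) * v (t - 1) y) =ᵐ[volume] 0 := by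
      filter_upwards [h2] with y hy
      have hkp : 0 < hk (t - (t - 1)) (x - y) :=
        Pool.Agent.H29.TF.hk_pos (by linarith) _
      rcases mul_eq_zero.1 hy with h4 | h4
      · exact absurd h4 hkp.ne'
      · show _ * v (t - 1) y = 0
        rw [h4, mul_zero]
    rw [hv00, integral_congr_ae h3] at r0
    simp at r0
  -- differentiability
  have hvC1 : ∀ t < 1, ContDiff ℝ 1 (v t) := by
    intro t ht
    have e1 : v t = fun x => Real.exp (κ * (t - (t - 1))) *
        ∫ y, hk (t - (t - 1)) (x - y) * v (t - 1) y := by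
      funext x
      exact (hvr (t - 1) t (by linarith) ht x).2
    rw [e1]
    exact contDiff_const.mul (gs_contDiff (by linarith) c hc
      (hvcs (t - 1) (by linarith)).aestronglyMeasurable (hvb (t - 1) (by linarith)) hC0)
  have Cd : ∀ h, ∀ R > 0, TendstoUniformlyOn (fun n (p : ℝ × E N) =>
      dx u h (tn (σ n) + p.1) (xn (σ n) + p.2) / u (tn (σ n)) (xn (σ n)))
      (fun p => dx v h p.1 p.2) atTop (Icc (-R) 0 ×ˢ closedBall 0 R) := by
    intro h
    refine lim2 (U := fun n t x => u (tn (σ n) + t) (xn (σ n) + x) / u (tn (σ n)) (xn (σ n)))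
      (D := fun n t x => dx u h (tn (σ n) + t) (xn (σ n) + x) / u (tn (σ n)) (xn (σ n)))
      (fun R hR => ?_) Cu (fun t ht => (hvC1 t (by linarith)).differentiable (by norm_num))
    exact quad hIEL hst.sol hPt h (fun a b ha hab => (hlin a b ha hab).1 h) hC0 hc hρ
      (tn := fun n => tn (σ n)) (xn := fun n => xn (σ n))
      (un := fun n => u (tn (σ n)) (xn (σ n))) (htn.comp hσt)
      ((hσt.eventually hev).mono fun n hn => ⟨hn.1, hn.2.1, fun s hs y => by
        have := hn.2.2.2 s hs y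
        have h5 := abs_nonneg (dt u s (xn (σ n) + y))
        linarith⟩) R
  have cd : ∀ h, ∀ t ≤ 0, ∀ x, Tendsto (fun n => dx u h (tn (σ n) + t) (xn (σ n) + x) /
      u (tn (σ n)) (xn (σ n))) atTop (𝓝 (dx v h t x)) := by
    intro h t ht x
    have hR : 0 < max (-t) ‖x‖ + 1 := by
      have := norm_nonneg x
      have := le_max_right (-t) ‖x‖
      linarith
    exact (Cd h _ hR).tendsto_at (x := (t, x)) ⟨⟨by
      have := le_max_left (-t) ‖x‖
      simp only
      linarith, ht⟩, by
        rw [mem_closedBall_zero_iff]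
        have := le_max_right (-t) ‖x‖
        simp only
        linarith⟩
  -- inequalities
  have q0 : ∀ t ≤ 0, ∀ x, 0 ≤ -dx v e t x := by
    intro t ht x
    refine ge_of_tendsto (cd e t ht x).neg ?_
    filter_upwards [hbox 1 one_pos t ht x, hBσ t (by linarith)] with n hn hn2
    rw [← neg_div]
    exact div_nonneg hn.2.1.le hn2.1.le
  have q1 : ∀ t ≤ 0, ∀ x, cc * -dx v e t x ≤ vt t x := by
    intro t ht x
    have := lim_eps (g := fun ε => (cc - ε) * -dx v e t x) (by fun_prop) (a := vt t x) (by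
      intro ε hε
      refine le_of_tendsto_of_tendsto ((cd e t ht x).neg.const_mul (cc - ε))
        (ct t (by linarith) x) ?_
      filter_upwards [hbox ε hε t ht x, hBσ t (by linarith)] with n hn hn2
      rw [← neg_div, ← mul_div_assoc]
      exact div_le_div_of_nonneg_right hn.2.2.1 hn2.1.le)
    simpa using this
  have q2 : ∀ t ≤ 0, ∀ x, cc * gr v t x ^ 2 ≤ vt t x * -dx v e t x := by
    intro t ht x
    have hq0 := q0 t ht x
    have hvt0 : 0 ≤ vt t x := le_trans (mul_nonneg hcc.le hq0) (q1 t ht x)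
    have hM : 0 ≤ vt t x * -dx v e t x := mul_nonneg hvt0 hq0
    have key : ∀ h : E N, cc * dx v h t x ^ 2 ≤ vt t x * -dx v e t x * ‖h‖ ^ 2 := by
      intro h
      have := lim_eps (g := fun ε => cc * dx v h t x ^ 2 -
          ε * (-dx v e t x * -dx v e t x * ‖h‖ ^ 2)) (by fun_prop)
          (a := vt t x * -dx v e t x * ‖h‖ ^ 2) (by
        intro ε hε
        have l1 := ((cd h t ht x).pow 2).const_mul cc
        have l2 := (((ct t (by linarith) x).add ((cd e t ht x).neg.const_mul ε)).mul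
          (cd e t ht x).neg).mul_const (‖h‖ ^ 2)
        have := le_of_tendsto_of_tendsto l1 l2 (by
          filter_upwards [hbox ε hε t ht x, hBσ t (by linarith)] with n hn hn2
          have h1 := hn.2.2.2
          have h3 : |dx u h (tn (σ n) + t) (xn (σ n) + x)| ≤
              gr u (tn (σ n) + t) (xn (σ n) + x) * ‖h‖ :=
            (fderiv ℝ (u (tn (σ n) + t)) (xn (σ n) + x)).le_opNorm h
          have h4 : dx u h (tn (σ n) + t) (xn (σ n) + x) ^ 2 ≤
              gr u (tn (σ n) + t) (xn (σ n) + x) ^ 2 * ‖h‖ ^ 2 := by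
            rw [← mul_pow, ← sq_abs (dx u h _ _)]
            exact pow_le_pow_left₀ (abs_nonneg _) h3 2
          have h5 : 0 ≤ ‖h‖ ^ 2 := sq_nonneg _
          have hun := hn2.1
          set a := dx u h (tn (σ n) + t) (xn (σ n) + x) with ha
          set b := dx u e (tn (σ n) + t) (xn (σ n) + x) with hb
          set d := dt u (tn (σ n) + t) (xn (σ n) + x) with hd
          set g := gr u (tn (σ n) + t) (xn (σ n) + x) with hg
          set w := u (tn (σ n)) (xn (σ n)) with hw
          have h6 : cc * a ^ 2 ≤ (d + ε * -b) * -b * ‖h‖ ^ 2 :=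
            calc cc * a ^ 2 ≤ cc * (g ^ 2 * ‖h‖ ^ 2) := by gcongr
              _ = cc * g ^ 2 * ‖h‖ ^ 2 := by ring
              _ ≤ _ := by gcongr
          show cc * (a / w) ^ 2 ≤ (d / w + ε * -(b / w)) * -(b / w) * ‖h‖ ^ 2
          have e1 : cc * (a / w) ^ 2 = cc * a ^ 2 / w ^ 2 := by ring
          have e2 : (d / w + ε * -(b / w)) * -(b / w) * ‖h‖ ^ 2 =
              (d + ε * -b) * -b * ‖h‖ ^ 2 / w ^ 2 := by ring
          rw [e1, e2]
          exact div_le_div_of_nonneg_right h6 (sq_nonneg _))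
        nlinarith)
      simpa using this
    have hle : gr v t x ≤ √(vt t x * -dx v e t x / cc) := by
      refine ContinuousLinearMap.opNorm_le_bound _ (Real.sqrt_nonneg _) fun h => ?_
      have h1 := key h
      have h2 : dx v h t x ^ 2 ≤ (√(vt t x * -dx v e t x / cc) * ‖h‖) ^ 2 := by
        rw [mul_pow, Real.sq_sqrt (by positivity), div_mul_eq_mul_div, le_div_iff₀ hcc]
        linarith
      exact abs_le_of_sq_le_sq h2 (by positivity)
    have h3 : gr v t x ^ 2 ≤ vt t x * -dx v e t x / cc := by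
      rw [← Real.sq_sqrt (show 0 ≤ vt t x * -dx v e t x / cc by positivity)]
      exact pow_le_pow_left₀ (norm_nonneg _) hle 2
    rw [le_div_iff₀ hcc] at h3
    linarith
  have slp : ∀ t ≤ 0, ∀ x, gr v t x ≤ cc / 2 * v t x := by
    intro t ht x
    have hv0 := hvpos t ht x
    refine ContinuousLinearMap.opNorm_le_bound _ (by positivity) fun h => ?_
    have := lim_eps (g := fun ε => |dx v h t x| - ε * (v t x * ‖h‖)) (by fun_prop)
      (a := cc / 2 * v t x * ‖h‖) (by
      intro ε hε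
      have := le_of_tendsto_of_tendsto (cd h t ht x).abs
        ((((cu t (by linarith) x)).const_mul (cc / 2 + ε)).mul_const ‖h‖) (by
        filter_upwards [hbox ε hε t ht x, hBσ t (by linarith)] with n hn hn2
        have h3 : |dx u h (tn (σ n) + t) (xn (σ n) + x)| ≤
            gr u (tn (σ n) + t) (xn (σ n) + x) * ‖h‖ :=
          (fderiv ℝ (u (tn (σ n) + t)) (xn (σ n) + x)).le_opNorm h
        have h6 : |dx u h (tn (σ n) + t) (xn (σ n) + x)| ≤
            (cc / 2 + ε) * u (tn (σ n) + t) (xn (σ n) + x) * ‖h‖ :=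
          h3.trans (mul_le_mul_of_nonneg_right hn.1 (norm_nonneg _))
        rw [abs_div, abs_of_pos hn2.1, ← mul_div_assoc, div_mul_eq_mul_div]
        exact div_le_div_of_nonneg_right h6 hn2.1.le)
      show |dx v h t x| - ε * (v t x * ‖h‖) ≤ cc / 2 * v t x * ‖h‖
      have e : (cc / 2 + ε) * v t x * ‖h‖ = cc / 2 * v t x * ‖h‖ + ε * (v t x * ‖h‖) := by ring
      linarith)
    have h2 : |dx v h t x| ≤ cc / 2 * v t x * ‖h‖ := by simpa using this
    exact h2
  -- the time derivative
  have hint : ∀ s t, s ≤ t → t ≤ 0 → ∀ x, v t x = v s x + ∫ r in s..t, vt r x := by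
    intro s t hst' ht x
    have l1 : Tendsto (fun n => u (tn (σ n) + t) (xn (σ n) + x) / u (tn (σ n)) (xn (σ n)) -
        u (tn (σ n) + s) (xn (σ n) + x) / u (tn (σ n)) (xn (σ n))) atTop
        (𝓝 (v t x - v s x)) := (cu t (by linarith) x).sub (cu s (by linarith) x)
    have l2 : Tendsto (fun n => ∫ r in s..t, dt u (tn (σ n) + r) (xn (σ n) + x) /
        u (tn (σ n)) (xn (σ n))) atTop (𝓝 (∫ r in s..t, vt r x)) := by
      refine intervalIntegral.tendsto_integral_filter_of_dominated_convergence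
        (fun _ => C * Real.exp (c * ‖x‖)) ?_ ?_ ?_ ?_
      · filter_upwards [hBσ s (by linarith)] with n hn
        refine ContinuousOn.aestronglyMeasurable ?_ measurableSet_uIoc
        refine ContinuousOn.div_const ?_ _
        have h1 := ((hlin ((tn (σ n) + s) / 2) (tn (σ n) + t + 1) (by linarith [hn.2.1])
          (by linarith [hn.2.1])).2).cont
        refine h1.comp (f := fun r : ℝ => (tn (σ n) + r, xn (σ n) + x)) (by fun_prop) ?_
        intro r hr
        rw [uIoc_of_le hst'] at hr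
        exact ⟨⟨by simp only; linarith [hr.1, hn.2.1], by simp only; linarith [hr.2]⟩, mem_univ _⟩
      · filter_upwards [hσt.eventually hev, hσt.eventually (hwin s), hBσ s (by linarith)]
          with n hn hn2 hn3
        refine Eventually.of_forall fun r hr => ?_
        rw [uIoc_of_le hst'] at hr
        have h1 := hn.2.2.2 (tn (σ n) + r) ⟨by linarith [hr.1, hn2.1], by linarith [hr.2]⟩ x
        rw [norm_div, Real.norm_eq_abs, Real.norm_eq_abs, abs_of_pos hn.1, div_le_iff₀ hn.1]
        have h5 : 0 ≤ gr u (tn (σ n) + r) (xn (σ n) + x) := norm_nonneg _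
        linarith
      · exact intervalIntegrable_const
      · refine Eventually.of_forall fun r hr => ?_
        rw [uIoc_of_le hst'] at hr
        exact ct r (by linarith [hr.2]) x
    have l3 : ∀ᶠ n in atTop, u (tn (σ n) + t) (xn (σ n) + x) / u (tn (σ n)) (xn (σ n)) -
        u (tn (σ n) + s) (xn (σ n) + x) / u (tn (σ n)) (xn (σ n)) =
        ∫ r in s..t, dt u (tn (σ n) + r) (xn (σ n) + x) / u (tn (σ n)) (xn (σ n)) := by
      filter_upwards [hBσ s (by linarith)] with n hn
      rw [intervalIntegral.integral_div, ← sub_div]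
      congr 1
      have hd : ∀ r ∈ uIcc s t, HasDerivAt (fun r => u (tn (σ n) + r) (xn (σ n) + x))
          (dt u (tn (σ n) + r) (xn (σ n) + x)) r := by
        intro r hr
        rw [uIcc_of_le hst'] at hr
        have h1 := (hst.sol.sol.dt (tn (σ n) + r) (by linarith [hr.1, hn.2.1])
          (xn (σ n) + x)).hasDerivAt
        exact h1.comp_const_add (tn (σ n)) r
      refine (intervalIntegral.integral_eq_sub_of_hasDerivAt hd ?_).symm
      refine ContinuousOn.intervalIntegrable ?_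
      have h1 := ((hlin ((tn (σ n) + s) / 2) (tn (σ n) + t + 1) (by linarith [hn.2.1])
        (by linarith [hn.2.1])).2).cont
      refine h1.comp (f := fun r : ℝ => (tn (σ n) + r, xn (σ n) + x)) (by fun_prop) ?_
      intro r hr
      rw [uIcc_of_le hst'] at hr
      exact ⟨⟨by simp only; linarith [hr.1, hn.2.1], by simp only; linarith [hr.2]⟩, mem_univ _⟩
    have := tendsto_nhds_unique (l1.congr' l3) l2
    linarith
  -- left derivative in time
  have hld : ∀ t ≤ 0, ∀ x, HasDerivWithinAt (fun r => v r x) (vt t x) (Iic t) t := by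
    intro t ht x
    have hcr : ContinuousOn (fun r => vt r x) (Iic t) := by
      refine htc.comp (f := fun r : ℝ => (r, x)) (by fun_prop) ?_
      intro r hr
      exact ⟨by have := mem_Iic.1 hr; simp only [mem_Iio]; linarith, mem_univ _⟩
    have hii : IntervalIntegrable (fun r => vt r x) volume (t - 1) t := by
      refine ContinuousOn.intervalIntegrable ?_
      rw [uIcc_of_le (by linarith)]
      exact hcr.mono (fun r hr => hr.2)
    have h1 : HasDerivWithinAt (fun u => ∫ r in (t - 1)..u, vt r x) (vt t x) (Iic t) t := by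
      refine intervalIntegral.integral_hasDerivWithinAt_right hii ?_ ?_
      · exact hcr.stronglyMeasurableAtFilter_nhdsWithin measurableSet_Iic t
      · exact hcr t self_mem_Iic
    have h2 : HasDerivWithinAt (fun u => v (t - 1) x + ∫ r in (t - 1)..u, vt r x) (vt t x)
        (Iic t) t := h1.const_add _
    refine h2.congr_of_eventuallyEq ?_ ?_
    · have h3 : ∀ᶠ r in 𝓝[Iic t] t, t - 1 < r :=
        mem_nhdsWithin_of_mem_nhds (Ioi_mem_nhds (by linarith))
      have : ∀ᶠ r in 𝓝[Iic t] t, t - 1 < r ∧ r ≤ t := h3.and self_mem_nhdsWithin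
      filter_upwards [this] with r hr
      exact hint (t - 1) r hr.1.le (hr.2.trans ht) x
    · exact hint (t - 1) t (by linarith) ht x
  have low : ∀ t ≤ 0, ∀ x, κ * v t x ≤ vt t x := by
    intro t ht x
    have hmono : ∀ t' ≤ t, v t' x ≤ Real.exp (-(κ * (t - t'))) * v t x := by
      intro t' ht'
      rcases ht'.eq_or_lt with h | h
      · rw [h]; simp
      · exact anc_mono (fun t ht x => hvnn t (by linarith) x)
          (fun s t hst' ht' x => hvr s t hst' (by linarith) x) h ht x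
    -- `φ r = exp(-κ(t-r)) v t x - v r x` is nonnegative for `r ≤ t` and vanishes at `t`
    have hφ : HasDerivWithinAt (fun r => Real.exp (-(κ * (t - r))) * v t x - v r x)
        (κ * v t x - vt t x) (Iic t) t := by
      have h1 : HasDerivAt (fun r : ℝ => Real.exp (-(κ * (t - r)))) κ t := by
        have h2 : HasDerivAt (fun r : ℝ => -(κ * (t - r))) κ t := by
          have := (((hasDerivAt_id t).const_sub t).const_mul κ).fun_neg
          simpa using this
        have := h2.exp
        simpa using this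
      exact (h1.mul_const (v t x)).hasDerivWithinAt.sub (hld t ht x)
    have h3 := hasDerivWithinAt_iff_tendsto_slope.1 hφ
    have h4 : ∀ᶠ r in 𝓝[Iic t \ {t}] t, slope (fun r => Real.exp (-(κ * (t - r))) * v t x - v r x)
        t r ≤ 0 := by
      filter_upwards [self_mem_nhdsWithin] with r hr
      have hr1 : r < t := lt_of_le_of_ne hr.1 hr.2
      rw [slope_def_field]
      have h5 := hmono r hr1.le
      simp only [sub_self, mul_zero, neg_zero, Real.exp_zero, one_mul, sub_zero]
      exact div_nonpos_of_nonneg_of_nonpos (by linarith) (by linarith)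
    have hne : (𝓝[Iic t \ {t}] t).NeBot := by
      have : Iic t \ {t} = Iio t := by
        ext r
        simp [lt_iff_le_and_ne]
      rw [this]
      infer_instance
    have := le_of_tendsto h3 h4
    linarith
  have hvtpos : ∀ t ≤ 0, ∀ x, 0 < vt t x := fun t ht x =>
    lt_of_lt_of_le (mul_pos hκ0 (hvpos t ht x)) (low t ht x)
  have up : ∀ t ≤ 0, ∀ x, vt t x ≤ C * v t x := by
    intro t ht x
    have hat' := (hSEQ N U cc hst.condC hst.ne hcc).1 tn xn e hat (fun _ => t) (fun _ => x)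
      (max |t| ‖x‖) (fun n => ⟨le_max_left _ _, le_max_right _ _⟩)
    have h1 := hexp _ _ e hat' (hz t (by linarith) x)
    refine le_of_tendsto_of_tendsto (ct t (by linarith) x)
      ((cu t (by linarith) x).const_mul C) ?_
    have h2 : ∀ᶠ n in atTop, (1 - ρ) * (tn n + t) + 2 ≤ tn n + t := by
      filter_upwards [htn.eventually_ge_atTop (2 / ρ - t)] with n hn
      have : 2 / ρ ≤ tn n + t := by linarith
      rw [div_le_iff₀ hρ] at this
      nlinarith
    filter_upwards [hσt.eventually h1, hσt.eventually h2, hBσ t (by linarith)] with n hn hn2 hn3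
    have h3 := hn.2.2.2 (tn (σ n) + t) ⟨hn2, by linarith⟩ 0
    simp only [add_zero, norm_zero, mul_zero, Real.exp_zero, mul_one] at h3
    have h4 : dt u (tn (σ n) + t) (xn (σ n) + x) ≤ C * u (tn (σ n) + t) (xn (σ n) + x) := by
      have h5 : 0 ≤ gr u (tn (σ n) + t) (xn (σ n) + x) := norm_nonneg _
      have h6 := le_abs_self (dt u (tn (σ n) + t) (xn (σ n) + x))
      linarith
    rw [← mul_div_assoc]
    exact div_le_div_of_nonneg_right h4 hn3.1.le
  refine ⟨σ, v, vt, hσ, ⟨⟨hvpos, fun s t hst' ht x => hvr s t hst' (by linarith) x⟩,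
    ⟨hvtpos, fun s t hst' ht x => htr s t hst' (by linarith) x⟩,
    fun t ht => hvC1 t (by linarith), htc.mono fun p hp => ⟨by
      have := mem_Iic.1 hp.1
      simp only [mem_Iio]; linarith, hp.2⟩, hint, low, up, slp⟩, hv00, Cu, Cd, Ct,
    fun t ht x => ⟨q0 t ht x, q2 t ht x, q1 t ht x⟩, ?_⟩
  intro s t hst' ht x
  have hs : s ≤ 0 := by linarith
  obtain ⟨i1, r1⟩ := gauss_fderiv (g := v s) (s := cc / 2) (by positivity) (hvC1 s (by linarith))
    (hvpos s hs) (slp s hs) (sub_pos.2 hst') x e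
  refine ⟨i1.neg.congr (Eventually.of_forall fun y => ?_), ?_⟩
  · show -(hk (t - s) (x - y) * fderiv ℝ (v s) y e) = hk (t - s) (x - y) * -dx v e s y
    unfold dx
    ring
  · have e1 : v t = fun x => Real.exp (κ * (t - s)) * ∫ y, hk (t - s) (x - y) * v s y := by
      funext x
      exact (hvr s t hst' (by linarith) x).2
    have hd : DifferentiableAt ℝ (fun x => ∫ y, hk (t - s) (x - y) * v s y) x :=
      (gs_hasFDerivAt (sub_pos.2 hst') c hc (hvcs s (by linarith)).aestronglyMeasurable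
        (hvb s (by linarith)) hC0 x).differentiableAt
    have e2 : dx v e t x = Real.exp (κ * (t - s)) *
        ∫ y, hk (t - s) (x - y) * fderiv ℝ (v s) y e := by
      unfold dx
      rw [e1, fderiv_const_mul hd]
      exact congrArg (fun r => Real.exp (κ * (t - s)) * r) r1
    rw [e2]
    have e3 : ∫ y, hk (t - s) (x - y) * -dx v e s y =
        -∫ y, hk (t - s) (x - y) * fderiv ℝ (v s) y e := by
      rw [← integral_neg]
      refine integral_congr_ae (Eventually.of_forall fun y => ?_)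
      show hk (t - s) (x - y) * -dx v e s y = -(hk (t - s) (x - y) * fderiv ℝ (v s) y e)
      unfold dx
      ring
    rw [e3]
    ring

end Pool.Agent.H84.RF.VAC
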