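import Pool.Agent.H84.RF.VLOW

/-!
# MP_609556_an, full answer: module VAC, general lemmas
-/

open MeasureTheory Set Filter Topology Metric
open Pool.Agent.H29.TF (hk P)
open Pool.Agent.H91.RD Pool.Agent.H91.RF

namespace Pool.Agent.H84.RF.VAC

open VLOW

variable {N : ℕ}

/-! ### Gaussian smoothing of functions with exponential growth -/

theorem hk_near_exp {τ : ℝ} (hτ : 0 < τ) (c : ℝ) (hc : 0 ≤ c) {A : ℝ} {g : E N → ℝ}
    (hg : ∀ y, |g y| ≤ A * Real.exp (c * ‖y‖)) (hA : 0 ≤ A) (x0 x y : E N) (hx : ‖x - x0‖ ≤ 1) :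
    hk τ (x - y) * (1 + ‖x - y‖) * |g y| ≤
      A * Real.exp (c * (‖x0‖ + 1)) * ((2 : ℝ) ^ ((N : ℝ) / 2) * Real.exp (2 * τ * (c + 1 + 1) ^ 2) *
        (2 ^ ((N : ℝ) / 2) * Real.exp (1 / (4 * (2 * τ))))) * hk (4 * τ) (x0 - y) := by
  have h1 := hk_absorb (N := N) 0 (c + 1) hτ (x - y)
  simp only [pow_zero, one_mul, Nat.factorial_zero, Nat.cast_one, mul_one] at h1
  have h2 := Pool.Agent.H29.TF.hk_near (V := E N) (show 0 < 2 * τ by positivity)
    (x := x - y) (y := x0 - y) (by rwa [sub_sub_sub_cancel_right])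
  rw [show Module.finrank ℝ (E N) = N by simp [E], show 2 * (2 * τ) = 4 * τ by ring] at h2
  have h3 : ‖y‖ ≤ (‖x0‖ + 1) + ‖x - y‖ := by
    have : ‖y‖ ≤ ‖x0‖ + ‖x - x0‖ + ‖x - y‖ := by
      calc ‖y‖ = ‖x0 + (x - x0) - (x - y)‖ := by congr 1; abel
        _ ≤ ‖x0 + (x - x0)‖ + ‖x - y‖ := norm_sub_le _ _
        _ ≤ _ := by gcongr; exact norm_add_le _ _
    linarith
  have h4 : |g y| ≤ A * (Real.exp (c * (‖x0‖ + 1)) * Real.exp (c * ‖x - y‖)) := by
    refine (hg y).trans ?_
    rw [← Real.exp_add]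
    gcongr
    calc c * ‖y‖ ≤ c * ((‖x0‖ + 1) + ‖x - y‖) := by gcongr
      _ = _ := by ring
  have h5 : 1 + ‖x - y‖ ≤ Real.exp ‖x - y‖ := by
    have := Real.add_one_le_exp ‖x - y‖; linarith
  have hk0 := Pool.Agent.H29.TF.hk_nonneg (V := E N) hτ.le (x - y)
  have hk4 := Pool.Agent.H29.TF.hk_nonneg (V := E N) (show 0 ≤ 4 * τ by positivity) (x0 - y)
  calc hk τ (x - y) * (1 + ‖x - y‖) * |g y| ≤ hk τ (x - y) * Real.exp ‖x - y‖ *
        (A * (Real.exp (c * (‖x0‖ + 1)) * Real.exp (c * ‖x - y‖))) := by gcongr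
    _ = A * Real.exp (c * (‖x0‖ + 1)) * (hk τ (x - y) * Real.exp ((c + 1) * ‖x - y‖)) := by
        rw [add_mul, one_mul, Real.exp_add]; ring
    _ ≤ A * Real.exp (c * (‖x0‖ + 1)) * ((2 : ℝ) ^ ((N : ℝ) / 2) *
          Real.exp (2 * τ * (c + 1 + 1) ^ 2) * hk (2 * τ) (x - y)) := by gcongr
    _ ≤ A * Real.exp (c * (‖x0‖ + 1)) * ((2 : ℝ) ^ ((N : ℝ) / 2) *
          Real.exp (2 * τ * (c + 1 + 1) ^ 2) * ((2 ^ ((N : ℝ) / 2) *
            Real.exp (1 / (4 * (2 * τ)))) * hk (4 * τ) (x0 - y))) := by gcongr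
    _ = _ := by ring

theorem int_hk_exp {τ : ℝ} (hτ : 0 < τ) (c : ℝ) (hc : 0 ≤ c) {A : ℝ} {g : E N → ℝ}
    (hgm : AEStronglyMeasurable g volume)
    (hg : ∀ y, |g y| ≤ A * Real.exp (c * ‖y‖)) (hA : 0 ≤ A) (x : E N) :
    Integrable (fun y => hk τ (x - y) * g y) := by
  refine Integrable.mono' (((Pool.Agent.H29.TF.integrable_hk_sub (V := E N)
    (show 0 < 4 * τ by positivity) x)).const_mul (A * Real.exp (c * (‖x‖ + 1)) *
      ((2 : ℝ) ^ ((N : ℝ) / 2) * Real.exp (2 * τ * (c + 1 + 1) ^ 2) *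
        (2 ^ ((N : ℝ) / 2) * Real.exp (1 / (4 * (2 * τ))))))) ?_ ?_
  · exact ((Pool.Agent.H29.TF.continuous_hk τ).comp (by fun_prop :
      Continuous fun y : E N => x - y)).aestronglyMeasurable.mul hgm
  · refine Eventually.of_forall fun y => ?_
    have h := hk_near_exp hτ c hc hg hA x x y (by simp)
    have hk0 := Pool.Agent.H29.TF.hk_nonneg (V := E N) hτ.le (x - y)
    refine le_trans ?_ h
    rw [norm_mul, Real.norm_of_nonneg hk0, Real.norm_eq_abs]
    have : hk τ (x - y) * |g y| ≤ hk τ (x - y) * |g y| * (1 + ‖x - y‖) :=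
      le_mul_of_one_le_right (by positivity) (by linarith [norm_nonneg (x - y)])
    calc _ ≤ _ := this
      _ = _ := by ring

theorem gs_hasFDerivAt {τ : ℝ} (hτ : 0 < τ) (c : ℝ) (hc : 0 ≤ c) {A : ℝ} {g : E N → ℝ}
    (hgm : AEStronglyMeasurable g volume)
    (hg : ∀ y, |g y| ≤ A * Real.exp (c * ‖y‖)) (hA : 0 ≤ A) (x0 : E N) :
    HasFDerivAt (fun x => ∫ y, hk τ (x - y) * g y)
      (∫ y, (-(1 / (2 * τ)) * hk τ (x0 - y) * g y) • innerSL ℝ (x0 - y)) x0 := by
  have hbd : ∀ x ∈ ball x0 1, ∀ y, ‖(-(1 / (2 * τ)) * hk τ (x - y) * g y) •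
      (innerSL ℝ (x - y) : E N →L[ℝ] ℝ)‖ ≤ 1 / (2 * τ) * (A * Real.exp (c * (‖x0‖ + 1)) *
      ((2 : ℝ) ^ ((N : ℝ) / 2) * Real.exp (2 * τ * (c + 1 + 1) ^ 2) *
        (2 ^ ((N : ℝ) / 2) * Real.exp (1 / (4 * (2 * τ))))) * hk (4 * τ) (x0 - y)) := by
    intro x hx y
    have h := hk_near_exp hτ c hc hg hA x0 x y (by
      have := mem_ball.1 hx; rw [dist_eq_norm] at this; exact this.le)
    have hk0 := Pool.Agent.H29.TF.hk_nonneg (V := E N) hτ.le (x - y)
    rw [norm_smul, innerSL_apply_norm, norm_mul, norm_mul, norm_neg,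
      Real.norm_of_nonneg (by positivity : (0:ℝ) ≤ 1 / (2 * τ)), Real.norm_of_nonneg hk0,
      Real.norm_eq_abs]
    calc 1 / (2 * τ) * hk τ (x - y) * |g y| * ‖x - y‖ =
        1 / (2 * τ) * (hk τ (x - y) * ‖x - y‖ * |g y|) := by ring
      _ ≤ 1 / (2 * τ) * (hk τ (x - y) * (1 + ‖x - y‖) * |g y|) := by
          gcongr
          linarith
      _ ≤ _ := by gcongr
  refine hasFDerivAt_integral_of_dominated_of_fderiv_le (F := fun x y => hk τ (x - y) * g y)
    (F' := fun x y => (-(1 / (2 * τ)) * hk τ (x - y) * g y) • innerSL ℝ (x - y))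
    (s := ball x0 1) (bound := fun y => 1 / (2 * τ) * (A * Real.exp (c * (‖x0‖ + 1)) *
      ((2 : ℝ) ^ ((N : ℝ) / 2) * Real.exp (2 * τ * (c + 1 + 1) ^ 2) *
        (2 ^ ((N : ℝ) / 2) * Real.exp (1 / (4 * (2 * τ))))) * hk (4 * τ) (x0 - y)))
    (ball_mem_nhds x0 one_pos) ?_ ?_ ?_ ?_ ?_ ?_
  · refine Eventually.of_forall fun x => ?_
    exact ((Pool.Agent.H29.TF.continuous_hk τ).comp (by fun_prop :
      Continuous fun y : E N => x - y)).aestronglyMeasurable.mul hgm
  · exact int_hk_exp hτ c hc hgm hg hA x0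
  · have m1 : AEStronglyMeasurable (fun y : E N => -(1 / (2 * τ)) * hk τ (x0 - y) * g y)
        volume := by
      refine AEStronglyMeasurable.mul ?_ hgm
      exact (continuous_const.mul ((Pool.Agent.H29.TF.continuous_hk τ).comp (by fun_prop :
        Continuous fun y : E N => x0 - y))).aestronglyMeasurable
    have m2 : AEStronglyMeasurable (fun y : E N => (innerSL ℝ (x0 - y) : E N →L[ℝ] ℝ))
        volume := ((innerSL ℝ).continuous.comp (by fun_prop :
        Continuous fun y : E N => x0 - y)).aestronglyMeasurable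
    exact m1.smul m2
  · exact Eventually.of_forall fun y x hx => hbd x hx y
  · exact (((Pool.Agent.H29.TF.integrable_hk_sub (V := E N)
      (show 0 < 4 * τ by positivity) x0)).const_mul _).const_mul _
  · refine Eventually.of_forall fun y x _ => ?_
    have h := Pool.Agent.H29.TF.hasFDerivAt_hk hτ (x - y)
    have h2 := HasFDerivAt.comp (g := fun x : E N => hk τ x) (f := fun x : E N => x - y) x h
      ((hasFDerivAt_id x).sub_const y)
    have h3 := h2.mul_const (g y)
    refine h3.congr_fderiv ?_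
    ext k
    simp
    ring

theorem gs_contDiff {τ : ℝ} (hτ : 0 < τ) (c : ℝ) (hc : 0 ≤ c) {A : ℝ} {g : E N → ℝ}
    (hgm : AEStronglyMeasurable g volume)
    (hg : ∀ y, |g y| ≤ A * Real.exp (c * ‖y‖)) (hA : 0 ≤ A) :
    ContDiff ℝ 1 (fun x => ∫ y, hk τ (x - y) * g y) := by
  rw [contDiff_one_iff_fderiv]
  have hd := fun x0 => gs_hasFDerivAt hτ c hc hgm hg hA x0
  refine ⟨fun x => (hd x).differentiableAt, ?_⟩
  have e : fderiv ℝ (fun x => ∫ y, hk τ (x - y) * g y) =
      fun x0 => ∫ y, (-(1 / (2 * τ)) * hk τ (x0 - y) * g y) •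
        (innerSL ℝ (x0 - y) : E N →L[ℝ] ℝ) := by
    funext x; exact (hd x).fderiv
  rw [e, continuous_iff_continuousAt]
  intro x0
  refine continuousAt_of_dominated (bound := fun y => 1 / (2 * τ) * (A *
    Real.exp (c * (‖x0‖ + 1)) *
      ((2 : ℝ) ^ ((N : ℝ) / 2) * Real.exp (2 * τ * (c + 1 + 1) ^ 2) *
        (2 ^ ((N : ℝ) / 2) * Real.exp (1 / (4 * (2 * τ))))) * hk (4 * τ) (x0 - y))) ?_ ?_ ?_ ?_
  · refine Eventually.of_forall fun x => ?_
    have m1 : AEStronglyMeasurable (fun y : E N => -(1 / (2 * τ)) * hk τ (x - y) * g y)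
        volume := by
      refine AEStronglyMeasurable.mul ?_ hgm
      exact (continuous_const.mul ((Pool.Agent.H29.TF.continuous_hk τ).comp (by fun_prop :
        Continuous fun y : E N => x - y))).aestronglyMeasurable
    have m2 : AEStronglyMeasurable (fun y : E N => (innerSL ℝ (x - y) : E N →L[ℝ] ℝ))
        volume := ((innerSL ℝ).continuous.comp (by fun_prop :
        Continuous fun y : E N => x - y)).aestronglyMeasurable
    exact m1.smul m2
  · filter_upwards [ball_mem_nhds x0 one_pos] with x hx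
    refine Eventually.of_forall fun y => ?_
    have h := hk_near_exp hτ c hc hg hA x0 x y (by
      have := mem_ball.1 hx; rw [dist_eq_norm] at this; exact this.le)
    have hk0 := Pool.Agent.H29.TF.hk_nonneg (V := E N) hτ.le (x - y)
    rw [norm_smul, innerSL_apply_norm, norm_mul, norm_mul, norm_neg,
      Real.norm_of_nonneg (by positivity : (0:ℝ) ≤ 1 / (2 * τ)), Real.norm_of_nonneg hk0,
      Real.norm_eq_abs]
    calc 1 / (2 * τ) * hk τ (x - y) * |g y| * ‖x - y‖ =
        1 / (2 * τ) * (hk τ (x - y) * ‖x - y‖ * |g y|) := by ring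
      _ ≤ 1 / (2 * τ) * (hk τ (x - y) * (1 + ‖x - y‖) * |g y|) := by
          gcongr
          linarith
      _ ≤ _ := by gcongr
  · exact (((Pool.Agent.H29.TF.integrable_hk_sub (V := E N)
      (show 0 < 4 * τ by positivity) x0)).const_mul _).const_mul _
  · refine Eventually.of_forall fun y => ?_
    have c1 : Continuous (fun x : E N => -(1 / (2 * τ)) * hk τ (x - y) * g y) :=
      (continuous_const.mul ((Pool.Agent.H29.TF.continuous_hk τ).comp (by fun_prop :
        Continuous fun x : E N => x - y))).mul continuous_const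
    have c2 : Continuous (fun x : E N => (innerSL ℝ (x - y) : E N →L[ℝ] ℝ)) :=
      (innerSL ℝ).continuous.comp (by fun_prop : Continuous fun x : E N => x - y)
    exact (c1.smul c2).continuousAt

/-! ### The kernel of a constant potential -/

theorem gkn_const (κ : ℝ) (n : ℕ) : ∀ s t, s < t → ∀ x y : E N,
    gkn (fun _ _ => κ) n t x s y = (κ * (t - s)) ^ n / n.factorial * hk (t - s) (x - y) := by
  induction n with
  | zero => intro s t hst x y; simp [gkn]
  | succ n ih =>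
    intro s t hst x y
    show (∫ r in s..t, ∫ z, hk (t - r) (x - z) * (κ * gkn (fun _ _ => κ) n r z s y)) = _
    have e : ∫ r in s..t, (∫ z, hk (t - r) (x - z) * (κ * gkn (fun _ _ => κ) n r z s y)) =
        ∫ r in s..t, κ * ((κ * (r - s)) ^ n / n.factorial) * hk (t - s) (x - y) := by
      rw [intervalIntegral.integral_of_le hst.le, intervalIntegral.integral_of_le hst.le,
        ← restrict_Ioo_eq_restrict_Ioc]
      refine setIntegral_congr_fun measurableSet_Ioo fun r hr => ?_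
      have e1 : ∀ z : E N, hk (t - r) (x - z) * (κ * gkn (fun _ _ => κ) n r z s y) =
          κ * ((κ * (r - s)) ^ n / n.factorial) * (hk (t - r) (x - z) * hk (r - s) (z - y)) := by
        intro z
        rw [ih s r hr.1 z y]
        ring
      show (∫ z, hk (t - r) (x - z) * (κ * gkn (fun _ _ => κ) n r z s y)) = _
      simp_rw [e1]
      rw [integral_const_mul, Pool.Agent.H29.TF.semigroup_hk (sub_pos.2 hr.2) (sub_pos.2 hr.1)]
      congr 2
      ring
    rw [e, intervalIntegral.integral_mul_const]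
    congr 1
    have e3 : ∀ r : ℝ, κ * ((κ * (r - s)) ^ n / (n.factorial : ℝ)) =
        (κ ^ (n + 1) / n.factorial) * (r - s) ^ n := by intro r; rw [mul_pow]; ring
    simp_rw [e3]
    rw [intervalIntegral.integral_const_mul, intervalIntegral.integral_comp_sub_right
      (fun r => r ^ n), integral_pow, Nat.factorial_succ, mul_pow]
    push_cast
    have : (n.factorial : ℝ) ≠ 0 := by positivity
    field_simp
    ring

theorem gk_const (κ : ℝ) {s t : ℝ} (hst : s < t) (x y : E N) :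
    gk (fun _ _ => κ) t x s y = Real.exp (κ * (t - s)) * hk (t - s) (x - y) := by
  unfold gk
  have e : ∀ n, gkn (fun _ _ => κ) n t x s y = (κ * (t - s)) ^ n / n.factorial *
      hk (t - s) (x - y) := fun n => gkn_const κ n s t hst x y
  simp_rw [e]
  rw [tsum_mul_right, Real.exp_eq_exp_ℝ, NormedSpace.exp_eq_tsum_div]

/-! ### Translation and scaling of Duhamel solutions -/

theorem P_shift (t : ℝ) (g : E N → ℝ) (ξ x : E N) :
    P t g (ξ + x) = P t (fun y => g (ξ + y)) x := by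
  unfold P
  rw [← integral_add_left_eq_self (fun y => hk t (ξ + x - y) * g y) ξ]
  simp

theorem linD_shift {V z : ℝ → E N → ℝ} {a b : ℝ} (h : LinD V a b z) (τ : ℝ) (ξ : E N) (c : ℝ) :
    LinD (fun t x => V (τ + t) (ξ + x)) (a - τ) (b - τ) (fun t x => c * z (τ + t) (ξ + x)) := by
  refine ⟨?_, ?_, ?_, ?_⟩
  · obtain ⟨M, hM⟩ := h.bdd
    refine ⟨|c| * M, fun t ht x => ?_⟩
    rw [abs_mul]
    refine mul_le_mul_of_nonneg_left (hM _ ⟨by linarith [ht.1], by linarith [ht.2]⟩ _) (abs_nonneg _)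
  · have := h.meas
    simp only [add_sub_cancel]
    exact (this.comp (measurable_const.add measurable_id)).const_mul c
  · refine ContinuousOn.mul continuousOn_const ?_
    refine h.cont.comp (f := fun p : ℝ × E N => (τ + p.1, ξ + p.2)) (by fun_prop) ?_
    rintro ⟨t, x⟩ ⟨ht, _⟩
    exact ⟨⟨by have := ht.1; simp only at this ⊢; linarith, by have := ht.2; simp only at this ⊢; linarith⟩,
      mem_univ _⟩
  · intro s t hs hst ht x
    have h1 := h.duh (τ + s) (τ + t) (by linarith) (by linarith) (by linarith) (ξ + x)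
    rw [show τ + t - (τ + s) = t - s by ring] at h1
    rw [h1, mul_add, P_shift]
    congr 1
    · exact (Pool.Agent.H29.TF.P_const_mul (t - s) c _ x).symm
    · rw [← intervalIntegral.integral_const_mul]
      rw [← intervalIntegral.integral_comp_add_left (fun r => c *
        P (τ + t - r) (fun y => V r y * z r y) (ξ + x)) τ]
      refine intervalIntegral.integral_congr fun r _ => ?_
      show c * P (τ + t - (τ + r)) (fun y => V (τ + r) y * z (τ + r) y) (ξ + x) =
        P (t - r) (fun y => V (τ + r) (ξ + y) * (c * z (τ + r) (ξ + y))) x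
      rw [show τ + t - (τ + r) = t - r by ring, P_shift, ← Pool.Agent.H29.TF.P_const_mul]
      congr 1
      funext y
      ring

theorem pt_shift {K : ℝ} {V : ℝ → E N → ℝ} (h : Pt K V) (τ : ℝ) (ξ : E N) :
    Pt K (fun t x => V (τ + t) (ξ + x)) := by
  refine ⟨h.K0, fun t x => h.bdd _ _, ?_⟩
  exact h.meas.comp (f := fun p : ℝ × E N => (τ + p.1, ξ + p.2)) (by fun_prop)

theorem pt_const {K κ : ℝ} (hK : 0 < K) (h : |κ| ≤ K) : Pt K (fun (_ : ℝ) (_ : E N) => κ) :=
  ⟨hK, fun _ _ => h, measurable_const⟩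

end Pool.Agent.H84.RF.VAC
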