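import Pool.Agent.H84.RF.VACa

/-!
# MP_609556_an, full answer: module VAC, bounds of the normalised solutions
-/

open MeasureTheory Set Filter Topology Metric
open Pool.Agent.H29.TF (hk P)
open Pool.Agent.H91.RD Pool.Agent.H91.RF

namespace Pool.Agent.H84.RF.VAC

open VLOW

variable {N : ℕ}

theorem u01 {f : ℝ → ℝ} {U : Set (E N)} {u : ℝ → E N → ℝ} (h : SolM f U u) {t : ℝ} (ht : 0 < t)
    (x : E N) : 0 ≤ u t x ∧ u t x ≤ 1 := by
  have := h.rng t ht.le x
  simpa [lift0, not_le.2 ht] using this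

/-- local growth -/
theorem growth_loc {g : E N → ℝ} {x0 y : E N} {lam c : ℝ} (hd : Differentiable ℝ g)
    (hpos : 0 < g x0) (hc : 0 ≤ c)
    (hs : ∀ z, dist z x0 ≤ dist y x0 → g z ≤ lam → ‖fderiv ℝ g z‖ ≤ c * g z)
    (hlam : g x0 * Real.exp ((c + 1) * dist y x0) ≤ lam) :
    g y ≤ g x0 * Real.exp ((c + 1) * dist y x0) := by
  rcases eq_or_ne y x0 with rfl | hne
  · simp
  set k := y - x0 with hk
  have hk0 : 0 < ‖k‖ := norm_pos_iff.2 (sub_ne_zero.2 hne)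
  have hdist : dist y x0 = ‖k‖ := dist_eq_norm _ _
  rw [hdist] at hs hlam ⊢
  have hder : ∀ τ : ℝ, HasDerivAt (fun τ : ℝ => g (x0 + τ • k)) (fderiv ℝ g (x0 + τ • k) k) τ := by
    intro τ
    have h1 : HasDerivAt (fun r : ℝ => x0 + r • k) k τ := by
      simpa using ((hasDerivAt_id τ).smul_const k).const_add x0
    exact (hd (x0 + τ • k)).hasFDerivAt.comp_hasDerivAt τ h1
  have hB : ∀ τ : ℝ, HasDerivAt (fun τ : ℝ => g x0 * Real.exp ((c + 1) * ‖k‖ * τ))
      (g x0 * (Real.exp ((c + 1) * ‖k‖ * τ) * ((c + 1) * ‖k‖))) τ := by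
    intro τ
    have h1 : HasDerivAt (fun τ : ℝ => (c + 1) * ‖k‖ * τ) ((c + 1) * ‖k‖) τ := by
      simpa using (hasDerivAt_id τ).const_mul ((c + 1) * ‖k‖)
    exact h1.exp.const_mul _
  have main := image_le_of_deriv_right_lt_deriv_boundary' (a := 0) (b := 1)
    (f := fun τ : ℝ => g (x0 + τ • k)) (f' := fun τ => fderiv ℝ g (x0 + τ • k) k)
    (B := fun τ : ℝ => g x0 * Real.exp ((c + 1) * ‖k‖ * τ))
    (B' := fun τ => g x0 * (Real.exp ((c + 1) * ‖k‖ * τ) * ((c + 1) * ‖k‖)))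
    (fun τ _ => (hder τ).continuousAt.continuousWithinAt)
    (fun τ _ => (hder τ).hasDerivWithinAt) (by simp)
    (fun τ _ => (hB τ).continuousAt.continuousWithinAt)
    (fun τ _ => (hB τ).hasDerivWithinAt)
    (fun τ hτ heq => by
      have hBle : g x0 * Real.exp ((c + 1) * ‖k‖ * τ) ≤ lam := by
        refine le_trans ?_ hlam
        have : (c + 1) * ‖k‖ * τ ≤ (c + 1) * ‖k‖ := by
          have := hτ.2.le
          have h0 : 0 ≤ (c + 1) * ‖k‖ := by positivity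
          nlinarith
        gcongr
      have hz := hs (x0 + τ • k) (by
        rw [dist_eq_norm, add_sub_cancel_left, norm_smul, Real.norm_of_nonneg hτ.1]
        have := hτ.2.le
        nlinarith) (by
        have : g (x0 + τ • k) = g x0 * Real.exp ((c + 1) * ‖k‖ * τ) := heq
        rw [this]; exact hBle)
      have heq' : g (x0 + τ • k) = g x0 * Real.exp ((c + 1) * ‖k‖ * τ) := heq
      have hBp : 0 < g x0 * Real.exp ((c + 1) * ‖k‖ * τ) := by positivity
      calc fderiv ℝ g (x0 + τ • k) k ≤ ‖fderiv ℝ g (x0 + τ • k)‖ * ‖k‖ :=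
            (le_abs_self _).trans ((fderiv ℝ g (x0 + τ • k)).le_opNorm k)
        _ ≤ c * g (x0 + τ • k) * ‖k‖ := by gcongr
        _ = c * (g x0 * Real.exp ((c + 1) * ‖k‖ * τ)) * ‖k‖ := by rw [heq']
        _ < (c + 1) * (g x0 * Real.exp ((c + 1) * ‖k‖ * τ)) * ‖k‖ := by
            gcongr
            linarith
        _ = _ := by ring)
  have := main (show (1 : ℝ) ∈ Icc (0 : ℝ) 1 by simp)
  simpa [hk] using this

/-- bounds in a box of size `ρ t` -/
theorem box {f : ℝ → ℝ} {K C0 C9 η0 cc hi : ℝ} {U : Set (E N)} {u : ℝ → E N → ℝ}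
    (hUPB : T_UPB) (hst : Stg f K U u) (hmac : Mac U u cc 0 hi) (hfr : Frm U u cc C0 C9 η0)
    (hkin : KIn U u cc) (hvsl : VSl U u cc) (ε : ℝ) (hε : 0 < ε) :
    ∃ lam > 0, ∃ ρ > 0, ρ < 1 ∧ ∃ T > 0, ∀ t ≥ T, ∀ x0 e, NDir U ρ x0 e →
      |infDist x0 U - cc * t| ≤ ρ * t → ∀ s ∈ Icc ((1 - ρ) * t) t, ∀ y, dist y x0 ≤ ρ * t →
      (u s y ≤ lam → gr u s y ≤ (cc / 2 + ε) * u s y) ∧
      0 < -dx u e s y ∧ (cc - ε) * -dx u e s y ≤ dt u s y ∧
      cc * gr u s y ^ 2 ≤ (dt u s y + ε * -dx u e s y) * -dx u e s y := by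
  obtain ⟨lam, hlam, η, hη, T, hT, hv⟩ := hvsl ε hε
  have A1 : AtR U cc (fun _ t x _ => u t x ≤ lam → gr u t x ≤ (cc / 2 + ε) * u t x) :=
    fun _ _ => ⟨η, hη, T, hT, fun t ht x e hn hd => hv t ht x e hn hd⟩
  obtain ⟨T2, hT2, hp⟩ := hfr.pos
  have A2 : AtR U cc (fun _ t x e => 0 < -dx u e t x ∧ gr u t x ≤ C0 * -dx u e t x) :=
    fun _ _ => ⟨η0, hfr.hη0, T2, hT2, fun t ht x e hn hd => hp t ht x e hn hd⟩
  obtain ⟨ρ1, hρ1, T1', hT1', h1⟩ := hUPB N U cc _ hst.condC hst.ne hmac.cpos A1 1 one_pos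
  obtain ⟨ρ2, hρ2, T2', hT2', h2⟩ := hUPB N U cc _ hst.condC hst.ne hmac.cpos A2 1 one_pos
  obtain ⟨ρ3, hρ3, T3', hT3', h3⟩ := hUPB N U cc _ hst.condC hst.ne hmac.cpos hkin ε hε
  set ρ := min (min ρ1 ρ2) (min ρ3 (1 / 2)) with hρ
  have hρ0 : 0 < ρ := by rw [hρ]; positivity
  have r1 : ρ ≤ ρ1 := (min_le_left _ _).trans (min_le_left _ _)
  have r2 : ρ ≤ ρ2 := (min_le_left _ _).trans (min_le_right _ _)
  have r3 : ρ ≤ ρ3 := (min_le_right _ _).trans (min_le_left _ _)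
  have r4 : ρ ≤ 1 / 2 := (min_le_right _ _).trans (min_le_right _ _)
  refine ⟨lam, hlam, ρ, hρ0, by linarith, max T1' (max T2' T3'), by positivity, ?_⟩
  intro t ht x0 e hn hd s hs y hy
  have t1 : T1' ≤ t := (le_max_left _ _).trans ht
  have t2 : T2' ≤ t := ((le_max_left _ _).trans (le_max_right _ _)).trans ht
  have t3 : T3' ≤ t := ((le_max_right _ _).trans (le_max_right _ _)).trans ht
  have t0 : 0 < t := lt_of_lt_of_le hT1' t1
  have hn' : ∀ ρ', ρ ≤ ρ' → NDir U ρ' x0 e := fun ρ' h => by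
    obtain ⟨he, ξ, e0, hD, hle⟩ := hn
    exact ⟨he, ξ, e0, hD, hle.trans h⟩
  have hd' : ∀ ρ', ρ ≤ ρ' → |infDist x0 U - cc * t| ≤ ρ' * t := fun ρ' h =>
    hd.trans (mul_le_mul_of_nonneg_right h t0.le)
  have hs' : ∀ ρ', ρ ≤ ρ' → s ∈ Icc ((1 - ρ') * t) t := fun ρ' h =>
    ⟨le_trans (by nlinarith) hs.1, hs.2⟩
  have hy' : ∀ ρ', ρ ≤ ρ' → dist y x0 ≤ ρ' * t := fun ρ' h =>
    hy.trans (mul_le_mul_of_nonneg_right h t0.le)
  have q1 := h1 t t1 x0 e (hn' _ r1) (hd' _ r1) s (hs' _ r1) y (hy' _ r1)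
  have q2 := h2 t t2 x0 e (hn' _ r2) (hd' _ r2) s (hs' _ r2) y (hy' _ r2)
  have q3 := h3 t t3 x0 e (hn' _ r3) (hd' _ r3) s (hs' _ r3) y (hy' _ r3)
  refine ⟨q1, q2.1, ?_, q3⟩
  -- `cc p² ≤ cc gr² ≤ (u_t + ε p) p`
  have he1 : ‖e‖ = 1 := hn.1
  have hpg : -dx u e s y ≤ gr u s y := by
    have := (fderiv ℝ (u s) y).le_opNorm e
    rw [he1, mul_one] at this
    unfold dx gr
    exact (neg_le_abs _).trans this
  have hp0 := q2.1
  have hcc := hmac.cpos
  have : cc * (-dx u e s y) ^ 2 ≤ cc * gr u s y ^ 2 := by gcongr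
  have h5 : (cc * -dx u e s y) * -dx u e s y ≤ (dt u s y + ε * -dx u e s y) * -dx u e s y := by
    nlinarith
  have h6 := le_of_mul_le_mul_right h5 hp0
  linarith

/-- exponential bounds for the solution around the points of the sequence -/
theorem expb {f : ℝ → ℝ} {K C0 C9 η0 cc hi : ℝ} {U : Set (E N)} {u : ℝ → E N → ℝ}
    (hUPB : T_UPB) (hst : Stg f K U u) (hmac : Mac U u cc 0 hi) (hfr : Frm U u cc C0 C9 η0)
    (hkin : KIn U u cc) (hvsl : VSl U u cc) :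
    ∃ C ≥ 1, ∃ c ≥ 0, ∃ ρ > 0, ρ < 1 ∧ ∀ (tn : ℕ → ℝ) (xn : ℕ → E N) (e : E N),
      AtSeq U cc tn xn e → Tendsto (fun n => u (tn n) (xn n)) atTop (𝓝 0) →
      ∀ᶠ n in atTop, 0 < u (tn n) (xn n) ∧
      1 < (1 - ρ) * tn n ∧ ∀ s ∈ Icc ((1 - ρ) * tn n) (tn n), ∀ y,
        u s (xn n + y) ≤ C * Real.exp (c * ‖y‖) * u (tn n) (xn n) := by
  have hcc := hmac.cpos
  obtain ⟨lam, hlam, ρ, hρ0, hρ1, T, hT, hb⟩ := box hUPB hst hmac hfr hkin hvsl (min 1 cc)
    (lt_min one_pos hcc)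
  have hm1 : min 1 cc ≤ 1 := min_le_left _ _
  have hm2 : min 1 cc ≤ cc := min_le_right _ _
  -- lower bound of `p` at the points
  obtain ⟨T9, hT9, hlow⟩ := hfr.low (ρ / 2) (by positivity)
  have hC9 := hfr.hC9
  set η := min (min ρ η0) (ρ / (2 * C9)) with hη
  have hη0 : 0 < η := by rw [hη]; have := hfr.hη0; positivity
  set c1 := cc / 2 + 1 with hc1
  refine ⟨max 1 (max c1 (1 / lam)), le_max_left _ _, c1 + 1, by positivity, ρ, hρ0, hρ1, ?_⟩
  intro tn xn e hat hu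
  obtain ⟨htn, hat⟩ := hat
  have ev1 : ∀ᶠ n in atTop, u (tn n) (xn n) ≤ lam := by
    filter_upwards [hu.eventually (gt_mem_nhds hlam)] with n hn using hn.le
  have ev2 : ∀ᶠ n in atTop, 2 / (1 - ρ) ≤ tn n ∧ T ≤ tn n ∧ T9 ≤ tn n :=
    (htn.eventually_ge_atTop _).and ((htn.eventually_ge_atTop _).and (htn.eventually_ge_atTop _))
  filter_upwards [ev1, ev2, hat η hη0] with n hn1 hn2 hn3
  obtain ⟨hn2, hn2', hn2''⟩ := hn2
  obtain ⟨hnd, hdist⟩ := hn3
  have ht0 : 0 < tn n := lt_of_lt_of_le hT hn2'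
  have h1ρ : 0 < 1 - ρ := by linarith
  have ht2 : 2 ≤ (1 - ρ) * tn n := by
    rw [div_le_iff₀ h1ρ] at hn2; linarith
  have hndρ : ∀ ρ', η ≤ ρ' → NDir U ρ' (xn n) e := fun ρ' h => by
    obtain ⟨he, ξ, e0, hD, hle⟩ := hnd
    exact ⟨he, ξ, e0, hD, hle.trans h⟩
  have hηρ : η ≤ ρ := (min_le_left _ _).trans (min_le_left _ _)
  have hηη : η ≤ η0 := (min_le_left _ _).trans (min_le_right _ _)
  have hη9 : η ≤ ρ / (2 * C9) := min_le_right _ _
  have hdρ : |infDist (xn n) U - cc * tn n| ≤ ρ * tn n :=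
    hdist.trans (mul_le_mul_of_nonneg_right hηρ ht0.le)
  have hdη : |infDist (xn n) U - cc * tn n| ≤ η0 * tn n :=
    hdist.trans (mul_le_mul_of_nonneg_right hηη ht0.le)
  have hB := hb (tn n) hn2' (xn n) e (hndρ ρ hηρ) hdρ
  have hself : tn n ∈ Icc ((1 - ρ) * tn n) (tn n) := ⟨by nlinarith, le_rfl⟩
  have hc0 := hB (tn n) hself (xn n) (by simp; positivity)
  have he1 : ‖e‖ = 1 := hnd.1
  have hpg : -dx u e (tn n) (xn n) ≤ gr u (tn n) (xn n) := by
    have := (fderiv ℝ (u (tn n)) (xn n)).le_opNorm e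
    rw [he1, mul_one] at this
    unfold dx gr
    exact (neg_le_abs _).trans this
  have hgu : gr u (tn n) (xn n) ≤ c1 * u (tn n) (xn n) := by
    refine (hc0.1 hn1).trans ?_
    have := (u01 hst.sol ht0 (xn n)).1
    gcongr
    rw [hc1]; linarith
  have hpu : -dx u e (tn n) (xn n) ≤ c1 * u (tn n) (xn n) := hpg.trans hgu
  have hc1p : 0 < c1 := by positivity
  have hup : 0 < u (tn n) (xn n) := by
    have : 0 < c1 * u (tn n) (xn n) := lt_of_lt_of_le hc0.2.1 hpu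
    exact (mul_pos_iff_of_pos_left hc1p).1 this
  have hle := hlow (tn n) hn2'' (xn n) e (hndρ η0 hηη) hdη
  have hinv : 1 ≤ c1 * Real.exp (ρ * tn n) * u (tn n) (xn n) := by
    have h1 : Real.exp (-(ρ * tn n)) ≤ c1 * u (tn n) (xn n) := by
      refine le_trans ?_ (hle.trans hpu)
      apply Real.exp_le_exp.2
      have : C9 * |infDist (xn n) U - cc * tn n| ≤ ρ / 2 * tn n := by
        calc C9 * |infDist (xn n) U - cc * tn n| ≤ C9 * (ρ / (2 * C9) * tn n) := by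
              gcongr
              exact hdist.trans (mul_le_mul_of_nonneg_right hη9 ht0.le)
          _ = _ := by field_simp
      linarith
    have h2 := mul_le_mul_of_nonneg_left h1 (Real.exp_pos (ρ * tn n)).le
    rw [← Real.exp_add, add_neg_cancel, Real.exp_zero] at h2
    linarith
  have hM1 : (1 : ℝ) ≤ max 1 (max c1 (1 / lam)) := le_max_left _ _
  have hM2 : c1 ≤ max 1 (max c1 (1 / lam)) := (le_max_left _ _).trans (le_max_right _ _)
  have hM3 : 1 / lam ≤ max 1 (max c1 (1 / lam)) := (le_max_right _ _).trans (le_max_right _ _)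
  set M := max 1 (max c1 (1 / lam)) with hM
  have hdiff : ∀ t > 0, Differentiable ℝ (u t) := fun t ht =>
    (hst.sol.sol.c2 t ht).differentiable (by norm_num)
  have hM0 : 0 ≤ M := by linarith
  -- far points
  have far : ∀ s > 0, ∀ y, ρ * tn n ≤ ‖y‖ →
      u s (xn n + y) ≤ M * Real.exp ((c1 + 1) * ‖y‖) * u (tn n) (xn n) := by
    intro s hs y hy
    have h4 : ρ * tn n ≤ (c1 + 1) * ‖y‖ := by
      have := norm_nonneg y
      nlinarith
    calc u s (xn n + y) ≤ 1 := (u01 hst.sol hs _).2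
      _ ≤ c1 * Real.exp (ρ * tn n) * u (tn n) (xn n) := hinv
      _ ≤ M * Real.exp ((c1 + 1) * ‖y‖) * u (tn n) (xn n) := by
          gcongr
  -- the time `tn n`
  have now : ∀ y, u (tn n) (xn n + y) ≤ M * Real.exp ((c1 + 1) * ‖y‖) * u (tn n) (xn n) := by
    intro y
    rcases le_or_gt (ρ * tn n) ‖y‖ with hy | hy
    · exact far _ ht0 y hy
    rcases le_or_gt (u (tn n) (xn n) * Real.exp ((c1 + 1) * ‖y‖)) lam with h | h
    · have hg := growth_loc (g := u (tn n)) (x0 := xn n) (y := xn n + y) (lam := lam) (c := c1)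
        (hdiff _ ht0) hup hc1p.le (by
          intro z hz hzl
          rw [show dist (xn n + y) (xn n) = ‖y‖ by simp [dist_eq_norm]] at hz
          refine ((hB (tn n) hself z (hz.trans hy.le)).1 hzl).trans ?_
          have := (u01 hst.sol ht0 z).1
          gcongr
          rw [hc1]; linarith) (by
          rw [show dist (xn n + y) (xn n) = ‖y‖ by simp [dist_eq_norm]]
          exact h)
      rw [show dist (xn n + y) (xn n) = ‖y‖ by simp [dist_eq_norm]] at hg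
      calc u (tn n) (xn n + y) ≤ u (tn n) (xn n) * Real.exp ((c1 + 1) * ‖y‖) := hg
        _ = 1 * Real.exp ((c1 + 1) * ‖y‖) * u (tn n) (xn n) := by ring
        _ ≤ _ := by gcongr
    · calc u (tn n) (xn n + y) ≤ 1 := (u01 hst.sol ht0 _).2
        _ = 1 / lam * lam := by field_simp
        _ ≤ 1 / lam * (u (tn n) (xn n) * Real.exp ((c1 + 1) * ‖y‖)) := by gcongr
        _ = 1 / lam * Real.exp ((c1 + 1) * ‖y‖) * u (tn n) (xn n) := by ring
        _ ≤ _ := by gcongr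
  refine ⟨hup, by linarith, ?_⟩
  intro s hs y
  have hs0 : 0 < s := by linarith [hs.1]
  rcases le_or_gt (ρ * tn n) ‖y‖ with hy | hy
  · exact far s hs0 y hy
  · refine le_trans ?_ (now y)
    -- monotone in time
    have hmono : MonotoneOn (fun r => u r (xn n + y)) (Icc s (tn n)) := by
      refine monotoneOn_of_deriv_nonneg (convex_Icc _ _) ?_ ?_ ?_
      · intro r hr
        exact (hst.sol.sol.dt r (by linarith [hr.1]) _).continuousAt.continuousWithinAt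
      · intro r hr
        rw [interior_Icc] at hr
        exact (hst.sol.sol.dt r (by linarith [hr.1]) _).differentiableWithinAt
      · intro r hr
        rw [interior_Icc] at hr
        have := hB r ⟨hs.1.trans hr.1.le, hr.2.le⟩ (xn n + y) (by
          rw [show dist (xn n + y) (xn n) = ‖y‖ by simp [dist_eq_norm]]; exact hy.le)
        have h1 := this.2.2.1
        have h2 := this.2.1
        have h3 : 0 ≤ cc - min 1 cc := by linarith
        have : 0 ≤ dt u r (xn n + y) := le_trans (mul_nonneg h3 h2.le) h1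
        exact this
    exact hmono (left_mem_Icc.2 hs.2) (right_mem_Icc.2 hs.2) hs.2

end Pool.Agent.H84.RF.VAC
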