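import Pool.Agent.H84.RF.VACb
import Pool.Agent.H91.RF.TargetsA

/-!
# MP_609556_an, full answer: module VAC, bounds of the derivatives, potentials
-/

open MeasureTheory Set Filter Topology Metric
open Pool.Agent.H29.TF (hk P)
open Pool.Agent.H91.RD Pool.Agent.H91.RF

namespace Pool.Agent.H84.RF.VAC

open VLOW

variable {N : ℕ}

theorem int_exp_le {τ : ℝ} (hτ : 0 < τ) {c A : ℝ} {g : E N → ℝ}
    (hg0 : ∀ y, 0 ≤ g y) (x0 : E N) (hg : ∀ y, g y ≤ A * Real.exp (c * ‖y - x0‖)) (hc : 0 ≤ c)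
    (hA : 0 ≤ A) (x : E N) :
    ∫ y, hk τ (x - y) * g y ≤ A * ((2 : ℝ) ^ ((N : ℝ) / 2) * Real.exp (2 * τ * (c + 1) ^ 2)) *
      Real.exp (c * ‖x - x0‖) := by
  have hk2 := Pool.Agent.H29.TF.integral_hk_sub (V := E N) (show 0 < 2 * τ by positivity) x
  have hi2 := Pool.Agent.H29.TF.integrable_hk_sub (V := E N) (show 0 < 2 * τ by positivity) x
  calc ∫ y, hk τ (x - y) * g y ≤ ∫ y, A * ((2 : ℝ) ^ ((N : ℝ) / 2) *
        Real.exp (2 * τ * (c + 1) ^ 2)) * Real.exp (c * ‖x - x0‖) * hk (2 * τ) (x - y) := by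
        refine integral_mono_of_nonneg (Eventually.of_forall fun y => mul_nonneg
          (Pool.Agent.H29.TF.hk_nonneg hτ.le _) (hg0 y)) (hi2.const_mul _)
          (Eventually.of_forall fun y => ?_)
        have h1 := hk_absorb (N := N) 0 c hτ (x - y)
        simp only [pow_zero, one_mul, Nat.factorial_zero, Nat.cast_one, mul_one] at h1
        have h2 : ‖y - x0‖ ≤ ‖x - x0‖ + ‖x - y‖ := by
          calc ‖y - x0‖ = ‖(x - x0) - (x - y)‖ := by congr 1; abel
            _ ≤ _ := norm_sub_le _ _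
        have hk0 := Pool.Agent.H29.TF.hk_nonneg (V := E N) hτ.le (x - y)
        show hk τ (x - y) * g y ≤ _
        calc hk τ (x - y) * g y ≤ hk τ (x - y) * (A * Real.exp (c * (‖x - x0‖ + ‖x - y‖))) := by
              gcongr
              refine (hg y).trans ?_
              gcongr
          _ = A * Real.exp (c * ‖x - x0‖) * (hk τ (x - y) * Real.exp (c * ‖x - y‖)) := by
              rw [mul_add, Real.exp_add]; ring
          _ ≤ A * Real.exp (c * ‖x - x0‖) * ((2 : ℝ) ^ ((N : ℝ) / 2) *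
                Real.exp (2 * τ * (c + 1) ^ 2) * hk (2 * τ) (x - y)) := by gcongr
          _ = _ := by ring
    _ = _ := by rw [integral_const_mul, hk2, mul_one]

/-- the quotient `f(s)/s` -/
noncomputable def qf (f : ℝ → ℝ) (s : ℝ) : ℝ := if s = 0 then fp f 0 else f s / s

/-- potential `f(u)/u` -/
noncomputable def Vq (f : ℝ → ℝ) (u : ℝ → E N → ℝ) (t : ℝ) (x : E N) : ℝ :=
  if 0 < t then qf f (u t x) else 0

theorem qf_mul {f : ℝ → ℝ} (h0 : f 0 = 0) (s : ℝ) : qf f s * s = f s := by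
  unfold qf
  split_ifs with h
  · rw [h, mul_zero, h0]
  · field_simp

theorem qf_bdd {f : ℝ → ℝ} {K : ℝ} (hl : Lip f K) (h : |fp f 0| ≤ K) (s : ℝ) : |qf f s| ≤ K := by
  unfold qf
  split_ifs with hs
  · exact h
  · rw [abs_div, div_le_iff₀ (abs_pos.2 hs)]
    have := hl.lip s 0
    rw [hl.f0, sub_zero, sub_zero] at this
    exact this

theorem qf_tendsto {f : ℝ → ℝ} {K : ℝ} (hFPC : T_FPC) (hr : Reaction f) (hl : Lip f K)
    {ι : Type*} {l : Filter ι} {s : ι → ℝ} (hs : Tendsto s l (𝓝 0))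
    (hs0 : ∀ᶠ i in l, s i ∈ Icc (0 : ℝ) 1) : Tendsto (fun i => qf f (s i)) l (𝓝 (fp f 0)) := by
  have h := (hFPC f K hr hl).2.2.2 0 ⟨le_rfl, zero_le_one⟩
  rw [hasDerivWithinAt_iff_tendsto_slope] at h
  rw [Metric.tendsto_nhds] at h ⊢
  intro ε hε
  have h1 := h ε hε
  have h2 := eventually_nhdsWithin_iff.1 h1
  filter_upwards [hs.eventually h2, hs0] with i hi hi0
  by_cases hz : s i = 0
  · unfold qf; rw [if_pos hz]; simpa using hε
  · have := hi ⟨hi0, by simpa using hz⟩
    unfold qf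
    rw [if_neg hz]
    rw [slope_def_field, hl.f0, sub_zero, sub_zero] at this
    exact this

theorem meas_u {f : ℝ → ℝ} {U : Set (E N)} {u : ℝ → E N → ℝ} (h : SolM f U u) :
    Measurable (fun p : ℝ × E N => if 0 < p.1 then u p.1 p.2 else 0) := by
  have h1 := ContinuousOn.measurable_piecewise (s := Ioi (0 : ℝ) ×ˢ (univ : Set (E N)))
    (f := fun p : ℝ × E N => u p.1 p.2) (g := fun _ => 0)
    h.sol.cont continuousOn_const (measurableSet_Ioi.prod MeasurableSet.univ)
  convert h1 using 1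
  funext p
  by_cases hp : 0 < p.1
  · rw [if_pos hp, Set.piecewise_eq_of_mem _ _ _ (show p ∈ Ioi (0 : ℝ) ×ˢ univ from ⟨hp, trivial⟩)]
  · rw [if_neg hp, Set.piecewise_eq_of_notMem _ _ _ (fun h => hp h.1)]

theorem qf_meas {f : ℝ → ℝ} {K : ℝ} (hl : Lip f K) : Measurable (qf f) := by
  have hf : Measurable f := by
    have : LipschitzWith (Real.toNNReal K) f := by
      refine LipschitzWith.of_dist_le_mul fun a b => ?_
      rw [Real.dist_eq, Real.dist_eq, Real.coe_toNNReal _ hl.K0.le]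
      exact hl.lip a b
    exact this.continuous.measurable
  unfold qf
  exact Measurable.ite (measurableSet_singleton 0) measurable_const (hf.div measurable_id)

theorem pt_Vq {f : ℝ → ℝ} {K : ℝ} {U : Set (E N)} {u : ℝ → E N → ℝ} (h : SolM f U u)
    (hl : Lip f K) (hfp : |fp f 0| ≤ K) : Pt K (Vq f u) := by
  refine ⟨hl.K0, fun t x => ?_, ?_⟩
  · unfold Vq
    split_ifs
    · exact qf_bdd hl hfp _
    · simpa using hl.K0.le
  · have h1 : (fun p : ℝ × E N => Vq f u p.1 p.2) = fun p : ℝ × E N => if 0 < p.1 then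
        qf f (if 0 < p.1 then u p.1 p.2 else 0) else 0 := by
      funext p
      unfold Vq
      split_ifs <;> rfl
    rw [h1]
    exact Measurable.ite (measurableSet_lt measurable_const measurable_fst)
      ((qf_meas hl).comp (meas_u h)) measurable_const

theorem linD_u {f : ℝ → ℝ} {U : Set (E N)} {u : ℝ → E N → ℝ} (h : SolM f U u) (h0 : f 0 = 0)
    {a : ℝ} (ha : 0 < a) (b : ℝ) : LinD (Vq f u) a b u := by
  refine ⟨⟨1, fun t ht x => ?_⟩, ?_, ?_, ?_⟩
  · have := u01 h (ha.trans_le ht.1) x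
    rw [abs_of_nonneg this.1]
    exact this.2
  · exact (h.sol.c2 a ha).continuous.measurable
  · exact h.sol.cont.mono fun p hp => ⟨ha.trans hp.1.1, mem_univ _⟩
  · intro s t hs hst _ x
    have h1 := h.mild.duh s t (by linarith) hst x
    have hs0 : 0 < s := ha.trans_le hs
    have e1 : ∀ r, 0 < r → lift0 U u r = u r := fun r hr => by simp [lift0, not_le.2 hr]
    rw [e1 t (hs0.trans hst), e1 s hs0] at h1
    rw [h1]
    congr 1
    refine intervalIntegral.integral_congr fun r hr => ?_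
    rw [uIcc_of_le hst.le] at hr
    have hr0 : 0 < r := hs0.trans_le hr.1
    show P (t - r) (fun y => f (lift0 U u r y)) x = P (t - r) (fun y => Vq f u r y * u r y) x
    congr 1
    funext y
    rw [e1 r hr0]
    unfold Vq
    rw [if_pos hr0, qf_mul h0]

/-- exponential bounds of the solution and its derivatives, up to one unit of time later -/
theorem expb2 {f : ℝ → ℝ} {K C0 C9 η0 cc hi : ℝ} {U : Set (E N)} {u : ℝ → E N → ℝ}
    (hUPB : T_UPB) (hIEU : T_IEU) (hFPC : T_FPC) (hKREP : T_KREP) (hKER : T_KER)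
    (hst : Stg f K U u) (hmac : Mac U u cc 0 hi) (hfr : Frm U u cc C0 C9 η0)
    (hkin : KIn U u cc) (hvsl : VSl U u cc) :
    ∃ C ≥ 1, ∃ c ≥ 0, ∃ ρ > 0, ρ < 1 ∧ ∀ (tn : ℕ → ℝ) (xn : ℕ → E N) (e : E N),
      AtSeq U cc tn xn e → Tendsto (fun n => u (tn n) (xn n)) atTop (𝓝 0) →
      ∀ᶠ n in atTop, 0 < u (tn n) (xn n) ∧
      1 < (1 - ρ) * tn n ∧ (∀ s ∈ Icc ((1 - ρ) * tn n) (tn n + 1), ∀ y,
        u s (xn n + y) ≤ C * Real.exp (c * ‖y‖) * u (tn n) (xn n)) ∧
      (∀ s ∈ Icc ((1 - ρ) * tn n + 2) (tn n + 1), ∀ y,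
        gr u s (xn n + y) + |dt u s (xn n + y)| ≤ C * Real.exp (c * ‖y‖) * u (tn n) (xn n)) := by
  obtain ⟨C, hC, c, hc, ρ, hρ, hρ1', hev⟩ := expb hUPB hst hmac hfr hkin hvsl
  have hfpc := hFPC f K hst.reac hst.lip
  have hPt := pt_Vq hst.sol hst.lip (hfpc.1 0)
  obtain ⟨CI, hCI, hI⟩ := hIEU N f K hst.reac hst.lip
  set D1 := (2 : ℝ) ^ ((N : ℝ) / 2) * Real.exp (2 * 1 * (c + 1) ^ 2) with hD1
  set D8 := (2 : ℝ) ^ ((N : ℝ) / 2) * Real.exp (2 * 8 * (c + 1) ^ 2) with hD8
  have h2N : (1 : ℝ) ≤ (2 : ℝ) ^ ((N : ℝ) / 2) := Real.one_le_rpow (by norm_num) (by positivity)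
  have hD1' : 1 ≤ D1 := by
    have : 1 ≤ Real.exp (2 * 1 * (c + 1) ^ 2) := Real.one_le_exp (by positivity)
    rw [hD1]; nlinarith
  have hD8' : 1 ≤ D8 := by
    have : 1 ≤ Real.exp (2 * 8 * (c + 1) ^ 2) := Real.one_le_exp (by positivity)
    rw [hD8]; nlinarith
  have hK := hst.lip.K0
  have hEK : 1 ≤ Real.exp K := Real.one_le_exp hK.le
  refine ⟨CI * (C * Real.exp K * D1 * D8), ?_, c, hc, ρ, hρ, hρ1', ?_⟩
  · have h1 : 1 ≤ C * Real.exp K := one_le_mul_of_one_le_of_one_le hC hEK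
    have h2 : 1 ≤ C * Real.exp K * D1 := one_le_mul_of_one_le_of_one_le h1 hD1'
    have h3 : 1 ≤ C * Real.exp K * D1 * D8 := one_le_mul_of_one_le_of_one_le h2 hD8'
    exact one_le_mul_of_one_le_of_one_le hCI h3
  have hC0 : 0 < C := by linarith
  have big1 : C ≤ C * Real.exp K * D1 := by
    have : 1 ≤ Real.exp K * D1 := one_le_mul_of_one_le_of_one_le hEK hD1'
    nlinarith
  have big2 : C * Real.exp K * D1 ≤ CI * (C * Real.exp K * D1 * D8) := by
    have h1 : 0 < C * Real.exp K * D1 := by positivity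
    have : 1 ≤ CI * D8 := one_le_mul_of_one_le_of_one_le hCI hD8'
    nlinarith
  intro tn xn e hat hu
  filter_upwards [hev tn xn e hat hu] with n hn
  obtain ⟨hup, ht1, hb⟩ := hn
  have hρ1 : 0 < 1 - ρ := by linarith
  have ht0 : 0 < tn n := by
    by_contra hcon
    nlinarith
  have hρt : 0 < ρ * tn n := mul_pos hρ ht0
  have hb1 : ∀ s ∈ Icc ((1 - ρ) * tn n) (tn n + 1), ∀ y,
      u s (xn n + y) ≤ C * Real.exp K * D1 * Real.exp (c * ‖y‖) * u (tn n) (xn n) := by
    intro s hs y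
    rcases le_or_gt s (tn n) with h | h
    · refine (hb s ⟨hs.1, h⟩ y).trans ?_
      gcongr
    · have hrep := hKREP N K (tn n) (tn n + 1) (Vq f u) u hPt
        (linD_u hst.sol hst.reac.zero ht0 (tn n + 1)) (tn n) s le_rfl h hs.2 (xn n + y)
      have hle : u s (xn n + y) ≤ Real.exp (K * (s - tn n)) *
          ∫ z, hk (s - tn n) (xn n + y - z) * u (tn n) z := by
        rw [hrep, ← integral_const_mul]
        have hb0 := hb (tn n) ⟨by nlinarith, le_rfl⟩
        refine integral_mono_of_nonneg (Eventually.of_forall fun z => ?_) ?_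
          (Eventually.of_forall fun z => ?_)
        · refine mul_nonneg (le_trans ?_ ((hKER N K _ hPt).2.1 (tn n) s h (xn n + y) z).1)
            (u01 hst.sol ht0 z).1
          exact mul_nonneg (Real.exp_pos _).le (Pool.Agent.H29.TF.hk_nonneg (by linarith) _)
        · refine Integrable.const_mul ?_ _
          exact Pool.Agent.H29.TF.integrable_hk_mul (by linarith)
            (hst.sol.sol.c2 _ ht0).continuous.aestronglyMeasurable
            (C := 1) (fun z => by
              have := u01 hst.sol ht0 z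
              rw [abs_of_nonneg this.1]; exact this.2) _
        · show gk (Vq f u) s (xn n + y) (tn n) z * u (tn n) z ≤
            Real.exp (K * (s - tn n)) * (hk (s - tn n) (xn n + y - z) * u (tn n) z)
          rw [← mul_assoc]
          exact mul_le_mul_of_nonneg_right ((hKER N K _ hPt).2.1 (tn n) s h (xn n + y) z).2
            (u01 hst.sol ht0 z).1
      have hint := int_exp_le (show 0 < s - tn n by linarith) (g := u (tn n))
        (fun z => (u01 hst.sol ht0 z).1) (xn n) (c := c) (A := C * u (tn n) (xn n)) (by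
          intro z
          have := hb (tn n) ⟨by nlinarith, le_rfl⟩ (z - xn n)
          rw [add_sub_cancel] at this
          linarith) hc (by positivity) (xn n + y)
      rw [add_sub_cancel_left] at hint
      have hs1 : s - tn n ≤ 1 := by linarith [hs.2]
      have hE1 : Real.exp (K * (s - tn n)) ≤ Real.exp K := Real.exp_le_exp.2 (by nlinarith)
      have hE2 : (2 : ℝ) ^ ((N : ℝ) / 2) * Real.exp (2 * (s - tn n) * (c + 1) ^ 2) ≤ D1 := by
        rw [hD1]
        gcongr
      calc u s (xn n + y) ≤ _ := hle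
        _ ≤ Real.exp K * (C * u (tn n) (xn n) * D1 * Real.exp (c * ‖y‖)) := by
            refine mul_le_mul hE1 (hint.trans ?_) ?_ (Real.exp_pos _).le
            · gcongr
            · exact integral_nonneg fun z => mul_nonneg
                (Pool.Agent.H29.TF.hk_nonneg (by linarith) _) (u01 hst.sol ht0 z).1
        _ = _ := by ring
  refine ⟨hup, ht1, fun s hs y => ?_, fun s hs y => ?_⟩
  · refine (hb1 s hs y).trans ?_
    gcongr
  · have h0 : (0 : ℝ) ∈ Icc (0 : ℝ) 1 := ⟨le_rfl, zero_le_one⟩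
    have := hI U u hst.sol 0 h0 hst.reac.zero s (by linarith [hs.1]) (xn n + y)
    refine this.trans ?_
    have hs2 : s - 2 ∈ Icc ((1 - ρ) * tn n) (tn n + 1) := ⟨by linarith [hs.1], by linarith [hs.2]⟩
    have hs20 : 0 < s - 2 := by linarith [hs.1]
    have hint := int_exp_le (show (0 : ℝ) < 8 by norm_num) (g := fun z => |u (s - 2) z - 0|)
      (fun z => abs_nonneg _) (xn n) (c := c) (A := C * Real.exp K * D1 * u (tn n) (xn n)) (by
        intro z
        have := hb1 (s - 2) hs2 (z - xn n)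
        rw [add_sub_cancel] at this
        rw [sub_zero, abs_of_nonneg (u01 hst.sol hs20 z).1]
        linarith) hc (by positivity) (xn n + y)
    rw [add_sub_cancel_left] at hint
    calc CI * ∫ z, hk 8 (xn n + y - z) * |u (s - 2) z - 0| ≤
        CI * (C * Real.exp K * D1 * u (tn n) (xn n) * D8 * Real.exp (c * ‖y‖)) := by gcongr
      _ = _ := by ring

end Pool.Agent.H84.RF.VAC
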