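import Pool.Agent.H84.RF.VACc

/-!
# MP_609556_an, full answer: module VAC, convergence lemmas
-/

open MeasureTheory Set Filter Topology Metric
open Pool.Agent.H29.TF (hk P)
open Pool.Agent.H91.RD Pool.Agent.H91.RF

namespace Pool.Agent.H84.RF.VAC

open VLOW

variable {N : ℕ}

/-- the weights of LCPT -/
theorem hkS_bound {S c A : ℝ} (hS : 0 < S) (hc : 0 ≤ c) (hA : 0 ≤ A) {g : E N → ℝ}
    (hg : ∀ y, |g y| ≤ A * Real.exp (c * ‖y‖)) :
    ∫ y, hk S y * |g y| ≤ A * ((2 : ℝ) ^ ((N : ℝ) / 2) * Real.exp (2 * S * (c + 1) ^ 2)) := by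
  have h := int_exp_le hS (g := fun y => |g y|) (fun y => abs_nonneg _) (0 : E N) (c := c) (A := A)
    (by simpa using hg) hc hA (0 : E N)
  simp only [zero_sub, Pool.Agent.H29.TF.hk_neg, sub_zero, norm_zero, mul_zero, Real.exp_zero,
    mul_one] at h
  exact h

/-- ancient solutions are increasing in time -/
theorem anc_mono {κ : ℝ} {v : ℝ → E N → ℝ} (hnn : ∀ t ≤ 0, ∀ x, 0 ≤ v t x)
    (hrep : ∀ s t, s < t → t ≤ 0 → ∀ x, Integrable (fun y => hk (t - s) (x - y) * v s y) ∧
      v t x = Real.exp (κ * (t - s)) * ∫ y, hk (t - s) (x - y) * v s y)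
    {t' t : ℝ} (htt : t' < t) (ht : t ≤ 0) (x : E N) :
    v t' x ≤ Real.exp (-(κ * (t - t'))) * v t x := by
  have hb : ∀ τ, t - t' < τ → v t' x ≤
      ((τ - (t - t')) / τ) ^ (-(N : ℝ) / 2) * (Real.exp (-(κ * (t - t'))) * v t x) := by
    intro τ hτ
    have hτ0 : 0 < τ := by linarith
    set ρ := (τ - (t - t')) / τ with hρ
    have hρ0 : 0 < ρ := div_pos (by linarith) hτ0
    have hρτ : ρ * τ = t' - (t - τ) := by rw [hρ, div_mul_cancel₀ _ hτ0.ne']; ring
    have hs0 : t - τ ≤ 0 := by linarith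
    obtain ⟨_, r1⟩ := hrep (t - τ) t' (by linarith) (by linarith) x
    obtain ⟨it, r2⟩ := hrep (t - τ) t (by linarith) ht x
    rw [← hρτ] at r1
    rw [show t - (t - τ) = τ by ring] at r2 it
    have hle : ∫ y, hk (ρ * τ) (x - y) * v (t - τ) y ≤
        ρ ^ (-(N : ℝ) / 2) * ∫ y, hk τ (x - y) * v (t - τ) y := by
      rw [← integral_const_mul]
      refine integral_mono_of_nonneg (Eventually.of_forall fun y => mul_nonneg
        (Pool.Agent.H29.TF.hk_nonneg (by positivity) _) (hnn _ hs0 y)) (it.const_mul _)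
        (Eventually.of_forall fun y => ?_)
      show hk (ρ * τ) (x - y) * v (t - τ) y ≤ ρ ^ (-(N : ℝ) / 2) * (hk τ (x - y) * v (t - τ) y)
      rw [← mul_assoc]
      refine mul_le_mul_of_nonneg_right ?_ (hnn _ hs0 y)
      rw [hk_ratio hρ0 hτ0]
      have hk0 := (Pool.Agent.H29.TF.hk_pos (V := E N) hτ0 (x - y)).le
      have hp : 0 < ρ ^ (-(N : ℝ) / 2) := Real.rpow_pos_of_pos hρ0 _
      have hρ1 : ρ ≤ 1 := by rw [hρ, div_le_one hτ0]; linarith
      have hex : Real.exp (-((1 - ρ) / (4 * ρ * τ) * ‖x - y‖ ^ 2)) ≤ 1 := by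
        rw [Real.exp_le_one_iff]
        have : 0 ≤ (1 - ρ) / (4 * ρ * τ) := div_nonneg (by linarith) (by positivity)
        have := mul_nonneg this (sq_nonneg ‖x - y‖)
        linarith
      calc _ ≤ ρ ^ (-(N : ℝ) / 2) * (1 * hk τ (x - y)) := by gcongr
        _ = _ := by ring
    rw [r1]
    have e5 : Real.exp (κ * (ρ * τ)) = Real.exp (-(κ * (t - t'))) * Real.exp (κ * τ) := by
      rw [← Real.exp_add, hρτ]
      congr 1
      ring
    calc Real.exp (κ * (ρ * τ)) * ∫ y, hk (ρ * τ) (x - y) * v (t - τ) y ≤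
          Real.exp (κ * (ρ * τ)) * (ρ ^ (-(N : ℝ) / 2) * ∫ y, hk τ (x - y) * v (t - τ) y) :=
          mul_le_mul_of_nonneg_left hle (Real.exp_pos _).le
      _ = _ := by rw [e5, r2]; ring
  have hlim : Tendsto (fun τ : ℝ => ((τ - (t - t')) / τ) ^ (-(N : ℝ) / 2) *
      (Real.exp (-(κ * (t - t'))) * v t x)) atTop
      (𝓝 ((1 : ℝ) ^ (-(N : ℝ) / 2) * (Real.exp (-(κ * (t - t'))) * v t x))) := by
    refine Tendsto.mul_const _ ?_
    have h2 : Tendsto (fun τ : ℝ => (τ - (t - t')) / τ) atTop (𝓝 1) := by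
      have : Tendsto (fun τ : ℝ => 1 - (t - t') / τ) atTop (𝓝 (1 - 0)) :=
        (Tendsto.div_atTop tendsto_const_nhds tendsto_id).const_sub 1
      rw [sub_zero] at this
      refine this.congr' ?_
      filter_upwards [eventually_gt_atTop 0] with τ hτ
      field_simp
    exact h2.rpow_const (Or.inl one_ne_zero)
  have := ge_of_tendsto hlim ((eventually_gt_atTop (t - t')).mono fun τ hτ => hb τ hτ)
  rwa [Real.one_rpow, one_mul] at this

/-- differentiation under the Gaussian average for functions with bounded logarithmic gradient -/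
theorem gauss_fderiv {g : E N → ℝ} {s : ℝ} (hs0 : 0 ≤ s) (hg : ContDiff ℝ 1 g)
    (hpos : ∀ x, 0 < g x) (hgs : ∀ x, ‖fderiv ℝ g x‖ ≤ s * g x) {τ : ℝ} (hτ : 0 < τ) (x k : E N) :
    Integrable (fun y => hk τ (x - y) * fderiv ℝ g y k) ∧
      fderiv ℝ (fun x => ∫ y, hk τ (x - y) * g y) x k = ∫ y, hk τ (x - y) * fderiv ℝ g y k := by
  have hgr : ∀ y, g y ≤ Real.exp (s * ‖(0 : E N) - y‖) * g 0 := fun y => growth hg hpos hgs 0 y
  have hge : ∀ y, |g y| ≤ g 0 * Real.exp (s * ‖y‖) := fun y => by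
    rw [abs_of_pos (hpos y)]
    have := hgr y
    rw [zero_sub, norm_neg] at this
    linarith
  have hke : ∀ y, |fderiv ℝ g y k| ≤ s * ‖k‖ * g 0 * Real.exp (s * ‖y‖) := fun y => by
    have h1 := (fderiv ℝ g y).le_opNorm k
    rw [Real.norm_eq_abs] at h1
    have h2 := hge y
    rw [abs_of_pos (hpos y)] at h2
    calc |fderiv ℝ g y k| ≤ ‖fderiv ℝ g y‖ * ‖k‖ := h1
      _ ≤ s * g y * ‖k‖ := by gcongr; exact hgs y
      _ ≤ s * (g 0 * Real.exp (s * ‖y‖)) * ‖k‖ := by gcongr
      _ = _ := by ring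
  have hkc : Continuous (fun y => fderiv ℝ g y k) :=
    (hg.continuous_fderiv (by norm_num)).clm_apply continuous_const
  have i1 : Integrable (fun y => hk τ (x - y) * fderiv ℝ g y k) :=
    int_hk_exp hτ s hs0 hkc.aestronglyMeasurable hke
      (by have := hpos 0; positivity) x
  refine ⟨i1, ?_⟩
  -- the derivative along `k`
  have hF := gs_hasFDerivAt hτ s hs0 hg.continuous.aestronglyMeasurable hge (hpos 0).le x
  have hline : HasDerivAt (fun r : ℝ => ∫ y, hk τ (x + r • k - y) * g y)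
      (fderiv ℝ (fun x => ∫ y, hk τ (x - y) * g y) x k) 0 := by
    have h1 : HasDerivAt (fun r : ℝ => x + r • k) k 0 := by
      simpa using ((hasDerivAt_id (0 : ℝ)).smul_const k).const_add x
    have h2 : HasFDerivAt (fun x => ∫ y, hk τ (x - y) * g y)
        (fderiv ℝ (fun x => ∫ y, hk τ (x - y) * g y) x) (x + (0 : ℝ) • k) := by
      simpa using hF.differentiableAt.hasFDerivAt
    exact h2.comp_hasDerivAt (0 : ℝ) h1
  have hline2 : HasDerivAt (fun r : ℝ => ∫ y, hk τ (x + r • k - y) * g y)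
      (∫ y, hk τ (x - y) * fderiv ℝ g y k) 0 := by
    have e : ∀ r : ℝ, (∫ y, hk τ (x + r • k - y) * g y) = ∫ y, hk τ (x - y) * g (y + r • k) := by
      intro r
      rw [← integral_add_right_eq_self (fun y => hk τ (x + r • k - y) * g y) (r • k)]
      refine integral_congr_ae (Eventually.of_forall fun y => ?_)
      show hk τ (x + r • k - (y + r • k)) * g (y + r • k) = _
      rw [add_sub_add_right_eq_sub]
    simp_rw [e]
    have hd : ∀ y, ∀ r : ℝ, HasDerivAt (fun r : ℝ => hk τ (x - y) * g (y + r • k))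
        (hk τ (x - y) * fderiv ℝ g (y + r • k) k) r := by
      intro y r
      have h1 : HasDerivAt (fun r : ℝ => y + r • k) k r := by
        simpa using ((hasDerivAt_id r).smul_const k).const_add y
      have h2 := (hg.differentiable (by norm_num) (y + r • k)).hasFDerivAt
      exact (h2.comp_hasDerivAt r h1).const_mul _
    have hmain := (hasDerivAt_integral_of_dominated_loc_of_deriv_le (μ := (volume : Measure (E N)))
      (F := fun (r : ℝ) y => hk τ (x - y) * g (y + r • k))
      (F' := fun (r : ℝ) y => hk τ (x - y) * fderiv ℝ g (y + r • k) k)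
      (x₀ := (0 : ℝ)) (s := ball (0 : ℝ) 1)
      (bound := fun y => hk τ (x - y) * (s * ‖k‖ * g 0 * Real.exp (s * ‖k‖) * Real.exp (s * ‖y‖)))
      (ball_mem_nhds _ one_pos) ?_ ?_ ?_ ?_ ?_ ?_).2
    · simpa using hmain
    · refine Eventually.of_forall fun r => ?_
      exact (((Pool.Agent.H29.TF.continuous_hk τ).comp (by fun_prop :
        Continuous fun y : E N => x - y)).mul (hg.continuous.comp (by fun_prop))).aestronglyMeasurable
    · simpa using int_hk_exp hτ s hs0 hg.continuous.aestronglyMeasurable hge (hpos 0).le x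
    · exact (((Pool.Agent.H29.TF.continuous_hk τ).comp (by fun_prop :
        Continuous fun y : E N => x - y)).mul (hkc.comp (by fun_prop :
          Continuous fun y : E N => y + (0 : ℝ) • k))).aestronglyMeasurable
    · refine Eventually.of_forall fun y r hr => ?_
      have hr1 : |r| ≤ 1 := by simpa using (mem_ball_zero_iff.1 hr).le
      have hk0 := Pool.Agent.H29.TF.hk_nonneg (V := E N) hτ.le (x - y)
      rw [norm_mul, Real.norm_of_nonneg hk0, Real.norm_eq_abs]
      refine mul_le_mul_of_nonneg_left ((hke _).trans ?_) hk0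
      have h3 : ‖y + r • k‖ ≤ ‖k‖ + ‖y‖ := by
        calc ‖y + r • k‖ ≤ ‖y‖ + ‖r • k‖ := norm_add_le _ _
          _ ≤ ‖y‖ + ‖k‖ := by
              rw [norm_smul, Real.norm_eq_abs]
              have := norm_nonneg k
              nlinarith
          _ = _ := add_comm _ _
      have h0 : 0 ≤ s * ‖k‖ * g 0 := by have := hpos 0; positivity
      calc s * ‖k‖ * g 0 * Real.exp (s * ‖y + r • k‖) ≤
          s * ‖k‖ * g 0 * Real.exp (s * (‖k‖ + ‖y‖)) := by gcongr
        _ = _ := by rw [mul_add, Real.exp_add]; ring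
    · have := int_hk_exp (N := N) hτ s hs0 (g := fun y => s * ‖k‖ * g 0 * Real.exp (s * ‖k‖) *
        Real.exp (s * ‖y‖)) (A := s * ‖k‖ * g 0 * Real.exp (s * ‖k‖))
        (by fun_prop) (fun y => by
          rw [abs_of_nonneg]
          have := hpos 0
          positivity) (by have := hpos 0; positivity) x
      exact this
    · exact Eventually.of_forall fun y r _ => hd y r
  exact hline.unique hline2

end Pool.Agent.H84.RF.VAC
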