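import Pool.Agent.H84.RF.VACd

/-!
# MP_609556_an, full answer: module VAC, limits of normalised solutions
-/

open MeasureTheory Set Filter Topology Metric
open Pool.Agent.H29.TF (hk P)
open Pool.Agent.H91.RD Pool.Agent.H91.RF

namespace Pool.Agent.H84.RF.VAC

open VLOW

variable {N : ℕ}

theorem linD_right {V z : ℝ → E N → ℝ} {a b b' : ℝ} (h : LinD V a b z) (hb : b' ≤ b) :
    LinD V a b' z := by
  refine ⟨?_, h.meas, ?_, ?_⟩
  · obtain ⟨M, hM⟩ := h.bdd
    exact ⟨M, fun t ht x => hM t ⟨ht.1, ht.2.trans hb⟩ x⟩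
  · exact h.cont.mono fun p hp => ⟨⟨hp.1.1, hp.1.2.trans hb⟩, hp.2⟩
  · exact fun s t hs hst ht x => h.duh s t hs hst (ht.trans hb) x

/-- convergence of normalised solutions of a linear equation whose potential tends to a constant -/
theorem lim1 (hLCPT : T_LCPT) {K κ : ℝ} {V w : ℝ → E N → ℝ} {tn : ℕ → ℝ} {xn : ℕ → E N}
    {un : ℕ → ℝ} {C c : ℝ} (hC : 0 ≤ C) (hc : 0 ≤ c) (hPt : Pt K V) (hκ : |κ| ≤ K)
    (hlin : ∀ b > 1, LinD V 1 b w) (htn : Tendsto tn atTop atTop)
    (hV : ∀ t < 1, ∀ x, Tendsto (fun n => V (tn n + t) (xn n + x)) atTop (𝓝 κ))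
    (hb : ∀ t < 1, ∀ᶠ n in atTop, 0 < un n ∧
      ∀ y, |w (tn n + t) (xn n + y)| ≤ C * Real.exp (c * ‖y‖) * un n) :
    ∃ (σ : ℕ → ℕ) (v : ℝ → E N → ℝ), StrictMono σ ∧
      (∀ R > 0, TendstoUniformlyOn (fun n (p : ℝ × E N) =>
        w (tn (σ n) + p.1) (xn (σ n) + p.2) / un (σ n))
        (fun p => v p.1 p.2) atTop (Icc (-R) 0 ×ˢ closedBall 0 R)) ∧
      (∀ t < 1, ∀ x, Tendsto (fun n => w (tn (σ n) + t) (xn (σ n) + x) / un (σ n)) atTop
        (𝓝 (v t x))) ∧
      ContinuousOn (fun p : ℝ × E N => v p.1 p.2) (Iio 1 ×ˢ univ) ∧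
      (∀ s t, s < t → t < 1 → ∀ x, Integrable (fun y => hk (t - s) (x - y) * v s y) ∧
        v t x = Real.exp (κ * (t - s)) * ∫ y, hk (t - s) (x - y) * v s y) ∧
      ∀ t < 1, ∀ y, |v t y| ≤ C * Real.exp (c * ‖y‖) := by
  have hK := hPt.K0
  obtain ⟨σ, ζ, hσ, hu, hcont, hrep, -⟩ := hLCPT N K
    (fun n t x => V (tn n + 1 + t) (xn n + x)) (fun _ _ => κ)
    (fun n t x => (un n)⁻¹ * w (tn n + 1 + t) (xn n + x)) (fun n => -(tn n))
    (fun n => pt_shift hPt (tn n + 1) (xn n)) (pt_const hK hκ) (by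
      intro t ht x
      have := hV (1 + t) (by linarith) x
      refine this.congr fun n => ?_
      rw [show tn n + (1 + t) = tn n + 1 + t by ring]) (tendsto_neg_atTop_atBot.comp htn) (by
      intro n
      have h1 := hlin (max (tn n + 1) 2) (lt_of_lt_of_le (by norm_num) (le_max_right _ _))
      have h2 := linD_shift (linD_right h1 (le_max_left _ _)) (tn n + 1) (xn n) (un n)⁻¹
      rwa [sub_self, show 1 - (tn n + 1) = -(tn n) by ring] at h2) (by
      intro S hS
      refine ⟨C * ((2 : ℝ) ^ ((N : ℝ) / 2) * Real.exp (2 * S * (c + 1) ^ 2)), ?_⟩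
      filter_upwards [hb (1 - S) (by linarith)] with n hn
      refine hkS_bound hS hc hC fun y => ?_
      show |(un n)⁻¹ * w (tn n + 1 + -S) (xn n + y)| ≤ _
      have h1 := hn.2 y
      rw [show tn n + (1 - S) = tn n + 1 + -S by ring] at h1
      rw [abs_mul, abs_of_pos (inv_pos.2 hn.1), inv_mul_le_iff₀ hn.1]
      linarith)
  have hpt : ∀ t < 1, ∀ x, Tendsto (fun n => w (tn (σ n) + t) (xn (σ n) + x) / un (σ n)) atTop
      (𝓝 (ζ (t - 1) x)) := by
    intro t ht x
    set R := max (2 - t) (‖x‖ + 1) with hR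
    have hR0 : 0 < R := lt_of_lt_of_le (by linarith) (le_max_left _ _)
    have h1 := (hu R hR0 (1 - t) (by linarith)).tendsto_at (x := (t - 1, x)) ⟨⟨by
      have := le_max_left (2 - t) (‖x‖ + 1)
      simp only
      linarith, by simp⟩, by
        rw [mem_closedBall_zero_iff]
        have := le_max_right (2 - t) (‖x‖ + 1)
        simp only
        linarith⟩
    refine h1.congr fun n => ?_
    show (un (σ n))⁻¹ * w (tn (σ n) + 1 + (t - 1)) (xn (σ n) + x) = _
    rw [show tn (σ n) + 1 + (t - 1) = tn (σ n) + t by ring, div_eq_inv_mul]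
  refine ⟨σ, fun t x => ζ (t - 1) x, hσ, ?_, hpt, ?_, ?_, ?_⟩
  · intro R hR
    have h1 := hu (R + 1) (by linarith) 1 one_pos
    rw [Metric.tendstoUniformlyOn_iff] at h1 ⊢
    intro ε hε
    filter_upwards [h1 ε hε] with n hn p hp
    have := hn (p.1 - 1, p.2) ⟨⟨by have := hp.1.1; simp only; linarith,
      by have := hp.1.2; simp only; linarith⟩, by
        have := hp.2
        rw [mem_closedBall_zero_iff] at this ⊢
        simp only
        linarith⟩
    convert this using 2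
    show _ = (un (σ n))⁻¹ * w (tn (σ n) + 1 + (p.1 - 1)) (xn (σ n) + p.2)
    rw [show tn (σ n) + 1 + (p.1 - 1) = tn (σ n) + p.1 by ring, div_eq_inv_mul]
  · refine hcont.comp (f := fun p : ℝ × E N => (p.1 - 1, p.2)) (by fun_prop) ?_
    rintro ⟨t, x⟩ ⟨ht, _⟩
    exact ⟨by have := ht; simp only [mem_Iio] at this ⊢; linarith, mem_univ _⟩
  · intro s t hst ht x
    obtain ⟨h1, h2⟩ := hrep (s - 1) (t - 1) (by linarith) (by linarith) x
    have e : ∀ y : E N, gk (fun _ _ => κ) (t - 1) x (s - 1) y =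
        Real.exp (κ * (t - s)) * hk (t - s) (x - y) := by
      intro y
      rw [gk_const κ (show s - 1 < t - 1 by linarith), show t - 1 - (s - 1) = t - s by ring]
    simp_rw [e] at h1 h2
    simp_rw [mul_assoc] at h1 h2
    refine ⟨?_, ?_⟩
    · have h3 := h1.const_mul (Real.exp (κ * (t - s)))⁻¹
      refine h3.congr (Eventually.of_forall fun y => ?_)
      show (Real.exp (κ * (t - s)))⁻¹ * (Real.exp (κ * (t - s)) * _) = _
      rw [inv_mul_cancel_left₀ (Real.exp_pos _).ne']
    · show ζ (t - 1) x = Real.exp (κ * (t - s)) * ∫ y, hk (t - s) (x - y) * ζ (s - 1) y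
      rw [h2, integral_const_mul]
  · intro t ht y
    have h1 := (hpt t ht y).abs
    refine le_of_tendsto h1 ?_
    filter_upwards [hσ.tendsto_atTop.eventually (hb t ht)] with n hn
    rw [abs_div, abs_of_pos hn.1, div_le_iff₀ hn.1]
    exact hn.2 y

/-- convergence of directional derivatives from second order bounds -/
theorem lim2 {U D : ℕ → ℝ → E N → ℝ} {v : ℝ → E N → ℝ} {h : E N}
    (hq : ∀ R > 0, ∃ L ≥ 0, ∀ᶠ n in atTop, ∀ t ∈ Icc (-R) 0, ∀ x ∈ closedBall (0 : E N) R,
      ∀ r ∈ Ioc (0 : ℝ) 1, |U n t (x + r • h) - U n t x - r * D n t x| ≤ L * r ^ 2)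
    (hU : ∀ R > 0, TendstoUniformlyOn (fun n (p : ℝ × E N) => U n p.1 p.2)
      (fun p => v p.1 p.2) atTop (Icc (-R) 0 ×ˢ closedBall 0 R))
    (hv : ∀ t ≤ 0, Differentiable ℝ (v t)) :
    ∀ R > 0, TendstoUniformlyOn (fun n (p : ℝ × E N) => D n p.1 p.2)
      (fun p => dx v h p.1 p.2) atTop (Icc (-R) 0 ×ˢ closedBall 0 R) := by
  intro R hR
  obtain ⟨L, hL, hq⟩ := hq R hR
  have hin : ∀ x ∈ closedBall (0 : E N) R, ∀ r ∈ Ioc (0 : ℝ) 1,
      x + r • h ∈ closedBall (0 : E N) (R + ‖h‖) := by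
    intro x hx r hr
    rw [mem_closedBall_zero_iff] at hx ⊢
    calc ‖x + r • h‖ ≤ ‖x‖ + ‖r • h‖ := norm_add_le _ _
      _ ≤ R + ‖h‖ := by
        rw [norm_smul, Real.norm_of_nonneg hr.1.le]
        have := norm_nonneg h
        have := hr.2
        nlinarith
  have hin' : ∀ x ∈ closedBall (0 : E N) R, x ∈ closedBall (0 : E N) (R + ‖h‖) := fun x hx =>
    closedBall_subset_closedBall (by linarith [norm_nonneg h]) hx
  have hR' : 0 < R + ‖h‖ := by linarith [norm_nonneg h]
  have hpt : ∀ t ∈ Icc (-R) 0, ∀ x ∈ closedBall (0 : E N) (R + ‖h‖),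
      Tendsto (fun n => U n t x) atTop (𝓝 (v t x)) := fun t ht x hx =>
    (hU _ hR').tendsto_at (x := (t, x)) ⟨⟨by have := ht.1; have := norm_nonneg h; simp only; linarith,
      ht.2⟩, hx⟩
  -- the limit
  have hvq : ∀ t ∈ Icc (-R) 0, ∀ x ∈ closedBall (0 : E N) R, ∀ r ∈ Ioc (0 : ℝ) 1,
      |(v t (x + r • h) - v t x) / r - dx v h t x| ≤ L * r := by
    intro t ht x hx r hr
    have hdq : Tendsto (fun r' : ℝ => (v t (x + r' • h) - v t x) / r') (𝓝[>] 0)
        (𝓝 (dx v h t x)) := by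
      have h1 : HasDerivAt (fun r : ℝ => x + r • h) h 0 := by
        simpa using ((hasDerivAt_id (0 : ℝ)).smul_const h).const_add x
      have h2 : HasFDerivAt (v t) (fderiv ℝ (v t) x) (x + (0 : ℝ) • h) := by
        simpa using (hv t ht.2 x).hasFDerivAt
      have h3 := (h2.comp_hasDerivAt (0 : ℝ) h1).tendsto_slope_zero_right
      refine h3.congr fun r' => ?_
      simp [div_eq_inv_mul]
    have hle : ∀ r' ∈ Ioc (0 : ℝ) 1, |(v t (x + r • h) - v t x) / r -
        (v t (x + r' • h) - v t x) / r'| ≤ L * (r + r') := by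
      intro r' hr'
      have h1 : Tendsto (fun n => |(U n t (x + r • h) - U n t x) / r -
          (U n t (x + r' • h) - U n t x) / r'|) atTop (𝓝 (|(v t (x + r • h) - v t x) / r -
          (v t (x + r' • h) - v t x) / r'|)) :=
        (((hpt t ht _ (hin x hx r hr)).sub (hpt t ht _ (hin' x hx))).div_const r |>.sub
          (((hpt t ht _ (hin x hx r' hr')).sub (hpt t ht _ (hin' x hx))).div_const r')).abs
      refine le_of_tendsto h1 ?_
      filter_upwards [hq] with n hn
      have a1 : |(U n t (x + r • h) - U n t x) / r - D n t x| ≤ L * r := by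
        have := hn t ht x hx r hr
        have e : (U n t (x + r • h) - U n t x) / r - D n t x =
          (U n t (x + r • h) - U n t x - r * D n t x) / r := by
            have := hr.1.ne'
            field_simp
        rw [e, abs_div, abs_of_pos hr.1, div_le_iff₀ hr.1]
        linarith
      have a2 : |(U n t (x + r' • h) - U n t x) / r' - D n t x| ≤ L * r' := by
        have := hn t ht x hx r' hr'
        have e : (U n t (x + r' • h) - U n t x) / r' - D n t x =
          (U n t (x + r' • h) - U n t x - r' * D n t x) / r' := by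
            have := hr'.1.ne'
            field_simp
        rw [e, abs_div, abs_of_pos hr'.1, div_le_iff₀ hr'.1]
        linarith
      have := abs_sub_le ((U n t (x + r • h) - U n t x) / r) (D n t x)
        ((U n t (x + r' • h) - U n t x) / r')
      rw [abs_sub_comm (D n t x)] at this
      linarith
    have h5 : Tendsto (fun r' : ℝ => L * (r + r')) (𝓝[>] 0) (𝓝 (L * (r + 0))) :=
      ((tendsto_const_nhds.add (tendsto_nhdsWithin_of_tendsto_nhds tendsto_id)).const_mul L)
    rw [add_zero] at h5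
    refine le_of_tendsto_of_tendsto (tendsto_const_nhds.sub hdq).abs h5 ?_
    have h6 : Ioc (0 : ℝ) 1 ∈ 𝓝[>] (0 : ℝ) := Ioc_mem_nhdsGT one_pos
    filter_upwards [h6] with r' hr' using hle r' hr'
  rw [Metric.tendstoUniformlyOn_iff]
  intro ε hε
  set r := min 1 (ε / (8 * (L + 1))) with hr
  have hr0 : 0 < r := by rw [hr]; positivity
  have hr1 : r ≤ 1 := min_le_left _ _
  have hr2 : L * r ≤ ε / 8 := by
    have h1 : r ≤ ε / (8 * (L + 1)) := min_le_right _ _
    calc L * r ≤ (L + 1) * (ε / (8 * (L + 1))) := by gcongr; linarith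
      _ = ε / 8 := by field_simp
  have hU' := hU (R + ‖h‖) hR'
  rw [Metric.tendstoUniformlyOn_iff] at hU'
  filter_upwards [hU' (ε * r / 8) (by positivity), hq] with n hn hqn p hp
  obtain ⟨t, x⟩ := p
  have ht : t ∈ Icc (-R) 0 := hp.1
  have hx : x ∈ closedBall (0 : E N) R := hp.2
  have hrr : r ∈ Ioc (0 : ℝ) 1 := ⟨hr0, hr1⟩
  have a1 := hqn t ht x hx r hrr
  have a2 := hvq t ht x hx r hrr
  have ht' : t ∈ Icc (-(R + ‖h‖)) 0 := ⟨by have := ht.1; have := norm_nonneg h; linarith, ht.2⟩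
  have a3 := hn (t, x + r • h) ⟨ht', hin x hx r hrr⟩
  have a4 := hn (t, x) ⟨ht', hin' x hx⟩
  rw [Real.dist_eq] at a3 a4 ⊢
  simp only at a3 a4 ⊢
  have e1 : |(U n t (x + r • h) - U n t x) / r - D n t x| ≤ L * r := by
    have e : (U n t (x + r • h) - U n t x) / r - D n t x =
      (U n t (x + r • h) - U n t x - r * D n t x) / r := by
        have := hr0.ne'
        field_simp
    rw [e, abs_div, abs_of_pos hr0, div_le_iff₀ hr0]
    linarith
  have e2 : |(v t (x + r • h) - v t x) / r - (U n t (x + r • h) - U n t x) / r| ≤ ε / 4 := by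
    have e : (v t (x + r • h) - v t x) / r - (U n t (x + r • h) - U n t x) / r =
      ((v t (x + r • h) - U n t (x + r • h)) - (v t x - U n t x)) / r := by ring
    rw [e, abs_div, abs_of_pos hr0, div_le_iff₀ hr0]
    have := abs_sub (v t (x + r • h) - U n t (x + r • h)) (v t x - U n t x)
    linarith
  have := abs_sub_le (dx v h t x) ((v t (x + r • h) - v t x) / r) (D n t x)
  have h7 := abs_sub_le ((v t (x + r • h) - v t x) / r) ((U n t (x + r • h) - U n t x) / r)
    (D n t x)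
  rw [abs_sub_comm] at a2
  linarith

end Pool.Agent.H84.RF.VAC
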