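import Pool.Agent.H91.RF.TargetsR

/-!
# MP_609556_an, full answer: module VLOW

Ancient solutions of `v_t = Δ v + κ v` with `|∇v| ≤ s v` satisfy `v_t ≤ (κ + s²) v`.
-/

open MeasureTheory Set Filter Topology Metric
open Pool.Agent.H29.TF (hk P)
open Pool.Agent.H91.RD Pool.Agent.H91.RF

namespace Pool.Agent.H84.RF.VLOW

variable {N : ℕ}

theorem hk_def (t : ℝ) (z : E N) :
    hk t z = (4 * Real.pi * t) ^ (-(N : ℝ) / 2) * Real.exp (-‖z‖ ^ 2 / (4 * t)) := by
  unfold hk
  rw [show Module.finrank ℝ (E N) = N by simp [E]]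

theorem hk_ratio {ρ τ : ℝ} (hρ : 0 < ρ) (hτ : 0 < τ) (z : E N) :
    hk (ρ * τ) z = ρ ^ (-(N : ℝ) / 2) * (Real.exp (-((1 - ρ) / (4 * ρ * τ) * ‖z‖ ^ 2)) * hk τ z) := by
  rw [hk_def, hk_def, show 4 * Real.pi * (ρ * τ) = ρ * (4 * Real.pi * τ) by ring,
    Real.mul_rpow hρ.le (by positivity)]
  have e : Real.exp (-‖z‖ ^ 2 / (4 * (ρ * τ))) =
      Real.exp (-((1 - ρ) / (4 * ρ * τ) * ‖z‖ ^ 2)) * Real.exp (-‖z‖ ^ 2 / (4 * τ)) := by
    rw [← Real.exp_add]
    congr 1
    field_simp
    ring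
  rw [e]
  ring

/-- polynomial and exponential factors are absorbed by the Gaussian -/
theorem hk_absorb (k : ℕ) (s : ℝ) {τ : ℝ} (hτ : 0 < τ) (z : E N) :
    hk τ z * (‖z‖ ^ k * Real.exp (s * ‖z‖)) ≤
      (2 : ℝ) ^ ((N : ℝ) / 2) * k.factorial * Real.exp (2 * τ * (s + 1) ^ 2) * hk (2 * τ) z := by
  have h1 : ‖z‖ ^ k ≤ k.factorial * Real.exp ‖z‖ := by
    have := Real.pow_div_factorial_le_exp (x := ‖z‖) (norm_nonneg z) k
    have hk' : (0 : ℝ) < k.factorial := by positivity
    rw [div_le_iff₀ hk'] at this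
    linarith
  have h2 : hk τ z = (2 : ℝ) ^ ((N : ℝ) / 2) * (Real.exp (-(1 / (8 * τ) * ‖z‖ ^ 2)) * hk (2 * τ) z) := by
    have := hk_ratio (N := N) (ρ := 1 / 2) (τ := 2 * τ) (by norm_num) (by positivity) z
    rw [show (1 / 2 : ℝ) * (2 * τ) = τ by ring] at this
    rw [this]
    have e1 : (1 / 2 : ℝ) ^ (-(N : ℝ) / 2) = (2 : ℝ) ^ ((N : ℝ) / 2) := by
      rw [one_div, Real.inv_rpow (by norm_num), ← Real.rpow_neg (by norm_num)]
      congr 1
      ring
    rw [e1]
    congr 3
    field_simp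
    ring
  have hpos : 0 < hk (2 * τ) z := Pool.Agent.H29.TF.hk_pos (by positivity) z
  rw [h2]
  have h3 : Real.exp (-(1 / (8 * τ) * ‖z‖ ^ 2)) * (‖z‖ ^ k * Real.exp (s * ‖z‖)) ≤
      k.factorial * Real.exp (2 * τ * (s + 1) ^ 2) := by
    calc Real.exp (-(1 / (8 * τ) * ‖z‖ ^ 2)) * (‖z‖ ^ k * Real.exp (s * ‖z‖)) ≤
        Real.exp (-(1 / (8 * τ) * ‖z‖ ^ 2)) *
          ((k.factorial * Real.exp ‖z‖) * Real.exp (s * ‖z‖)) := by
          gcongr
      _ = k.factorial * Real.exp (-(1 / (8 * τ) * ‖z‖ ^ 2) + ‖z‖ + s * ‖z‖) := by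
          rw [Real.exp_add, Real.exp_add]; ring
      _ ≤ _ := by
          gcongr
          have : 0 ≤ (‖z‖ - 4 * τ * (s + 1)) ^ 2 / (8 * τ) := by positivity
          have e : (‖z‖ - 4 * τ * (s + 1)) ^ 2 / (8 * τ) =
            1 / (8 * τ) * ‖z‖ ^ 2 - (s + 1) * ‖z‖ + 2 * τ * (s + 1) ^ 2 := by
            field_simp
            ring
          rw [e] at this
          linarith
  calc (2 : ℝ) ^ ((N : ℝ) / 2) * (Real.exp (-(1 / (8 * τ) * ‖z‖ ^ 2)) * hk (2 * τ) z) *
      (‖z‖ ^ k * Real.exp (s * ‖z‖)) = (2 : ℝ) ^ ((N : ℝ) / 2) *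
      (Real.exp (-(1 / (8 * τ) * ‖z‖ ^ 2)) * (‖z‖ ^ k * Real.exp (s * ‖z‖))) * hk (2 * τ) z := by ring
    _ ≤ (2 : ℝ) ^ ((N : ℝ) / 2) * (k.factorial * Real.exp (2 * τ * (s + 1) ^ 2)) * hk (2 * τ) z := by
      gcongr
    _ = _ := by ring

/-- a nonnegative function on the left of `1` which vanishes at `1` has derivative `≤ 0` there -/
theorem deriv_sign {φ : ℝ → ℝ} {d b : ℝ} (h : HasDerivWithinAt φ d (Iic b) b) (h0 : φ b = 0)
    (hp : ∀ᶠ r in 𝓝[<] b, 0 ≤ φ r) : d ≤ 0 := by
  have h1 : HasDerivWithinAt φ d (Iio b) b := h.mono Iio_subset_Iic_self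
  rw [hasDerivWithinAt_iff_tendsto_slope' (by simp)] at h1
  refine le_of_tendsto h1 ?_
  filter_upwards [hp, self_mem_nhdsWithin] with r hr hr'
  rw [slope_def_field, h0, sub_zero]
  exact div_nonpos_of_nonneg_of_nonpos hr (by simpa using le_of_lt hr')

theorem exp_neg_le {u : ℝ} (hu : 0 ≤ u) : Real.exp (-u) ≤ 1 - u + u ^ 2 / 2 := by
  have h := Real.quadratic_le_exp_of_nonneg hu
  rw [Real.exp_neg]
  have hp : 0 < 1 + u + u ^ 2 / 2 := by positivity
  refine (inv_anti₀ hp h).trans ?_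
  rw [inv_eq_one_div, div_le_iff₀ hp]
  nlinarith [sq_nonneg (u ^ 2)]

/-- continuity in time of ancient solutions -/
theorem anc_cont {κ : ℝ} {v : ℝ → E N → ℝ} (hv : Anc κ v) (x : E N) :
    ContinuousOn (fun r => v r x) (Iic 0) := by
  intro r0 hr0
  have hr0' : r0 ≤ 0 := hr0
  set s := r0 - 1 with hs
  have hs0 : s < 0 := by rw [hs]; linarith
  have hev : ∀ᶠ r in 𝓝[Iic 0] r0, s + 1 / 2 < r ∧ r ≤ 0 := by
    have h1 : ∀ᶠ r in 𝓝[Iic 0] r0, s + 1 / 2 < r := by
      refine mem_nhdsWithin_of_mem_nhds (Ioi_mem_nhds ?_)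
      rw [hs]; linarith
    exact h1.and self_mem_nhdsWithin
  have hF : ContinuousWithinAt (fun r => Real.exp (κ * (r - s)) *
      ∫ y, hk (r - s) (x - y) * v s y) (Iic 0) r0 := by
    refine ContinuousWithinAt.mul (by fun_prop) ?_
    refine tendsto_integral_filter_of_dominated_convergence
      (fun y => (2 * (-s)) ^ ((N : ℝ) / 2) * (hk (0 - s) (x - y) * v s y)) ?_ ?_ ?_ ?_
    · filter_upwards [hev] with r hr
      have := (hv.rep s r (by linarith [hr.1]) hr.2 x).1
      exact this.aestronglyMeasurable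
    · filter_upwards [hev] with r hr
      refine Eventually.of_forall fun y => ?_
      have hrs : 0 < r - s := by linarith [hr.1]
      have hρ : 0 < (r - s) / (0 - s) := div_pos hrs (by linarith)
      have e := hk_ratio (N := N) (ρ := (r - s) / (0 - s)) (τ := 0 - s) hρ (by linarith) (x - y)
      rw [div_mul_cancel₀ _ (show (0 - s) ≠ 0 by linarith)] at e
      have hk0 : 0 < hk (0 - s) (x - y) := Pool.Agent.H29.TF.hk_pos (by linarith) _
      have hvp := hv.pos s hs0.le y
      rw [Real.norm_of_nonneg (mul_nonneg (Pool.Agent.H29.TF.hk_nonneg hrs.le _) hvp.le), ← mul_assoc]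
      refine mul_le_mul_of_nonneg_right ?_ hvp.le
      rw [e, ← mul_assoc]
      refine mul_le_mul_of_nonneg_right ?_ hk0.le
      have hle1 : (r - s) / (0 - s) ≤ 1 := by
        rw [div_le_one (by linarith)]; linarith [hr.2]
      have h1 : Real.exp (-((1 - (r - s) / (0 - s)) / (4 * ((r - s) / (0 - s)) * (0 - s)) *
          ‖x - y‖ ^ 2)) ≤ 1 := by
        rw [Real.exp_le_one_iff]
        have : 0 ≤ (1 - (r - s) / (0 - s)) / (4 * ((r - s) / (0 - s)) * (0 - s)) := by
          apply div_nonneg (by linarith)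
          have : 0 < 0 - s := by linarith
          positivity
        have := mul_nonneg this (sq_nonneg ‖x - y‖)
        linarith
      have h2 : ((r - s) / (0 - s)) ^ (-(N : ℝ) / 2) ≤ (2 * (-s)) ^ ((N : ℝ) / 2) := by
        rw [neg_div, Real.rpow_neg hρ.le, ← Real.inv_rpow hρ.le]
        refine Real.rpow_le_rpow (by positivity) ?_ (by positivity)
        rw [inv_div, div_le_iff₀ hrs]
        nlinarith [hr.1]
      have h3 : 0 ≤ (2 * (-s)) ^ ((N : ℝ) / 2) := Real.rpow_nonneg (by linarith) _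
      calc _ ≤ (2 * (-s)) ^ ((N : ℝ) / 2) * 1 := mul_le_mul h2 h1 (Real.exp_pos _).le h3
        _ = _ := mul_one _
    · exact ((hv.rep s 0 hs0 le_rfl x).1).const_mul _
    · refine Eventually.of_forall fun y => ?_
      have hc : ContinuousAt (fun r : ℝ => hk (r - s) (x - y) * v s y) r0 := by
        refine ContinuousAt.mul ?_ continuousAt_const
        simp only [hk_def]
        have hne : (4 * Real.pi * (r0 - s)) ≠ 0 := by
          have : r0 - s = 1 := by rw [hs]; ring
          rw [this]; positivity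
        have hne' : 4 * (r0 - s) ≠ 0 := by
          have : r0 - s = 1 := by rw [hs]; ring
          rw [this]; norm_num
        refine ContinuousAt.mul ?_ ?_
        · exact ContinuousAt.rpow_const (by fun_prop) (Or.inl hne)
        · exact Real.continuous_exp.continuousAt.comp
            (ContinuousAt.div (by fun_prop) (by fun_prop) hne')
      exact hc.tendsto.mono_left nhdsWithin_le_nhds
  refine hF.congr_of_eventuallyEq ?_ ?_
  · filter_upwards [hev] with r hr
    exact (hv.rep s r (by linarith [hr.1]) hr.2 x).2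
  · exact (hv.rep s r0 (by rw [hs]; linarith) hr0' x).2

/-- left derivative in time -/
theorem left_deriv {κ : ℝ} {v vt : ℝ → E N → ℝ} (hvt : Anc κ vt)
    (hint : ∀ s t, s ≤ t → t ≤ 0 → ∀ x, v t x = v s x + ∫ r in s..t, vt r x)
    {t : ℝ} (ht : t ≤ 0) (x : E N) :
    HasDerivWithinAt (fun r => v r x) (vt t x) (Iic t) t := by
  have hc : ContinuousOn (fun r => vt r x) (Iic t) := (anc_cont hvt x).mono (Iic_subset_Iic.2 ht)
  have hii : IntervalIntegrable (fun r => vt r x) volume (t - 1) t := by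
    refine ContinuousOn.intervalIntegrable ?_
    rw [uIcc_of_le (by linarith)]
    exact hc.mono (fun r hr => hr.2)
  have h1 : HasDerivWithinAt (fun u => ∫ r in (t - 1)..u, vt r x) (vt t x) (Iic t) t := by
    refine intervalIntegral.integral_hasDerivWithinAt_right hii ?_ ?_
    · exact hc.stronglyMeasurableAtFilter_nhdsWithin measurableSet_Iic t
    · exact hc t self_mem_Iic
  have h2 : HasDerivWithinAt (fun u => v (t - 1) x + ∫ r in (t - 1)..u, vt r x) (vt t x)
      (Iic t) t := h1.const_add _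
  refine h2.congr_of_eventuallyEq ?_ ?_
  · have h3 : ∀ᶠ r in 𝓝[Iic t] t, t - 1 < r :=
      mem_nhdsWithin_of_mem_nhds (Ioi_mem_nhds (by linarith))
    have : ∀ᶠ r in 𝓝[Iic t] t, t - 1 < r ∧ r ≤ t := h3.and self_mem_nhdsWithin
    filter_upwards [this] with r hr
    exact hint (t - 1) r hr.1.le (hr.2.trans ht) x
  · exact hint (t - 1) t (by linarith) ht x

/-- spatial growth -/
theorem growth {g : E N → ℝ} {s : ℝ} (hg : ContDiff ℝ 1 g) (hpos : ∀ x, 0 < g x)
    (hs : ∀ x, ‖fderiv ℝ g x‖ ≤ s * g x) (x y : E N) : g y ≤ Real.exp (s * ‖x - y‖) * g x := by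
  have hd : ∀ z, DifferentiableAt ℝ g z := fun z => hg.differentiable (by norm_num) z
  have hld : ∀ z ∈ (univ : Set (E N)), HasFDerivWithinAt (fun z => Real.log (g z))
      ((g z)⁻¹ • fderiv ℝ g z) univ z := by
    intro z _
    exact ((hd z).hasFDerivAt.log (hpos z).ne').hasFDerivWithinAt
  have hb : ∀ z ∈ (univ : Set (E N)), ‖(g z)⁻¹ • fderiv ℝ g z‖ ≤ s := by
    intro z _
    rw [norm_smul, norm_inv, Real.norm_of_nonneg (hpos z).le, inv_mul_le_iff₀ (hpos z)]
    linarith [hs z, mul_comm s (g z)]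
  have := convex_univ.norm_image_sub_le_of_norm_hasFDerivWithin_le hld hb (mem_univ x) (mem_univ y)
  have h2 : Real.log (g y) ≤ s * ‖x - y‖ + Real.log (g x) := by
    rw [norm_sub_rev y x] at this
    linarith [(abs_le.1 (by simpa using this)).2]
  calc g y = Real.exp (Real.log (g y)) := (Real.exp_log (hpos y)).symm
    _ ≤ Real.exp (s * ‖x - y‖ + Real.log (g x)) := Real.exp_le_exp.2 h2
    _ = _ := by rw [Real.exp_add, Real.exp_log (hpos x)]

/-- scaling of the heat kernel under the integral -/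
theorem hk_scale {ρ τ : ℝ} (hρ : 0 < ρ) (hτ : 0 < τ) (g : E N → ℝ) (x : E N) :
    ∫ y, hk (ρ * τ) (x - y) * g y = ∫ z, hk τ z * g (x - √ρ • z) := by
  have h1 : ∫ y, hk (ρ * τ) (x - y) * g y = ∫ z, hk (ρ * τ) z * g (x - z) := by
    rw [← integral_sub_left_eq_self (fun y => hk (ρ * τ) (x - y) * g y) volume x]
    simp
  rw [h1]
  have hsρ : 0 < √ρ := Real.sqrt_pos.2 hρ
  have h2 := Measure.integral_comp_smul (μ := (volume : Measure (E N)))
    (fun z => hk (ρ * τ) z * g (x - z)) (√ρ)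
  have hfr : Module.finrank ℝ (E N) = N := by simp [E]
  rw [hfr] at h2
  have h3 : ∫ z, hk (ρ * τ) z * g (x - z) =
      (√ρ) ^ N * ∫ z, hk (ρ * τ) (√ρ • z) * g (x - √ρ • z) := by
    rw [h2, abs_of_nonneg (by positivity), smul_eq_mul, ← mul_assoc,
      mul_inv_cancel₀ (by positivity), one_mul]
  rw [h3, ← integral_const_mul]
  refine integral_congr_ae (Eventually.of_forall fun z => ?_)
  show √ρ ^ N * (hk (ρ * τ) (√ρ • z) * g (x - √ρ • z)) = hk τ z * g (x - √ρ • z)
  rw [← mul_assoc]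
  congr 1
  rw [hk_def, hk_def, show 4 * Real.pi * (ρ * τ) = ρ * (4 * Real.pi * τ) by ring,
    Real.mul_rpow hρ.le (by positivity), norm_smul, Real.norm_of_nonneg hsρ.le, mul_pow,
    Real.sq_sqrt hρ.le]
  have e1 : -(ρ * ‖z‖ ^ 2) / (4 * (ρ * τ)) = -‖z‖ ^ 2 / (4 * τ) := by field_simp
  rw [e1]
  have e2 : √ρ ^ N * ρ ^ (-(N : ℝ) / 2) = 1 := by
    rw [Real.sqrt_eq_rpow, ← Real.rpow_natCast, ← Real.rpow_mul hρ.le, ← Real.rpow_add hρ]
    have : 1 / 2 * (N : ℝ) + -(N : ℝ) / 2 = 0 := by ring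
    rw [this, Real.rpow_zero]
  calc _ = (√ρ ^ N * ρ ^ (-(N : ℝ) / 2)) * ((4 * Real.pi * τ) ^ (-(N : ℝ) / 2) *
        Real.exp (-‖z‖ ^ 2 / (4 * τ))) := by ring
    _ = _ := by rw [e2, one_mul]

/-- moments of the Gaussian weight are finite -/
theorem int_mom {g : E N → ℝ} {s : ℝ} (hg : Continuous g) (hpos : ∀ x, 0 < g x) (x : E N)
    (hgr : ∀ y, g y ≤ Real.exp (s * ‖x - y‖) * g x) {τ : ℝ} (hτ : 0 < τ) (k : ℕ) :
    Integrable (fun z : E N => hk τ z * g (x - z) * ‖z‖ ^ k) := by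
  refine Integrable.mono' (((Pool.Agent.H29.TF.integrable_hk (V := E N)
    (show 0 < 2 * τ by positivity)).const_mul ((2 : ℝ) ^ ((N : ℝ) / 2) * k.factorial *
      Real.exp (2 * τ * (s + 1) ^ 2))).const_mul (g x)) ?_ ?_
  · exact (((Pool.Agent.H29.TF.continuous_hk τ).mul (hg.comp (by fun_prop))).mul
      (by fun_prop)).aestronglyMeasurable
  · refine Eventually.of_forall fun z => ?_
    have h1 := hk_absorb (N := N) k s hτ z
    have h2 := hgr (x - z)
    rw [sub_sub_cancel] at h2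
    have hk0 := Pool.Agent.H29.TF.hk_nonneg (V := E N) hτ.le z
    rw [Real.norm_of_nonneg (by have := hpos (x - z); positivity)]
    calc hk τ z * g (x - z) * ‖z‖ ^ k ≤ hk τ z * (Real.exp (s * ‖z‖) * g x) * ‖z‖ ^ k := by
          gcongr
      _ = g x * (hk τ z * (‖z‖ ^ k * Real.exp (s * ‖z‖))) := by ring
      _ ≤ _ := mul_le_mul_of_nonneg_left h1 (hpos x).le

/-- the second moment constraint: `m₂ ≤ 2 τ (N m₀ + s m₁)` -/
theorem mom_two {g : E N → ℝ} {s : ℝ} (hs : 0 ≤ s) (hg : ContDiff ℝ 1 g) (hpos : ∀ x, 0 < g x)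
    (hgs : ∀ x, ‖fderiv ℝ g x‖ ≤ s * g x) (x : E N) {τ : ℝ} (hτ : 0 < τ) :
    ∫ z, hk τ z * g (x - z) * ‖z‖ ^ 2 ≤ 2 * τ * (N * (∫ z, hk τ z * g (x - z)) +
      s * ∫ z, hk τ z * g (x - z) * ‖z‖) := by
  have hgr : ∀ y, g y ≤ Real.exp (s * ‖x - y‖) * g x := fun y => growth hg hpos hgs x y
  have I0 : Integrable (fun z : E N => hk τ z * g (x - z)) := by
    simpa using int_mom hg.continuous hpos x hgr hτ 0
  have I1 : Integrable (fun z : E N => hk τ z * g (x - z) * ‖z‖) := by
    simpa using int_mom hg.continuous hpos x hgr hτ 1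
  have I2 := int_mom hg.continuous hpos x hgr hτ 2
  have I4 := int_mom hg.continuous hpos x hgr hτ 4
  set m0 := ∫ z, hk τ z * g (x - z) with hm0
  set m1 := ∫ z, hk τ z * g (x - z) * ‖z‖ with hm1
  set m2 := ∫ z, hk τ z * g (x - z) * ‖z‖ ^ 2 with hm2
  set m4 := ∫ z, hk τ z * g (x - z) * ‖z‖ ^ 4 with hm4
  have hkp : ∀ z : E N, 0 < hk τ z := fun z => Pool.Agent.H29.TF.hk_pos hτ z
  -- the inequality for `ρ < 1`
  have key : ∀ ρ, 0 < ρ → ρ < 1 → 0 ≤ ρ ^ (-(N : ℝ) / 2) *
      (m0 - (1 - ρ) / (4 * ρ * τ) * m2 + ((1 - ρ) / (4 * ρ * τ)) ^ 2 / 2 * m4) -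
      (m0 - s * (1 - √ρ) * m1) := by
    intro ρ h0 h1
    set c := (1 - ρ) / (4 * ρ * τ) with hc
    have hc0 : 0 ≤ c := by rw [hc]; apply div_nonneg (by linarith); positivity
    have hsq1 : √ρ ≤ 1 := Real.sqrt_le_one.2 h1.le
    have hsq0 : 0 ≤ √ρ := Real.sqrt_nonneg ρ
    have hp : 0 < ρ ^ (-(N : ℝ) / 2) := Real.rpow_pos_of_pos h0 _
    -- upper bound
    have U : ∫ y, hk (ρ * τ) (x - y) * g y ≤ ρ ^ (-(N : ℝ) / 2) * (m0 - c * m2 + c ^ 2 / 2 * m4) := by
      have e1 : ∫ y, hk (ρ * τ) (x - y) * g y = ∫ z, hk (ρ * τ) z * g (x - z) := by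
        rw [← integral_sub_left_eq_self (fun y => hk (ρ * τ) (x - y) * g y) volume x]
        simp
      have e2 : m0 - c * m2 + c ^ 2 / 2 * m4 = ∫ z, (hk τ z * g (x - z) -
          c * (hk τ z * g (x - z) * ‖z‖ ^ 2) + c ^ 2 / 2 * (hk τ z * g (x - z) * ‖z‖ ^ 4)) := by
        have a1 := integral_add (f := fun z : E N => hk τ z * g (x - z) -
          c * (hk τ z * g (x - z) * ‖z‖ ^ 2)) (g := fun z : E N => c ^ 2 / 2 *
            (hk τ z * g (x - z) * ‖z‖ ^ 4)) (μ := volume) (I0.sub (I2.const_mul _))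
            (I4.const_mul _)
        have a2 := integral_sub (f := fun z : E N => hk τ z * g (x - z))
          (g := fun z : E N => c * (hk τ z * g (x - z) * ‖z‖ ^ 2)) (μ := volume) I0
            (I2.const_mul _)
        rw [a1, a2, integral_const_mul, integral_const_mul]
      rw [e1, e2, ← integral_const_mul]
      refine integral_mono_of_nonneg (Eventually.of_forall fun z => ?_)
        (((I0.sub (I2.const_mul _)).add (I4.const_mul _)).const_mul _)
        (Eventually.of_forall fun z => ?_)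
      · exact mul_nonneg (Pool.Agent.H29.TF.hk_nonneg (by positivity) z) (hpos _).le
      · show hk (ρ * τ) z * g (x - z) ≤ ρ ^ (-(N : ℝ) / 2) * (hk τ z * g (x - z) -
          c * (hk τ z * g (x - z) * ‖z‖ ^ 2) + c ^ 2 / 2 * (hk τ z * g (x - z) * ‖z‖ ^ 4))
        rw [hk_ratio h0 hτ z]
        have hE := exp_neg_le (u := c * ‖z‖ ^ 2) (by positivity)
        have hgz := hpos (x - z)
        have hkz := hkp z
        calc ρ ^ (-(N : ℝ) / 2) * (Real.exp (-(c * ‖z‖ ^ 2)) * hk τ z) * g (x - z) ≤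
            ρ ^ (-(N : ℝ) / 2) * ((1 - c * ‖z‖ ^ 2 + (c * ‖z‖ ^ 2) ^ 2 / 2) * hk τ z) *
              g (x - z) := by gcongr
          _ = _ := by ring
    -- lower bound
    have L : m0 - s * (1 - √ρ) * m1 ≤ ∫ y, hk (ρ * τ) (x - y) * g y := by
      rw [hk_scale h0 hτ g x]
      have e2 : m0 - s * (1 - √ρ) * m1 = ∫ z, (hk τ z * g (x - z) -
          s * (1 - √ρ) * (hk τ z * g (x - z) * ‖z‖)) := by
        rw [integral_sub I0 (I1.const_mul _), integral_const_mul]
      rw [e2]
      have hint2 : Integrable (fun z : E N => hk τ z * g (x - √ρ • z)) := by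
        refine Integrable.mono' ((((Pool.Agent.H29.TF.integrable_hk (V := E N)
          (show 0 < 2 * τ by positivity)).const_mul ((2 : ℝ) ^ ((N : ℝ) / 2) * (0).factorial *
            Real.exp (2 * τ * (s + 1) ^ 2))).const_mul (g x))) ?_ ?_
        · exact ((Pool.Agent.H29.TF.continuous_hk τ).mul
            (hg.continuous.comp (by fun_prop))).aestronglyMeasurable
        · refine Eventually.of_forall fun z => ?_
          have h1' := hk_absorb (N := N) 0 s hτ z
          have h2 := hgr (x - √ρ • z)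
          rw [sub_sub_cancel, norm_smul, Real.norm_of_nonneg hsq0] at h2
          have hk0 := (hkp z).le
          rw [Real.norm_of_nonneg (by have := hpos (x - √ρ • z); positivity)]
          have h3 : Real.exp (s * (√ρ * ‖z‖)) ≤ Real.exp (s * ‖z‖) := by
            apply Real.exp_le_exp.2
            have : √ρ * ‖z‖ ≤ 1 * ‖z‖ := by gcongr
            nlinarith
          have hgx := (hpos x).le
          calc hk τ z * g (x - √ρ • z) ≤ hk τ z * (Real.exp (s * (√ρ * ‖z‖)) * g x) := by gcongr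
            _ ≤ hk τ z * (Real.exp (s * ‖z‖) * g x) := by gcongr
            _ = g x * (hk τ z * (‖z‖ ^ 0 * Real.exp (s * ‖z‖))) := by ring
            _ ≤ _ := mul_le_mul_of_nonneg_left h1' hgx
      refine integral_mono (I0.sub (I1.const_mul _)) hint2 fun z => ?_
      show hk τ z * g (x - z) - s * (1 - √ρ) * (hk τ z * g (x - z) * ‖z‖) ≤
        hk τ z * g (x - √ρ • z)
      have h2 := growth hg hpos hgs (x - √ρ • z) (x - z)
      rw [show x - √ρ • z - (x - z) = (1 - √ρ) • z by module, norm_smul,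
        Real.norm_of_nonneg (by linarith)] at h2
      have hgz := hpos (x - z)
      have hkz := hkp z
      have h3 : g (x - z) * (1 - s * ((1 - √ρ) * ‖z‖)) ≤ g (x - √ρ • z) := by
        have h4 : Real.exp (-(s * ((1 - √ρ) * ‖z‖))) * g (x - z) ≤ g (x - √ρ • z) := by
          have := mul_le_mul_of_nonneg_left h2 (Real.exp_pos (-(s * ((1 - √ρ) * ‖z‖)))).le
          have e3 : Real.exp (-(s * ((1 - √ρ) * ‖z‖))) * (Real.exp (s * ((1 - √ρ) * ‖z‖)) *
              g (x - √ρ • z)) = g (x - √ρ • z) := by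
            rw [← mul_assoc, ← Real.exp_add, neg_add_cancel, Real.exp_zero, one_mul]
          rw [e3] at this
          exact this
        have h5 := Real.add_one_le_exp (-(s * ((1 - √ρ) * ‖z‖)))
        nlinarith
      calc _ = hk τ z * (g (x - z) * (1 - s * ((1 - √ρ) * ‖z‖))) := by ring
        _ ≤ _ := by gcongr
    linarith
  -- derivative at `ρ = 1`
  have hd : HasDerivAt (fun ρ : ℝ => ρ ^ (-(N : ℝ) / 2) *
      (m0 - (1 - ρ) / (4 * ρ * τ) * m2 + ((1 - ρ) / (4 * ρ * τ)) ^ 2 / 2 * m4) -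
      (m0 - s * (1 - √ρ) * m1)) (-(N : ℝ) / 2 * m0 + m2 / (4 * τ) - s * m1 / 2) 1 := by
    have d1 : HasDerivAt (fun ρ : ℝ => ρ ^ (-(N : ℝ) / 2)) (-(N : ℝ) / 2) 1 := by
      have := Real.hasDerivAt_rpow_const (x := 1) (p := -(N : ℝ) / 2) (Or.inl one_ne_zero)
      simpa using this
    have d2 : HasDerivAt (fun ρ : ℝ => (1 - ρ) / (4 * ρ * τ)) (-1 / (4 * τ)) 1 := by
      have h1 : HasDerivAt (fun ρ : ℝ => 1 - ρ) (-1) 1 := by
        simpa using (hasDerivAt_id (1 : ℝ)).const_sub 1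
      have h2 : HasDerivAt (fun ρ : ℝ => 4 * ρ * τ) (4 * τ) 1 := by
        have := ((hasDerivAt_id (1 : ℝ)).const_mul 4).mul_const τ
        simpa using this
      have := h1.div h2 (by positivity)
      refine this.congr_deriv ?_
      field_simp
      ring
    have d3 : HasDerivAt (fun ρ : ℝ => m0 - (1 - ρ) / (4 * ρ * τ) * m2 +
        ((1 - ρ) / (4 * ρ * τ)) ^ 2 / 2 * m4) (m2 / (4 * τ)) 1 := by
      have := ((d2.mul_const m2).const_sub m0).add (((d2.pow 2).div_const 2).mul_const m4)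
      refine this.congr_deriv ?_
      simp
      ring
    have d4 : HasDerivAt (fun ρ : ℝ => m0 - s * (1 - √ρ) * m1) (s * m1 / 2) 1 := by
      have h1 : HasDerivAt (fun ρ : ℝ => √ρ) (1 / 2) 1 := by
        have := Real.hasDerivAt_sqrt (x := 1) one_ne_zero
        simpa using this
      have := (((h1.const_sub 1).const_mul s).mul_const m1).const_sub m0
      refine this.congr_deriv ?_
      ring
    have := (d1.mul d3).sub d4
    refine this.congr_deriv ?_
    simp
  have hneg : -(N : ℝ) / 2 * m0 + m2 / (4 * τ) - s * m1 / 2 ≤ 0 := by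
    refine deriv_sign hd.hasDerivWithinAt (by simp) ?_
    have : ∀ᶠ r in 𝓝[<] (1 : ℝ), 0 < r ∧ r < 1 := by
      have h1 : ∀ᶠ r in 𝓝[<] (1 : ℝ), 0 < r := mem_nhdsWithin_of_mem_nhds (Ioi_mem_nhds one_pos)
      exact h1.and self_mem_nhdsWithin
    filter_upwards [this] with r hr
    exact key r hr.1 hr.2
  have : m2 / (4 * τ) ≤ (N : ℝ) / 2 * m0 + s * m1 / 2 := by linarith
  rw [div_le_iff₀ (by positivity)] at this
  linarith

/-- `v_t ≤ (κ + s²) v` for ancient solutions with `|∇v| ≤ s v` -/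
theorem time_le {κ s : ℝ} {v vt : ℝ → E N → ℝ} (hs : 0 ≤ s) (hv : Anc κ v) (hvt : Anc κ vt)
    (h1 : ∀ t ≤ 0, ContDiff ℝ 1 (v t))
    (hint : ∀ s t, s ≤ t → t ≤ 0 → ∀ x, v t x = v s x + ∫ r in s..t, vt r x)
    (hgs : ∀ t ≤ 0, ∀ x, gr v t x ≤ s * v t x) {t : ℝ} (ht : t ≤ 0) (x : E N) :
    vt t x ≤ (κ + s ^ 2) * v t x := by
  have hvp := hv.pos t ht x
  -- the bound for a fixed `τ`
  have key : ∀ τ > 0, (vt t x - κ * v t x) ≤ (s + √(N / (2 * τ))) ^ 2 * v t x := by
    intro τ hτ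
    have ht' : t - τ ≤ 0 := by linarith
    set g := v (t - τ) with hg
    have hgc : ContDiff ℝ 1 g := h1 _ ht'
    have hgp : ∀ y, 0 < g y := fun y => hv.pos _ ht' y
    have hgg : ∀ y, ‖fderiv ℝ g y‖ ≤ s * g y := fun y => hgs _ ht' y
    have hgr : ∀ y, g y ≤ Real.exp (s * ‖x - y‖) * g x := fun y => growth hgc hgp hgg x y
    have I0 : Integrable (fun z : E N => hk τ z * g (x - z)) := by
      simpa using int_mom hgc.continuous hgp x hgr hτ 0
    have I1 : Integrable (fun z : E N => hk τ z * g (x - z) * ‖z‖) := by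
      simpa using int_mom hgc.continuous hgp x hgr hτ 1
    have I2 := int_mom hgc.continuous hgp x hgr hτ 2
    have hM := mom_two hs hgc hgp hgg x hτ
    set m0 := ∫ z, hk τ z * g (x - z) with hm0
    set m1 := ∫ z, hk τ z * g (x - z) * ‖z‖ with hm1
    set m2 := ∫ z, hk τ z * g (x - z) * ‖z‖ ^ 2 with hm2
    have hkp : ∀ z : E N, 0 < hk τ z := fun z => Pool.Agent.H29.TF.hk_pos hτ z
    have erep : ∀ ρ, 0 < ρ → ρ ≤ 1 → v (t - (1 - ρ) * τ) x =
        Real.exp (κ * (ρ * τ)) * ∫ z, hk (ρ * τ) z * g (x - z) := by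
      intro ρ h0 h1'
      have := (hv.rep (t - τ) (t - (1 - ρ) * τ) (by nlinarith) (by nlinarith) x).2
      rw [this, show t - (1 - ρ) * τ - (t - τ) = ρ * τ by ring]
      congr 1
      rw [← integral_sub_left_eq_self (fun y => hk (ρ * τ) (x - y) * v (t - τ) y) volume x]
      simp [hg]
    have e1 : v t x = Real.exp (κ * τ) * m0 := by
      have := erep 1 one_pos le_rfl
      simpa using this
    have hm0p : 0 < m0 := by
      have := hvp
      rw [e1] at this
      exact (mul_pos_iff_of_pos_left (Real.exp_pos _)).1 this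
    have hm1n : 0 ≤ m1 := integral_nonneg fun z => mul_nonneg
      (mul_nonneg (hkp z).le (hgp _).le) (norm_nonneg _)
    have hm2n : 0 ≤ m2 := integral_nonneg fun z => mul_nonneg
      (mul_nonneg (hkp z).le (hgp _).le) (by positivity)
    -- Cauchy-Schwarz
    have CS : ∀ a : ℝ, 2 * a * m1 ≤ a ^ 2 * m0 + m2 := by
      intro a
      have : a ^ 2 * m0 + m2 = ∫ z, (a ^ 2 * (hk τ z * g (x - z)) +
          hk τ z * g (x - z) * ‖z‖ ^ 2) := by
        have a1 := integral_add (f := fun z : E N => a ^ 2 * (hk τ z * g (x - z)))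
          (g := fun z : E N => hk τ z * g (x - z) * ‖z‖ ^ 2) (μ := volume) (I0.const_mul _) I2
        rw [a1, integral_const_mul]
      rw [this, hm1, ← integral_const_mul]
      refine integral_mono (I1.const_mul _) ((I0.const_mul _).add I2) fun z => ?_
      show 2 * a * (hk τ z * g (x - z) * ‖z‖) ≤ a ^ 2 * (hk τ z * g (x - z)) +
          hk τ z * g (x - z) * ‖z‖ ^ 2
      have h2 : 0 ≤ hk τ z * g (x - z) := mul_nonneg (hkp z).le (hgp _).le
      nlinarith [mul_nonneg h2 (sq_nonneg (a - ‖z‖))]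
    -- time derivative against the second moment
    have hD : τ * (vt t x - κ * v t x) * Real.exp (-(κ * τ)) ≤ m2 / (4 * τ) := by
      have hl := left_deriv hvt hint ht x
      have hcomp : HasDerivWithinAt (fun ρ : ℝ => v (t - (1 - ρ) * τ) x) (τ * vt t x) (Iic 1) 1 := by
        have hi : HasDerivWithinAt (fun ρ : ℝ => t - (1 - ρ) * τ) τ (Iic 1) 1 := by
          have := (((hasDerivAt_id (1 : ℝ)).const_sub 1).mul_const τ).const_sub t
          refine (this.congr_deriv (by ring)).hasDerivWithinAt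
        have hl' : HasDerivWithinAt (fun r => v r x) (vt t x) (Iic t)
            ((fun ρ : ℝ => t - (1 - ρ) * τ) 1) := by simpa using hl
        have := HasDerivWithinAt.comp (1 : ℝ) hl' hi (fun ρ (hρ : ρ ≤ 1) => by
          show t - (1 - ρ) * τ ≤ t
          nlinarith)
        refine this.congr_deriv ?_
        ring
      have d0 : HasDerivAt (fun ρ : ℝ => Real.exp (-(κ * (ρ * τ)))) (-(κ * τ) *
          Real.exp (-(κ * τ))) 1 := by
        have : HasDerivAt (fun ρ : ℝ => -(κ * (ρ * τ))) (-(κ * τ)) 1 := by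
          have := (((hasDerivAt_id (1 : ℝ)).mul_const τ).const_mul κ).neg
          refine this.congr_deriv ?_
          ring
        have := this.exp
        refine this.congr_deriv ?_
        simp
        ring
      have d1 : HasDerivAt (fun ρ : ℝ => ρ ^ (-(N : ℝ) / 2)) (-(N : ℝ) / 2) 1 := by
        have := Real.hasDerivAt_rpow_const (x := 1) (p := -(N : ℝ) / 2) (Or.inl one_ne_zero)
        simpa using this
      have d2 : HasDerivAt (fun ρ : ℝ => (1 - ρ) / (4 * ρ * τ)) (-1 / (4 * τ)) 1 := by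
        have h1 : HasDerivAt (fun ρ : ℝ => 1 - ρ) (-1) 1 := by
          simpa using (hasDerivAt_id (1 : ℝ)).const_sub 1
        have h2 : HasDerivAt (fun ρ : ℝ => 4 * ρ * τ) (4 * τ) 1 := by
          have := ((hasDerivAt_id (1 : ℝ)).const_mul 4).mul_const τ
          simpa using this
        have := h1.div h2 (by positivity)
        refine this.congr_deriv ?_
        field_simp
        ring
      have d3 : HasDerivAt (fun ρ : ℝ => m0 - (1 - ρ) / (4 * ρ * τ) * m2) (m2 / (4 * τ)) 1 := by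
        have := (d2.mul_const m2).const_sub m0
        refine this.congr_deriv ?_
        ring
      have hφ : HasDerivWithinAt (fun ρ : ℝ => Real.exp (-(κ * (ρ * τ))) *
          v (t - (1 - ρ) * τ) x - ρ ^ (-(N : ℝ) / 2) * (m0 - (1 - ρ) / (4 * ρ * τ) * m2))
          (τ * (vt t x - κ * v t x) * Real.exp (-(κ * τ)) -
            (-(N : ℝ) / 2 * m0 + m2 / (4 * τ))) (Iic 1) 1 := by
        have := (d0.hasDerivWithinAt.mul hcomp).sub (d1.mul d3).hasDerivWithinAt
        refine this.congr_deriv ?_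
        simp
        ring
      have hsign := deriv_sign hφ (by
        simp only [sub_self, zero_mul, sub_zero, mul_one, one_mul, zero_div, Real.one_rpow]
        rw [e1, ← mul_assoc, ← Real.exp_add]
        simp) (by
        have : ∀ᶠ r in 𝓝[<] (1 : ℝ), 0 < r ∧ r < 1 := by
          have h1 : ∀ᶠ r in 𝓝[<] (1 : ℝ), 0 < r :=
            mem_nhdsWithin_of_mem_nhds (Ioi_mem_nhds one_pos)
          exact h1.and self_mem_nhdsWithin
        filter_upwards [this] with ρ hρ
        rw [erep ρ hρ.1 hρ.2.le, ← mul_assoc, ← Real.exp_add, neg_add_cancel, Real.exp_zero,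
          one_mul, sub_nonneg]
        set c := (1 - ρ) / (4 * ρ * τ) with hc
        have hp : 0 < ρ ^ (-(N : ℝ) / 2) := Real.rpow_pos_of_pos hρ.1 _
        have e2 : m0 - c * m2 = ∫ z, (hk τ z * g (x - z) -
            c * (hk τ z * g (x - z) * ‖z‖ ^ 2)) := by
          have a2 := integral_sub (f := fun z : E N => hk τ z * g (x - z))
            (g := fun z : E N => c * (hk τ z * g (x - z) * ‖z‖ ^ 2)) (μ := volume) I0
              (I2.const_mul _)
          rw [a2, integral_const_mul]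
        rw [e2, ← integral_const_mul]
        refine integral_mono ((I0.sub (I2.const_mul _)).const_mul _) ?_ fun z => ?_
        · have hρτ : 0 < ρ * τ := mul_pos hρ.1 hτ
          simpa using int_mom hgc.continuous hgp x hgr hρτ 0
        · show ρ ^ (-(N : ℝ) / 2) * (hk τ z * g (x - z) - c * (hk τ z * g (x - z) * ‖z‖ ^ 2)) ≤
            hk (ρ * τ) z * g (x - z)
          rw [hk_ratio hρ.1 hτ z]
          have hE := Real.add_one_le_exp (-(c * ‖z‖ ^ 2))
          have hgz := hgp (x - z)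
          have hkz := hkp z
          calc ρ ^ (-(N : ℝ) / 2) * (hk τ z * g (x - z) - c * (hk τ z * g (x - z) * ‖z‖ ^ 2)) =
              ρ ^ (-(N : ℝ) / 2) * ((-(c * ‖z‖ ^ 2) + 1) * hk τ z) * g (x - z) := by ring
            _ ≤ _ := by gcongr)
      have hN : 0 ≤ (N : ℝ) / 2 * m0 := by positivity
      have : -(N : ℝ) / 2 * m0 = -((N : ℝ) / 2 * m0) := by ring
      linarith
    -- conclusion
    set δ := √(N / (2 * τ)) with hδ
    have hδ0 : 0 ≤ δ := Real.sqrt_nonneg _
    have hδ2 : δ ^ 2 = N / (2 * τ) := Real.sq_sqrt (by positivity)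
    -- `X² = m2 / (4 τ² m0) ≤ (s + δ)²`
    have hX : m2 ≤ 4 * τ ^ 2 * (s + δ) ^ 2 * m0 := by
      by_contra hcon
      push Not at hcon
      -- let `X = √(m2/(4 τ² m0)) > s + δ`
      set X := √(m2 / (4 * τ ^ 2 * m0)) with hXd
      have hX2 : X ^ 2 = m2 / (4 * τ ^ 2 * m0) := Real.sq_sqrt (by positivity)
      have hXm : m2 = 4 * τ ^ 2 * m0 * X ^ 2 := by rw [hX2]; field_simp
      have hX0 : 0 ≤ X := Real.sqrt_nonneg _
      have hlt : (s + δ) ^ 2 < X ^ 2 := by
        rw [hXm] at hcon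
        have h4 : 0 < 4 * τ ^ 2 * m0 := by positivity
        nlinarith
      have hlt' : s + δ < X := lt_of_pow_lt_pow_left₀ 2 hX0 hlt
      have hXpos : 0 < X := lt_of_le_of_lt (by positivity) hlt'
      -- m1 ≤ 2 τ X m0
      have h5 : m1 ≤ 2 * τ * X * m0 := by
        have := CS (2 * τ * X)
        rw [hXm] at this
        have h6 : 0 < 2 * (2 * τ * X) := by positivity
        have h7 : 2 * (2 * τ * X) * m1 ≤ 2 * (2 * τ * X) * (2 * τ * X * m0) := by
          calc _ ≤ _ := this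
            _ = _ := by ring
        exact le_of_mul_le_mul_left h7 h6
      have h8 : 4 * τ ^ 2 * m0 * X ^ 2 ≤ 2 * τ * (N * m0 + s * (2 * τ * X * m0)) := by
        rw [← hXm]
        refine hM.trans ?_
        gcongr
      have h9 : X ^ 2 ≤ δ ^ 2 + s * X := by
        rw [hδ2]
        have h4 : 0 < 4 * τ ^ 2 * m0 := by positivity
        have : 4 * τ ^ 2 * m0 * X ^ 2 ≤ 4 * τ ^ 2 * m0 * (N / (2 * τ) + s * X) := by
          calc _ ≤ _ := h8
            _ = _ := by field_simp; ring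
        exact le_of_mul_le_mul_left this h4
      nlinarith
    have hfin : (vt t x - κ * v t x) ≤ Real.exp (κ * τ) * (m2 / (4 * τ ^ 2)) := by
      have h10 := mul_le_mul_of_nonneg_left hD (show 0 ≤ Real.exp (κ * τ) / τ by positivity)
      have e5 : Real.exp (κ * τ) / τ * (τ * (vt t x - κ * v t x) * Real.exp (-(κ * τ))) =
          (vt t x - κ * v t x) * (Real.exp (κ * τ) * Real.exp (-(κ * τ))) := by field_simp
      rw [e5, ← Real.exp_add, add_neg_cancel, Real.exp_zero, mul_one] at h10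
      refine h10.trans (le_of_eq ?_)
      field_simp
    calc (vt t x - κ * v t x) ≤ Real.exp (κ * τ) * (m2 / (4 * τ ^ 2)) := hfin
      _ ≤ Real.exp (κ * τ) * ((s + δ) ^ 2 * m0) := by
          gcongr
          rw [div_le_iff₀ (by positivity)]
          linarith
      _ = (s + δ) ^ 2 * v t x := by rw [e1]; ring
  -- `τ → ∞`
  have hlim : Tendsto (fun τ : ℝ => (s + √(N / (2 * τ))) ^ 2 * v t x) atTop
      (𝓝 ((s + √0) ^ 2 * v t x)) := by
    refine Tendsto.mul_const _ ((Tendsto.const_add s (Real.continuous_sqrt.continuousAt.tendsto.comp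
      ?_)).pow 2)
    exact Tendsto.div_atTop tendsto_const_nhds (tendsto_id.const_mul_atTop (by norm_num))
  have := ge_of_tendsto hlim ((eventually_gt_atTop 0).mono fun τ hτ => key τ hτ)
  rw [Real.sqrt_zero, add_zero] at this
  linarith

theorem deriv_sign' {φ : ℝ → ℝ} {d b : ℝ} (h : HasDerivWithinAt φ d (Ici b) b) (h0 : φ b = 0)
    (hp : ∀ᶠ r in 𝓝[>] b, 0 ≤ φ r) : 0 ≤ d := by
  have h1 : HasDerivWithinAt φ d (Ioi b) b := h.mono Ioi_subset_Ici_self
  rw [hasDerivWithinAt_iff_tendsto_slope' (by simp)] at h1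
  refine ge_of_tendsto h1 ?_
  filter_upwards [hp, self_mem_nhdsWithin] with r hr hr'
  rw [slope_def_field, h0, sub_zero]
  exact div_nonneg hr (by simpa using le_of_lt hr')

/-- translates of the time derivative -/
theorem vt_shift {κ s : ℝ} {v vt : ℝ → E N → ℝ} (hκ : 0 ≤ κ) (hv : Anc κ v)
    (hvt : Anc κ vt) (h1 : ∀ t ≤ 0, ContDiff ℝ 1 (v t))
    (hint : ∀ s t, s ≤ t → t ≤ 0 → ∀ x, v t x = v s x + ∫ r in s..t, vt r x)
    (hgs : ∀ t ≤ 0, ∀ x, gr v t x ≤ s * v t x) {t : ℝ} (ht : t ≤ 0) (x h : E N) :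
    vt t (x + h) ≤ Real.exp (s * ‖h‖) * vt t x := by
  -- monotonicity in time of `Z`
  have key : ∀ t' < t, Real.exp (s * ‖h‖) * v t' x - v t' (x + h) ≤
      Real.exp (s * ‖h‖) * v t x - v t (x + h) := by
    intro t' ht'
    have hb : ∀ τ, t - t' < τ → Real.exp (s * ‖h‖) * v t' x - v t' (x + h) ≤
        ((τ - (t - t')) / τ) ^ (-(N : ℝ) / 2) * (Real.exp (-(κ * (t - t'))) *
          (Real.exp (s * ‖h‖) * v t x - v t (x + h))) := by
      intro τ hτ
      have hτ0 : 0 < τ := by linarith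
      set ρ := (τ - (t - t')) / τ with hρ
      have hρ0 : 0 < ρ := div_pos (by linarith) hτ0
      have hρτ : ρ * τ = t' - (t - τ) := by rw [hρ, div_mul_cancel₀ _ hτ0.ne']; ring
      have hs0 : t - τ ≤ 0 := by linarith
      set g := v (t - τ) with hg
      have hgp : ∀ y, 0 < g y := fun y => hv.pos _ hs0 y
      have hdiff : ∀ y, 0 ≤ Real.exp (s * ‖h‖) * g y - g (y + h) := by
        intro y
        have := growth (h1 _ hs0) hgp (fun y => hgs _ hs0 y) y (y + h)
        rw [show y - (y + h) = -h by abel, norm_neg] at this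
        linarith
      -- representation with translation
      have rep : ∀ r, t - τ < r → r ≤ 0 → Integrable (fun y => hk (r - (t - τ)) (x - y) *
          (Real.exp (s * ‖h‖) * g y - g (y + h))) ∧
          Real.exp (s * ‖h‖) * v r x - v r (x + h) = Real.exp (κ * (r - (t - τ))) *
            ∫ y, hk (r - (t - τ)) (x - y) * (Real.exp (s * ‖h‖) * g y - g (y + h)) := by
        intro r hr hr0
        obtain ⟨i1, e1⟩ := hv.rep (t - τ) r hr hr0 x
        obtain ⟨i2, e2⟩ := hv.rep (t - τ) r hr hr0 (x + h)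
        have i3 : Integrable (fun y => hk (r - (t - τ)) (x - y) * g (y + h)) := by
          have := i2.comp_add_right h
          refine this.congr (Eventually.of_forall fun y => ?_)
          show hk (r - (t - τ)) (x + h - (y + h)) * v (t - τ) (y + h) = _
          rw [add_sub_add_right_eq_sub]
        have e3 : ∫ y, hk (r - (t - τ)) (x + h - y) * v (t - τ) y =
            ∫ y, hk (r - (t - τ)) (x - y) * g (y + h) := by
          rw [← integral_add_right_eq_self (fun y => hk (r - (t - τ)) (x + h - y) *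
            v (t - τ) y) h]
          refine integral_congr_ae (Eventually.of_forall fun y => ?_)
          show hk (r - (t - τ)) (x + h - (y + h)) * v (t - τ) (y + h) = _
          rw [add_sub_add_right_eq_sub]
        have i4 : Integrable (fun y => Real.exp (s * ‖h‖) * (hk (r - (t - τ)) (x - y) * g y)) :=
          i1.const_mul _
        have e4 : (fun y => hk (r - (t - τ)) (x - y) * (Real.exp (s * ‖h‖) * g y - g (y + h))) =
            fun y => Real.exp (s * ‖h‖) * (hk (r - (t - τ)) (x - y) * g y) -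
              hk (r - (t - τ)) (x - y) * g (y + h) := by
          funext y; ring
        refine ⟨by rw [e4]; exact i4.sub i3, ?_⟩
        rw [e4, integral_sub i4 i3, integral_const_mul, ← e3, e1, e2]
        ring
      obtain ⟨_, r1⟩ := rep t' (by linarith) (by linarith)
      obtain ⟨it, r2⟩ := rep t (by linarith) ht
      rw [← hρτ] at r1
      rw [show t - (t - τ) = τ by ring] at r2 it
      have hle : ∫ y, hk (ρ * τ) (x - y) * (Real.exp (s * ‖h‖) * g y - g (y + h)) ≤
          ρ ^ (-(N : ℝ) / 2) * ∫ y, hk τ (x - y) * (Real.exp (s * ‖h‖) * g y - g (y + h)) := by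
        rw [← integral_const_mul]
        refine integral_mono_of_nonneg (Eventually.of_forall fun y => mul_nonneg
          (Pool.Agent.H29.TF.hk_nonneg (by positivity) _) (hdiff y)) (it.const_mul _)
          (Eventually.of_forall fun y => ?_)
        show hk (ρ * τ) (x - y) * (Real.exp (s * ‖h‖) * g y - g (y + h)) ≤
          ρ ^ (-(N : ℝ) / 2) * (hk τ (x - y) * (Real.exp (s * ‖h‖) * g y - g (y + h)))
        rw [← mul_assoc]
        refine mul_le_mul_of_nonneg_right ?_ (hdiff y)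
        rw [hk_ratio hρ0 hτ0]
        have hk0 := (Pool.Agent.H29.TF.hk_pos (V := E N) hτ0 (x - y)).le
        have hp : 0 < ρ ^ (-(N : ℝ) / 2) := Real.rpow_pos_of_pos hρ0 _
        have hρ1 : ρ ≤ 1 := by rw [hρ, div_le_one hτ0]; linarith
        have hex : Real.exp (-((1 - ρ) / (4 * ρ * τ) * ‖x - y‖ ^ 2)) ≤ 1 := by
          rw [Real.exp_le_one_iff]
          have : 0 ≤ (1 - ρ) / (4 * ρ * τ) := div_nonneg (by linarith) (by positivity)
          have := mul_nonneg this (sq_nonneg ‖x - y‖)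
          linarith
        calc _ ≤ ρ ^ (-(N : ℝ) / 2) * (1 * hk τ (x - y)) := by gcongr
          _ = _ := by ring
      rw [r1]
      have e5 : Real.exp (κ * (ρ * τ)) = Real.exp (-(κ * (t - t'))) * Real.exp (κ * τ) := by
        rw [← Real.exp_add, hρτ]
        congr 1
        ring
      calc Real.exp (κ * (ρ * τ)) * ∫ y, hk (ρ * τ) (x - y) *
            (Real.exp (s * ‖h‖) * g y - g (y + h)) ≤ Real.exp (κ * (ρ * τ)) *
            (ρ ^ (-(N : ℝ) / 2) * ∫ y, hk τ (x - y) *
              (Real.exp (s * ‖h‖) * g y - g (y + h))) :=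
            mul_le_mul_of_nonneg_left hle (Real.exp_pos _).le
        _ = _ := by rw [e5, r2]; ring
    have hlim : Tendsto (fun τ : ℝ => ((τ - (t - t')) / τ) ^ (-(N : ℝ) / 2) *
        (Real.exp (-(κ * (t - t'))) * (Real.exp (s * ‖h‖) * v t x - v t (x + h)))) atTop
        (𝓝 ((1 : ℝ) ^ (-(N : ℝ) / 2) *
          (Real.exp (-(κ * (t - t'))) * (Real.exp (s * ‖h‖) * v t x - v t (x + h))))) := by
      refine Tendsto.mul_const _ ?_
      have h2 : Tendsto (fun τ : ℝ => (τ - (t - t')) / τ) atTop (𝓝 1) := by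
        have : Tendsto (fun τ : ℝ => 1 - (t - t') / τ) atTop (𝓝 (1 - 0)) :=
          (Tendsto.div_atTop tendsto_const_nhds tendsto_id).const_sub 1
        rw [sub_zero] at this
        refine this.congr' ?_
        filter_upwards [eventually_gt_atTop 0] with τ hτ
        field_simp
      exact h2.rpow_const (Or.inl one_ne_zero)
    have := ge_of_tendsto hlim ((eventually_gt_atTop (t - t')).mono fun τ hτ => hb τ hτ)
    rw [Real.one_rpow, one_mul] at this
    refine this.trans ?_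
    have hZ : 0 ≤ Real.exp (s * ‖h‖) * v t x - v t (x + h) := by
      have := growth (h1 _ ht) (fun y => hv.pos _ ht y) (fun y => hgs _ ht y) x (x + h)
      rw [show x - (x + h) = -h by abel, norm_neg] at this
      linarith
    have he : Real.exp (-(κ * (t - t'))) ≤ 1 := by
      rw [Real.exp_le_one_iff]
      have := mul_nonneg hκ (show 0 ≤ t - t' by linarith)
      linarith
    calc _ ≤ 1 * _ := mul_le_mul_of_nonneg_right he hZ
      _ = _ := one_mul _
  have d1 := (left_deriv hvt hint ht x).const_mul (Real.exp (s * ‖h‖))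
  have d2 := left_deriv hvt hint ht (x + h)
  have d3 := (d1.sub d2).const_sub (Real.exp (s * ‖h‖) * v t x - v t (x + h))
  have := deriv_sign d3 (by simp) (by
    filter_upwards [self_mem_nhdsWithin] with r hr
    have := key r hr
    show 0 ≤ Real.exp (s * ‖h‖) * v t x - v t (x + h) -
      (Real.exp (s * ‖h‖) * v r x - v r (x + h))
    linarith)
  linarith

/-- from translates to the gradient -/
theorem gr_of_shift {g : E N → ℝ} {s : ℝ} (hs : 0 ≤ s) {x : E N} (hg : DifferentiableAt ℝ g x)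
    (hpos : 0 ≤ g x) (h : ∀ h, g (x + h) ≤ Real.exp (s * ‖h‖) * g x) :
    ‖fderiv ℝ g x‖ ≤ s * g x := by
  have one : ∀ h : E N, fderiv ℝ g x h ≤ s * g x * ‖h‖ := by
    intro k
    have hl : HasDerivAt (fun r : ℝ => g (x + r • k)) (fderiv ℝ g x k) 0 := by
      have h1 : HasDerivAt (fun r : ℝ => x + r • k) k 0 := by
        simpa using ((hasDerivAt_id (0 : ℝ)).smul_const k).const_add x
      have h2 : HasFDerivAt g (fderiv ℝ g x) (x + (0 : ℝ) • k) := by simpa using hg.hasFDerivAt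
      exact h2.comp_hasDerivAt (0 : ℝ) h1
    have he : HasDerivAt (fun r : ℝ => Real.exp (s * (r * ‖k‖)) * g x) (s * ‖k‖ * g x) 0 := by
      have h1 : HasDerivAt (fun r : ℝ => s * (r * ‖k‖)) (s * ‖k‖) 0 := by
        have := ((hasDerivAt_id (0 : ℝ)).mul_const ‖k‖).const_mul s
        simpa using this
      have := h1.exp.mul_const (g x)
      refine this.congr_deriv ?_
      simp
    have := deriv_sign' (he.sub hl).hasDerivWithinAt (by simp) (by
      filter_upwards [self_mem_nhdsWithin] with r hr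
      have h1 := h (r • k)
      rw [norm_smul, Real.norm_of_nonneg (le_of_lt hr)] at h1
      show 0 ≤ Real.exp (s * (r * ‖k‖)) * g x - g (x + r • k)
      linarith)
    linarith
  refine ContinuousLinearMap.opNorm_le_bound _ (by positivity) fun k => ?_
  rw [Real.norm_eq_abs, abs_le]
  have h2 := one (-k)
  rw [map_neg, norm_neg] at h2
  exact ⟨by linarith, one k⟩

end Pool.Agent.H84.RF.VLOW

namespace Pool.Agent.H84.RF

open VLOW in
theorem vlow : T_VLOW := by
  intro N cc cg v vt hcc hcg hv hvt h1 h2 hint hineq hC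
  have hκ : 0 ≤ cc ^ 2 / 4 := by positivity
  have hcg0 : 0 < cg := by linarith
  -- the set of admissible slopes
  set A : Set ℝ := {s | 0 ≤ s ∧ s ≤ cc / 2 ∧ ∀ t ≤ 0, ∀ x, gr v t x ≤ s * v t x} with hA
  have hAne : cc / 2 ∈ A := ⟨by positivity, le_rfl, fun t ht x => (hineq t ht x).2.1⟩
  have hbdd : BddBelow A := ⟨0, fun s hs => hs.1⟩
  set σ := sInf A with hσ
  have hσA : σ ∈ A := by
    refine ⟨le_csInf ⟨_, hAne⟩ fun s hs => hs.1, csInf_le hbdd hAne, fun t ht x => ?_⟩
    by_contra hcon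
    push Not at hcon
    have hvp := hv.pos t ht x
    have : σ < gr v t x / v t x := by rwa [lt_div_iff₀ hvp]
    obtain ⟨s, hs, hlt⟩ := exists_lt_of_csInf_lt ⟨_, hAne⟩ this
    rw [lt_div_iff₀ hvp] at hlt
    linarith [hs.2.2 t ht x]
  -- improvement
  have himp : ∀ t ≤ 0, ∀ x, gr v t x ≤ (cc ^ 2 / 4 + σ ^ 2) / cg * v t x := by
    intro t ht x
    have := time_le hσA.1 hv hvt h1 hint hσA.2.2 ht x
    have h3 := (hineq t ht x).2.2
    rw [div_mul_eq_mul_div, le_div_iff₀ hcg0]
    linarith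
  have hσle : σ ≤ cc ^ 2 / (2 * cg) := by
    by_contra hcon
    push Not at hcon
    have hlt : (cc ^ 2 / 4 + σ ^ 2) / cg < σ := by
      rw [div_lt_iff₀ hcg0]
      rw [div_lt_iff₀ (by positivity)] at hcon
      have h3 : σ ≤ cc / 2 := hσA.2.1
      have h4 : 0 ≤ σ := hσA.1
      nlinarith
    have hmem : (cc ^ 2 / 4 + σ ^ 2) / cg ∈ A :=
      ⟨by positivity, hlt.le.trans hσA.2.1, himp⟩
    exact absurd (csInf_le hbdd hmem) (not_le.2 hlt)
  have hvp := hv.pos 0 le_rfl 0
  have hvtp := hvt.pos 0 le_rfl 0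
  refine ⟨(hσA.2.2 0 le_rfl 0).trans (mul_le_mul_of_nonneg_right hσle hvp.le), ?_⟩
  have hsh : ∀ h : E N, vt 0 (0 + h) ≤ Real.exp (σ * ‖h‖) * vt 0 0 := fun h =>
    vt_shift hκ hv hvt h1 hint hσA.2.2 le_rfl 0 h
  have := gr_of_shift hσA.1 ((h2 0 le_rfl).differentiable (by norm_num) 0) hvtp.le hsh
  exact this.trans (mul_le_mul_of_nonneg_right hσle hvtp.le)

end Pool.Agent.H84.RF
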